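import Mathlib

/-!
# Deterministic branching programs (MP_9dcf40_lc): the definitions used in the statement
-/

namespace RBP

/-- Deterministic branching program over Boolean variables indexed by `ι`: finitely many states, each one
gives an output (`inl b`) or tests a variable and has two successors (`inr (i, g)`: next state `g (x i)`);
cycles are allowed. -/
structure BP (ι : Type) where
  V : Type
  fin : Fintype V
  start : V
  node : V → Bool ⊕ (ι × (Bool → V))

attribute [instance] BP.fin

/-- One step of the computation from the state `v` on the input `x` (nothing happens at an output). -/
def BP.next {ι : Type} (P : BP ι) (x : ι → Bool) (v : P.V) : P.V :=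
  match P.node v with
  | Sum.inl _ => v
  | Sum.inr q => q.2 (x q.1)

/-- The state after `t` steps. -/
def BP.run {ι : Type} (P : BP ι) (x : ι → Bool) : ℕ → P.V
  | 0 => P.start
  | t + 1 => P.next x (P.run x t)

/-- On the input `x` the program gives the output `b` after at most `t` tests. -/
def Out {ι : Type} (P : BP ι) (x : ι → Bool) (t : ℕ) (b : Bool) : Prop :=
  P.node (P.run x t) = Sum.inl b

end RBP
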