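import Pool.Agent.Lib.MP_9dcf40_lc.DT.Spec
import Pool.Agent.Lib.MP_9dcf40_lc.RD.Model

/-!
# Theorem DTR (MP_9dcf40_lc): randomised programs, definitions for the proof
-/

namespace RBP

open Finset SRBP

/-- A deterministic system which is closed: an input which agrees, for every segment, with an element of
`F` on the variables read in this segment, is in `F`. -/
structure DPSC {β : Type} (n r : ℕ) (F : Finset (Fin n → Bool)) (sg : Fin r → (Fin n → Bool) → β)
    (dm : β → Finset (Fin n)) : Prop where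
  dps : DPS n r F sg dm
  clo : ∀ z : Fin n → Bool, (∀ j, ∃ y ∈ F, ∀ v ∈ dm (sg j y), z v = y v) → z ∈ F

/-- `g` has small sums on all rectangles with sides `≥ t`, for any partition of the variables. -/
def Balanced {n : ℕ} (g : (Fin n → Bool) → ℝ) (t κ : ℝ) : Prop :=
  ∀ (U : Finset (Fin n)) (A B : Finset (Fin n → Bool)), t ≤ A.card → t ≤ B.card →
    (∀ a ∈ A, ∀ a' ∈ A, ∀ v, v ∉ U → a v = a' v) → (∀ b ∈ B, ∀ b' ∈ B, ∀ v ∈ U, b v = b' v) →
    |∑ a ∈ A, ∑ b ∈ B, g (glue U a b)| ≤ κ * A.card * B.card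

/-- The sign of the quartic polynomial: `-1` where it is `1`, `1` where it is `0`. -/
def sgq {n : ℕ} (c : Coef n → Bool) (y : Fin n → Bool) : ℝ := if quartic c y = 1 then -1 else 1

/-- PROG (M2): a deterministic program, cut at the times `ℓ, 2 ℓ, ..`. The inputs on which it gives the
output `b` after at most `T` tests are the disjoint union of at most `|V|^r` closed systems. -/
def S_ProgR : Prop := ∀ (n r T ℓ : ℕ) (P : BP (Fin n)) (b : Bool), 1 ≤ r → T ≤ r * ℓ →
  ∃ cls : (Fin r → P.V) → Finset (Fin n → Bool),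
    (∀ x, Out P x T b ↔ ∃ s, x ∈ cls s) ∧ (∀ x s s', x ∈ cls s → x ∈ cls s' → s = s') ∧
    ∀ s, ∃ (sg : Fin r → (Fin n → Bool) → (Fin n → Option Bool)) (dm : (Fin n → Option Bool) →
      Finset (Fin n)), DPSC n r (cls s) sg dm ∧ (∀ x ∈ cls s, ∀ j, (dm (sg j x)).card ≤ ℓ) ∧
      ∀ x ∈ cls s, ∑ j, (dm (sg j x)).card ≤ T

end RBP
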