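import Mathlib

/-!
# Two-sided error (MP_9dcf40_lc): McDiarmid's inequality for uniform product spaces (exponential moments)
-/

namespace RBP

open Finset

namespace Mcd

/-- One coordinate. -/
theorem one {α : Type} [Fintype α] [Nonempty α] (X : α → ℝ) (c lam : ℝ) (hl : 0 ≤ lam) (h1 : lam * c ≤ 1)
    (hX : ∀ a a', |X a - X a'| ≤ c) :
    ∑ a, Real.exp (lam * (X a - (∑ b, X b) / Fintype.card α)) ≤
      Fintype.card α * Real.exp (lam ^ 2 * c ^ 2) := by
  have hN : (0 : ℝ) < Fintype.card α := by exact_mod_cast Fintype.card_pos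
  obtain ⟨M, hM⟩ : ∃ M, M = (∑ b, X b) / Fintype.card α := ⟨_, rfl⟩
  rw [← hM]
  have hsum : ∑ b, X b = M * Fintype.card α := by
    rw [hM]
    field_simp
  have hdev : ∀ a, |X a - M| ≤ c := by
    intro a
    have h2 : (X a - M) * Fintype.card α = ∑ b, (X a - X b) := by
      rw [sum_sub_distrib, sum_const, card_univ, nsmul_eq_mul, hsum]
      ring
    have h3 : |X a - M| * Fintype.card α ≤ c * Fintype.card α := by
      rw [← abs_of_pos hN, ← abs_mul, abs_of_pos hN, h2]
      calc |∑ b, (X a - X b)| ≤ ∑ b, |X a - X b| := abs_sum_le_sum_abs _ _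
        _ ≤ ∑ b : α, c := sum_le_sum (fun b _ => hX a b)
        _ = c * Fintype.card α := by rw [sum_const, card_univ, nsmul_eq_mul, mul_comm]
    exact le_of_mul_le_mul_right h3 hN
  have hpt : ∀ a, Real.exp (lam * (X a - M)) ≤ 1 + lam * (X a - M) + lam ^ 2 * c ^ 2 := by
    intro a
    have h2 : |lam * (X a - M)| ≤ lam * c := by
      rw [abs_mul, abs_of_nonneg hl]
      exact mul_le_mul_of_nonneg_left (hdev a) hl
    have h3 := Real.abs_exp_sub_one_sub_id_le (h2.trans h1)
    have h4 := (abs_le.1 h3).2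
    have h5 : (lam * (X a - M)) ^ 2 ≤ (lam * c) ^ 2 := sq_le_sq' (abs_le.1 h2).1 (abs_le.1 h2).2
    have h6 : (lam * c) ^ 2 = lam ^ 2 * c ^ 2 := mul_pow _ _ _
    linarith
  calc _ ≤ ∑ a, (1 + lam * (X a - M) + lam ^ 2 * c ^ 2) := sum_le_sum (fun a _ => hpt a)
    _ = Fintype.card α * (1 + lam ^ 2 * c ^ 2) := by
        rw [sum_add_distrib, sum_add_distrib, ← mul_sum, sum_sub_distrib, hsum, sum_const, sum_const,
          sum_const, card_univ, nsmul_eq_mul, nsmul_eq_mul, nsmul_eq_mul]
        ring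
    _ ≤ _ := mul_le_mul_of_nonneg_left (by linarith [Real.add_one_le_exp (lam ^ 2 * c ^ 2)]) hN.le

/-- McDiarmid, exponential moment. -/
theorem main : ∀ (r : ℕ) (α : Fin r → Type) [∀ i, Fintype (α i)] [∀ i, Nonempty (α i)]
    (f : (∀ i, α i) → ℝ) (c : Fin r → ℝ) (lam : ℝ), 0 ≤ lam → (∀ i, 0 ≤ c i) → (∀ i, lam * c i ≤ 1) →
    (∀ i x x', (∀ j, j ≠ i → x j = x' j) → |f x - f x'| ≤ c i) →
    ∑ x, Real.exp (lam * (f x - (∑ y, f y) / Fintype.card (∀ i, α i))) ≤
      Fintype.card (∀ i, α i) * Real.exp (lam ^ 2 * ∑ i, c i ^ 2) := by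
  intro r
  induction r with
  | zero =>
    intro α _ _ f c lam hl hc h1 hf
    have hcard : Fintype.card (∀ i, α i) = 1 := by
      rw [Fintype.card_eq_one_iff]
      exact ⟨fun i => i.elim0, fun y => funext (fun i => i.elim0)⟩
    obtain ⟨x0, hx0⟩ := Fintype.card_eq_one_iff.1 hcard
    have hsum : ∀ F : (∀ i, α i) → ℝ, ∑ x, F x = F x0 := fun F =>
      Fintype.sum_eq_single x0 (fun x hx => absurd (hx0 x) hx)
    rw [hsum, hsum, hcard]
    simp
  | succ r ih =>
    intro α _ _ f c lam hl hc h1 hf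
    have hN0 : (0 : ℝ) < Fintype.card (α 0) := by exact_mod_cast Fintype.card_pos
    have hNr : (0 : ℝ) < Fintype.card (∀ i : Fin r, α i.succ) := by exact_mod_cast Fintype.card_pos
    have hcard : Fintype.card (∀ i, α i) = Fintype.card (α 0) * Fintype.card (∀ i : Fin r, α i.succ) := by
      rw [← Fintype.card_prod]
      exact (Fintype.card_congr (Fin.consEquiv α)).symm
    have hsum : ∀ F : (∀ i, α i) → ℝ, ∑ x, F x =
        ∑ x' : (∀ i : Fin r, α i.succ), ∑ x0 : α 0, F (Fin.cons x0 x') := by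
      intro F
      rw [← (Fin.consEquiv α).sum_comp, Fintype.sum_prod_type_right]
      rfl
    obtain ⟨g, hg⟩ : ∃ g : (∀ i : Fin r, α i.succ) → ℝ,
        ∀ x', g x' = (∑ x0 : α 0, f (Fin.cons x0 x')) / Fintype.card (α 0) := ⟨_, fun _ => rfl⟩
    have hgs : ∀ x', ∑ x0 : α 0, f (Fin.cons x0 x') = g x' * Fintype.card (α 0) := by
      intro x'
      rw [hg]
      field_simp
    obtain ⟨M, hM⟩ : ∃ M, M = (∑ x', g x') / Fintype.card (∀ i : Fin r, α i.succ) := ⟨_, rfl⟩
    have hMf : (∑ y, f y) / Fintype.card (∀ i, α i) = M := by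
      rw [hsum, sum_congr rfl (fun x' _ => hgs x'), ← sum_mul, hcard, hM]
      push_cast
      field_simp
    have hgd : ∀ i x x', (∀ j, j ≠ i → x j = x' j) → |g x - g x'| ≤ c i.succ := by
      intro i x x' hx
      have h2 : (g x - g x') * Fintype.card (α 0) = ∑ x0 : α 0, (f (Fin.cons x0 x) - f (Fin.cons x0 x')) := by
        rw [sum_sub_distrib, hgs, hgs]
        ring
      have h3 : |g x - g x'| * Fintype.card (α 0) ≤ c i.succ * Fintype.card (α 0) := by
        rw [← abs_of_pos hN0, ← abs_mul, abs_of_pos hN0, h2]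
        calc _ ≤ ∑ x0 : α 0, |f (Fin.cons x0 x) - f (Fin.cons x0 x')| := abs_sum_le_sum_abs _ _
          _ ≤ ∑ x0 : α 0, c i.succ := by
              refine sum_le_sum (fun x0 _ => hf i.succ _ _ ?_)
              intro j hj
              induction j using Fin.cases with
              | zero => simp
              | succ j =>
                rw [Fin.cons_succ, Fin.cons_succ]
                exact hx j (fun h => hj (by rw [h]))
          _ = c i.succ * Fintype.card (α 0) := by rw [sum_const, card_univ, nsmul_eq_mul, mul_comm]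
      exact le_of_mul_le_mul_right h3 hN0
    have hih := ih (fun i => α i.succ) g (fun i => c i.succ) lam hl (fun i => hc _) (fun i => h1 _) hgd
    rw [← hM] at hih
    rw [hMf, hsum, hcard]
    calc ∑ x' : (∀ i : Fin r, α i.succ), ∑ x0 : α 0, Real.exp (lam * (f (Fin.cons x0 x') - M)) =
        ∑ x' : (∀ i : Fin r, α i.succ), Real.exp (lam * (g x' - M)) *
          ∑ x0 : α 0, Real.exp (lam * (f (Fin.cons x0 x') - g x')) := by
          refine sum_congr rfl (fun x' _ => ?_)
          rw [mul_sum]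
          refine sum_congr rfl (fun x0 _ => ?_)
          rw [← Real.exp_add]
          ring_nf
      _ ≤ ∑ x' : (∀ i : Fin r, α i.succ), Real.exp (lam * (g x' - M)) *
          (Fintype.card (α 0) * Real.exp (lam ^ 2 * c 0 ^ 2)) := by
          refine sum_le_sum (fun x' _ => mul_le_mul_of_nonneg_left ?_ (Real.exp_pos _).le)
          rw [hg]
          refine one (fun x0 => f (Fin.cons x0 x')) (c 0) lam hl (h1 0) (fun a a' => hf 0 _ _ ?_)
          intro j hj
          induction j using Fin.cases with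
          | zero => exact absurd rfl hj
          | succ j => rw [Fin.cons_succ, Fin.cons_succ]
      _ = (∑ x' : (∀ i : Fin r, α i.succ), Real.exp (lam * (g x' - M))) *
          (Fintype.card (α 0) * Real.exp (lam ^ 2 * c 0 ^ 2)) := by rw [sum_mul]
      _ ≤ (Fintype.card (∀ i : Fin r, α i.succ) * Real.exp (lam ^ 2 * ∑ i : Fin r, c i.succ ^ 2)) *
          (Fintype.card (α 0) * Real.exp (lam ^ 2 * c 0 ^ 2)) :=
          mul_le_mul_of_nonneg_right hih (by positivity)
      _ = _ := by
          rw [Fin.sum_univ_succ, mul_add, Real.exp_add]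
          push_cast
          ring

end Mcd

end RBP
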