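import Pool.Agent.Lib.MP_9dcf40_lc.RD.SpecL
import Pool.Agent.Lib.MP_9dcf40_lc.RD.Mcd
import Pool.Agent.Lib.MP_9dcf40_lc.DTR.Sel

/-!
# Two-sided error (MP_9dcf40_lc): selection of the segments and of the set `G` with exponential concentration
-/

namespace RBP

open Finset SRBP

theorem tMcd : S_Mcd := Mcd.main

namespace SelL

/-- McDiarmid for two groups of coordinates. -/
theorem two {r g q B : ℕ} (hq : 1 ≤ q) (hB : 1 ≤ B) (f : (Fin r → Fin q) → (Fin g → Fin B) → ℝ)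
    (l lam : ℝ) (hl : 0 ≤ lam) (hl0 : 0 ≤ l) (h1 : lam * l ≤ 1) (h2 : lam ≤ 1)
    (ha : ∀ w i x x', (∀ j, j ≠ i → x j = x' j) → |f x w - f x' w| ≤ l)
    (hb : ∀ x i w w', (∀ j, j ≠ i → w j = w' j) → |f x w - f x w'| ≤ 1) (M : ℝ)
    (hM : ∑ x, ∑ w, f x w = M * ((q : ℝ) ^ r * (B : ℝ) ^ g)) :
    ∑ x, ∑ w, Real.exp (lam * (f x w - M)) ≤
      (q : ℝ) ^ r * (B : ℝ) ^ g * Real.exp (lam ^ 2 * (r * l ^ 2 + g)) := by
  classical
  have : Nonempty (Fin q) := ⟨⟨0, hq⟩⟩
  have : Nonempty (Fin B) := ⟨⟨0, hB⟩⟩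
  have hq0 : (0 : ℝ) < q := by exact_mod_cast hq
  have hB0 : (0 : ℝ) < B := by exact_mod_cast hB
  have c1 : (Fintype.card (Fin r → Fin q) : ℝ) = (q : ℝ) ^ r := by
    rw [Fintype.card_fun, Fintype.card_fin, Fintype.card_fin]
    push_cast
    rfl
  have c2 : (Fintype.card (Fin g → Fin B) : ℝ) = (B : ℝ) ^ g := by
    rw [Fintype.card_fun, Fintype.card_fin, Fintype.card_fin]
    push_cast
    rfl
  have hBg : (0 : ℝ) < (B : ℝ) ^ g := by positivity
  have hqr : (0 : ℝ) < (q : ℝ) ^ r := by positivity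
  obtain ⟨u, hu⟩ : ∃ u : (Fin r → Fin q) → ℝ, ∀ x, u x = (∑ w, f x w) / (B : ℝ) ^ g := ⟨_, fun _ => rfl⟩
  have hus : ∀ x, ∑ w, f x w = u x * (B : ℝ) ^ g := by
    intro x
    rw [hu]
    field_simp
  have hMu : M = (∑ x, u x) / (q : ℝ) ^ r := by
    rw [sum_congr rfl (fun x _ => hus x), ← sum_mul] at hM
    have h3 : (∑ x, u x) * (B : ℝ) ^ g = (M * (q : ℝ) ^ r) * (B : ℝ) ^ g := by
      rw [hM]
      ring
    have h4 := mul_right_cancel₀ hBg.ne' h3
    rw [h4]
    field_simp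
  have hud : ∀ i x x', (∀ j, j ≠ i → x j = x' j) → |u x - u x'| ≤ l := by
    intro i x x' hx
    have h3 : (u x - u x') * (B : ℝ) ^ g = ∑ w, (f x w - f x' w) := by
      rw [sum_sub_distrib, hus, hus]
      ring
    have h4 : |u x - u x'| * (B : ℝ) ^ g ≤ l * (B : ℝ) ^ g := by
      rw [← abs_of_pos hBg, ← abs_mul, abs_of_pos hBg, h3]
      calc _ ≤ ∑ w, |f x w - f x' w| := abs_sum_le_sum_abs _ _
        _ ≤ ∑ w : Fin g → Fin B, l := sum_le_sum (fun w _ => ha w i x x' hx)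
        _ = l * (B : ℝ) ^ g := by rw [sum_const, card_univ, nsmul_eq_mul, c2, mul_comm]
    exact le_of_mul_le_mul_right h4 hBg
  have m1 := Mcd.main r (fun _ => Fin q) u (fun _ => l) lam hl (fun _ => hl0) (fun _ => h1) hud
  rw [c1, ← hMu, sum_const, card_univ, Fintype.card_fin, nsmul_eq_mul] at m1
  have m2 : ∀ x, ∑ w, Real.exp (lam * (f x w - u x)) ≤ (B : ℝ) ^ g * Real.exp (lam ^ 2 * g) := by
    intro x
    have m3 := Mcd.main g (fun _ => Fin B) (f x) (fun _ => 1) lam hl (fun _ => zero_le_one)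
      (fun _ => by rw [mul_one]; exact h2) (hb x)
    rw [c2, ← hu] at m3
    simpa using m3
  calc ∑ x, ∑ w, Real.exp (lam * (f x w - M)) =
      ∑ x, Real.exp (lam * (u x - M)) * ∑ w, Real.exp (lam * (f x w - u x)) := by
        refine sum_congr rfl (fun x _ => ?_)
        rw [mul_sum]
        refine sum_congr rfl (fun w _ => ?_)
        rw [← Real.exp_add]
        ring_nf
    _ ≤ ∑ x, Real.exp (lam * (u x - M)) * ((B : ℝ) ^ g * Real.exp (lam ^ 2 * g)) :=
        sum_le_sum (fun x _ => mul_le_mul_of_nonneg_left (m2 x) (Real.exp_pos _).le)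
    _ = (∑ x, Real.exp (lam * (u x - M))) * ((B : ℝ) ^ g * Real.exp (lam ^ 2 * g)) := by rw [sum_mul]
    _ ≤ ((q : ℝ) ^ r * Real.exp (lam ^ 2 * (r * l ^ 2))) * ((B : ℝ) ^ g * Real.exp (lam ^ 2 * g)) :=
        mul_le_mul_of_nonneg_right m1 (by positivity)
    _ = _ := by
        rw [mul_add, Real.exp_add]
        ring

/-- The tail. -/
theorem tail {r g q B : ℕ} (hq : 1 ≤ q) (hB : 1 ≤ B) (f : (Fin r → Fin q) → (Fin g → Fin B) → ℝ)
    (l lam : ℝ) (hl : 0 ≤ lam) (hl0 : 0 ≤ l) (h1 : lam * l ≤ 1) (h2 : lam ≤ 1)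
    (ha : ∀ w i x x', (∀ j, j ≠ i → x j = x' j) → |f x w - f x' w| ≤ l)
    (hb : ∀ x i w w', (∀ j, j ≠ i → w j = w' j) → |f x w - f x w'| ≤ 1) (M : ℝ)
    (hM : ∑ x, ∑ w, f x w = M * ((q : ℝ) ^ r * (B : ℝ) ^ g)) (t : ℝ)
    (Bd : Finset ((Fin r → Fin q) × (Fin g → Fin B))) (hBd : ∀ p ∈ Bd, M + t ≤ f p.1 p.2) :
    (Bd.card : ℝ) ≤
      (q : ℝ) ^ r * (B : ℝ) ^ g * Real.exp (lam ^ 2 * (r * l ^ 2 + g) - lam * t) := by
  classical
  have h3 : (Bd.card : ℝ) * Real.exp (lam * t) ≤ ∑ x, ∑ w, Real.exp (lam * (f x w - M)) := by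
    rw [← Fintype.sum_prod_type' (f := fun x w => Real.exp (lam * (f x w - M)))]
    calc (Bd.card : ℝ) * Real.exp (lam * t) = ∑ p ∈ Bd, Real.exp (lam * t) := by
          rw [sum_const, nsmul_eq_mul]
      _ ≤ ∑ p ∈ Bd, Real.exp (lam * (f p.1 p.2 - M)) := by
          refine sum_le_sum (fun p hp => Real.exp_le_exp.2 (mul_le_mul_of_nonneg_left ?_ hl))
          linarith [hBd p hp]
      _ ≤ _ := sum_le_sum_of_subset_of_nonneg (subset_univ _) (fun _ _ _ => (Real.exp_pos _).le)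
  have h4 := h3.trans (two hq hB f l lam hl hl0 h1 h2 ha hb M hM)
  rw [Real.exp_sub, ← mul_div_assoc, le_div_iff₀ (Real.exp_pos _)]
  exact h4

/-- The set `G`. -/
def GG {n g B : ℕ} (h : g * B ≤ n) (w : Fin g → Fin B) : Finset (Fin n) :=
  univ.image (fun i : Fin g => Fin.castLE h (finProdFinEquiv (i, w i)))

theorem mem_GG {n g B : ℕ} (h : g * B ≤ n) (w : Fin g → Fin B) (v : Fin n) :
    v ∈ GG h w ↔ ∃ i, Fin.castLE h (finProdFinEquiv (i, w i)) = v := by
  unfold GG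
  rw [mem_image]
  exact ⟨fun ⟨i, _, hi⟩ => ⟨i, hi⟩, fun ⟨i, hi⟩ => ⟨i, mem_univ _, hi⟩⟩

theorem inj {n g B : ℕ} (h : g * B ≤ n) {i i' : Fin g} {b b' : Fin B}
    (he : Fin.castLE h (finProdFinEquiv (i, b)) = Fin.castLE h (finProdFinEquiv (i', b'))) :
    i = i' ∧ b = b' := by
  have h1 := finProdFinEquiv.injective (Fin.castLE_injective h he)
  exact ⟨congrArg Prod.fst h1, congrArg Prod.snd h1⟩

theorem card_GG {n g B : ℕ} (h : g * B ≤ n) (w : Fin g → Fin B) : (GG h w).card = g := by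
  unfold GG
  rw [card_image_of_injective _ (fun i i' he => (inj h he).1), card_univ, Fintype.card_fin]

/-- A given variable is in `G` with probability at most `1 / B`. -/
theorem prob_GG {n g B : ℕ} (h : g * B ≤ n) (v : Fin n) :
    B * (univ.filter (fun w : Fin g → Fin B => v ∈ GG h w)).card ≤ B ^ g := by
  classical
  have hc : B ^ g = (univ : Finset (Fin g → Fin B)).card := by
    rw [card_univ, Fintype.card_fun, Fintype.card_fin, Fintype.card_fin]
  have hc2 : B * (univ.filter (fun w : Fin g → Fin B => v ∈ GG h w)).card =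
      ((univ : Finset (Fin B)) ×ˢ univ.filter (fun w : Fin g → Fin B => v ∈ GG h w)).card := by
    rw [card_product, card_univ, Fintype.card_fin]
  rw [hc, hc2]
  by_cases hv : ∃ i b, Fin.castLE h (finProdFinEquiv (i, b)) = v
  · obtain ⟨i, b, hib⟩ := hv
    refine card_le_card_of_injOn (fun p => Function.update p.2 i p.1) (fun p _ => mem_univ _) ?_
    intro p hp p' hp' he
    have key : ∀ w : Fin g → Fin B, v ∈ GG h w → w i = b := by
      intro w hw
      obtain ⟨i', hi'⟩ := (mem_GG h w v).1 hw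
      obtain ⟨e1, e2⟩ := inj h (hi'.trans hib.symm)
      rw [← e1]
      exact e2
    have hp2 := key p.2 (mem_filter.1 (mem_product.1 hp).2).2
    have hp2' := key p'.2 (mem_filter.1 (mem_product.1 hp').2).2
    have h1 : p.1 = p'.1 := by
      have := congrFun he i
      simpa using this
    have h2 : p.2 = p'.2 := by
      funext j
      by_cases hj : j = i
      · rw [hj, hp2, hp2']
      · have := congrFun he j
        simpa [Function.update_of_ne hj] using this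
    exact Prod.ext h1 h2
  · have : univ.filter (fun w : Fin g → Fin B => v ∈ GG h w) = ∅ := by
      rw [filter_eq_empty_iff]
      intro w _ hw
      obtain ⟨i, hi⟩ := (mem_GG h w v).1 hw
      exact hv ⟨i, w i, hi⟩
    rw [this, product_empty, card_empty]
    exact Nat.zero_le _

/-- One element of `G` changes the number of elements in a set by at most `1`. -/
theorem diff_GG {n g B : ℕ} (h : g * B ≤ n) (X : Finset (Fin n)) (i : Fin g) (w w' : Fin g → Fin B)
    (hw : ∀ j, j ≠ i → w j = w' j) : (X ∩ GG h w).card ≤ (X ∩ GG h w').card + 1 := by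
  classical
  have h1 : X ∩ GG h w ⊆ insert (Fin.castLE h (finProdFinEquiv (i, w i))) (X ∩ GG h w') := by
    intro v hv
    obtain ⟨hv1, hv2⟩ := mem_inter.1 hv
    obtain ⟨j, hj⟩ := (mem_GG h w v).1 hv2
    by_cases hji : j = i
    · rw [← hj, hji]
      exact mem_insert_self _ _
    · refine mem_insert_of_mem (mem_inter.2 ⟨hv1, (mem_GG h w' v).2 ⟨j, ?_⟩⟩)
      rw [← hw j hji]
      exact hj
  exact (card_le_card h1).trans (card_insert_le _ _)

theorem card_pairs (r g q B : ℕ) :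
    ((univ : Finset ((Fin r → Fin q) × (Fin g → Fin B))).card : ℝ) = (q : ℝ) ^ r * (B : ℝ) ^ g := by
  rw [card_univ, Fintype.card_prod, Fintype.card_fun, Fintype.card_fun, Fintype.card_fin,
    Fintype.card_fin, Fintype.card_fin, Fintype.card_fin]
  push_cast
  rfl

/-- The exponent of the tail. -/
theorem expo (a C : ℝ) : (a / C) ^ 2 * C - a / C * (2 * a) = -(a ^ 2 / C) := by
  by_cases hC : C = 0
  · rw [hC]
    simp
  · field_simp
    ring

theorem expo2 (a C : ℝ) : (a / (4 * C)) ^ 2 * C - a / (4 * C) * (a / 2) = -(a ^ 2 / (16 * C)) := by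
  by_cases hC : C = 0
  · rw [hC]
    simp
  · field_simp
    ring

theorem div_le_one' {a C : ℝ} (hC : 0 ≤ C) (h : a ≤ C) : a / C ≤ 1 := div_le_one_of_le₀ h hC

/-- The variables which are read in few segments. -/
theorem light {n r : ℕ} {β : Type} (sg : Fin r → (Fin n → Bool) → β) (dm : β → Finset (Fin n))
    (x : Fin n → Bool) (k m : ℕ) (hk : ∑ j, (dm (sg j x)).card ≤ k * n) (hkm : 2 * k ≤ m + 1) :
    n ≤ 2 * (univ.filter (fun v => (SelR.Rd sg dm x v).card ≤ m)).card := by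
  classical
  have h1 : (univ.filter (fun v => ¬ (SelR.Rd sg dm x v).card ≤ m)).card * (m + 1) ≤ k * n := by
    calc _ = ∑ v ∈ univ.filter (fun v => ¬ (SelR.Rd sg dm x v).card ≤ m), (m + 1) := by
          rw [sum_const, smul_eq_mul]
      _ ≤ ∑ v ∈ univ.filter (fun v => ¬ (SelR.Rd sg dm x v).card ≤ m), (SelR.Rd sg dm x v).card :=
          sum_le_sum (fun v hv => by
            have := (mem_filter.1 hv).2
            omega)
      _ ≤ ∑ v, (SelR.Rd sg dm x v).card := sum_le_sum_of_subset (filter_subset _ _)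
      _ ≤ k * n := by
          rw [SelR.sum_Rd]
          exact hk
  have h2 : (univ.filter (fun v => ¬ (SelR.Rd sg dm x v).card ≤ m)).card * 2 ≤ n := by
    by_contra hcon
    have hcon := not_le.1 hcon
    rcases Nat.eq_zero_or_pos k with hk0 | hk0
    · rw [hk0, zero_mul] at h1
      have : (univ.filter (fun v => ¬ (SelR.Rd sg dm x v).card ≤ m)).card = 0 := by
        rcases Nat.mul_eq_zero.1 (Nat.le_zero.1 h1) with h | h
        · exact h
        · omega
      omega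
    · have h3 : k * n < k * ((univ.filter (fun v => ¬ (SelR.Rd sg dm x v).card ≤ m)).card * 2) :=
        Nat.mul_lt_mul_of_pos_left hcon hk0
      have h4 : k * ((univ.filter (fun v => ¬ (SelR.Rd sg dm x v).card ≤ m)).card * 2) ≤
          (univ.filter (fun v => ¬ (SelR.Rd sg dm x v).card ≤ m)).card * (m + 1) := by
        calc _ = (univ.filter (fun v => ¬ (SelR.Rd sg dm x v).card ≤ m)).card * (2 * k) := by ring
          _ ≤ _ := Nat.mul_le_mul_left _ hkm
      omega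
  have h3 : (univ.filter (fun v => (SelR.Rd sg dm x v).card ≤ m)).card +
      (univ.filter (fun v => ¬ (SelR.Rd sg dm x v).card ≤ m)).card = n := by
    rw [card_filter_add_card_filter_not, card_univ, Fintype.card_fin]
  omega

/-- The segments with value `0`. -/
def TT {r q : ℕ} (t : Fin r → Fin q) : Finset (Fin r) := univ.filter (fun j => (t j : ℕ) = 0)

theorem mem_TT {r q : ℕ} (t : Fin r → Fin q) (j : Fin r) : j ∈ TT t ↔ (t j : ℕ) = 0 :=
  ⟨fun h => (mem_filter.1 h).2, fun h => mem_filter.2 ⟨mem_univ _, h⟩⟩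

section one

variable {n r q m k ℓ g B s d : ℕ} {β : Type} (sg : Fin r → (Fin n → Bool) → β) (dm : β → Finset (Fin n))
  (x : Fin n → Bool)

open scoped Classical in
/-- The sizes of the two sets. -/
noncomputable def N1 (h : g * B ≤ n) (t : Fin r → Fin q) (w : Fin g → Fin B) : ℕ :=
  ((univ \ DJ sg dm (TT t)ᶜ x) \ GG h w).card

open scoped Classical in
noncomputable def N2 (h : g * B ≤ n) (t : Fin r → Fin q) (w : Fin g → Fin B) : ℕ :=
  (DJ sg dm (TT t)ᶜᶜ x ∩ GG h w).card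

theorem N1_a (hℓ : ∀ j, (dm (sg j x)).card ≤ ℓ) (h : g * B ≤ n) (w : Fin g → Fin B) (i : Fin r)
    (t t' : Fin r → Fin q) (ht : ∀ j, j ≠ i → t j = t' j) :
    N1 sg dm x h t w ≤ N1 sg dm x h t' w + ℓ := by
  classical
  have h1 : (univ \ DJ sg dm (TT t)ᶜ x) \ GG h w ⊆
      ((univ \ DJ sg dm (TT t')ᶜ x) \ GG h w) ∪ dm (sg i x) := by
    intro v hv
    obtain ⟨hv1, hv2⟩ := mem_sdiff.1 hv
    by_cases hvi : v ∈ dm (sg i x)
    · exact mem_union_right _ hvi
    · refine mem_union_left _ (mem_sdiff.2 ⟨mem_sdiff.2 ⟨mem_univ _, fun hc => ?_⟩, hv2⟩)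
      obtain ⟨j, hj, hvj⟩ := mem_biUnion.1 hc
      have hji : j ≠ i := fun e => hvi (e ▸ hvj)
      refine (mem_sdiff.1 hv1).2 (mem_biUnion.2 ⟨j, mem_compl.2 (fun hT => ?_), hvj⟩)
      refine mem_compl.1 hj ((mem_TT _ _).2 ?_)
      rw [← ht j hji]
      exact (mem_TT _ _).1 hT
  exact (card_le_card h1).trans ((card_union_le _ _).trans (Nat.add_le_add_left (hℓ i) _))

theorem N2_a (hℓ : ∀ j, (dm (sg j x)).card ≤ ℓ) (h : g * B ≤ n) (w : Fin g → Fin B) (i : Fin r)
    (t t' : Fin r → Fin q) (ht : ∀ j, j ≠ i → t j = t' j) :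
    N2 sg dm x h t w ≤ N2 sg dm x h t' w + ℓ := by
  classical
  have h1 : DJ sg dm (TT t)ᶜᶜ x ∩ GG h w ⊆ (DJ sg dm (TT t')ᶜᶜ x ∩ GG h w) ∪ dm (sg i x) := by
    intro v hv
    obtain ⟨hv1, hv2⟩ := mem_inter.1 hv
    rw [compl_compl] at hv1
    obtain ⟨j, hj, hvj⟩ := mem_biUnion.1 hv1
    by_cases hji : j = i
    · exact mem_union_right _ (hji ▸ hvj)
    · refine mem_union_left _ (mem_inter.2 ⟨?_, hv2⟩)
      rw [compl_compl]
      refine mem_biUnion.2 ⟨j, (mem_TT _ _).2 ?_, hvj⟩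
      rw [← ht j hji]
      exact (mem_TT _ _).1 hj
  exact (card_le_card h1).trans ((card_union_le _ _).trans (Nat.add_le_add_left (hℓ i) _))

theorem N2_b (h : g * B ≤ n) (t : Fin r → Fin q) (i : Fin g) (w w' : Fin g → Fin B)
    (hw : ∀ j, j ≠ i → w j = w' j) : N2 sg dm x h t w ≤ N2 sg dm x h t w' + 1 :=
  diff_GG h _ i w w' hw

theorem N1_b (h : g * B ≤ n) (t : Fin r → Fin q) (i : Fin g) (w w' : Fin g → Fin B)
    (hw : ∀ j, j ≠ i → w j = w' j) : N1 sg dm x h t w ≤ N1 sg dm x h t w' + 1 := by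
  classical
  have h1 := diff_GG h (univ \ DJ sg dm (TT t)ᶜ x) i w' w (fun j hj => (hw j hj).symm)
  have h2 := card_sdiff_add_card_inter (univ \ DJ sg dm (TT t)ᶜ x) (GG h w)
  have h3 := card_sdiff_add_card_inter (univ \ DJ sg dm (TT t)ᶜ x) (GG h w')
  unfold N1
  omega

theorem abs_le_of {a b c : ℕ} (h1 : a ≤ b + c) (h2 : b ≤ a + c) : |(a : ℝ) - b| ≤ c := by
  have h1' : (a : ℝ) ≤ b + c := by exact_mod_cast h1
  have h2' : (b : ℝ) ≤ a + c := by exact_mod_cast h2
  rw [abs_le]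
  constructor <;> linarith

open SelR in
theorem mean1 (hq : 1 ≤ q) (hk : ∑ j, (dm (sg j x)).card ≤ k * n) (hkm : 2 * k ≤ m + 1) (hB : 4 ≤ B)
    (h : g * B ≤ n) (hs : 8 * q ^ m * s ≤ n) :
    3 * (s : ℝ) * ((q : ℝ) ^ r * (B : ℝ) ^ g) ≤
      ∑ t : Fin r → Fin q, ∑ w : Fin g → Fin B, (N1 sg dm x h t w : ℝ) := by
  classical
  have hq0 : (0 : ℝ) < q := by exact_mod_cast hq
  have hq1 : (1 : ℝ) ≤ q := by exact_mod_cast hq
  have hB0 : (4 : ℝ) ≤ B := by exact_mod_cast hB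
  obtain ⟨W, hW⟩ : ∃ W, W = univ.filter (fun v => (Rd sg dm x v).card ≤ m) := ⟨_, rfl⟩
  have hWc : (n : ℝ) ≤ 2 * W.card := by
    rw [hW]
    exact_mod_cast light sg dm x k m hk hkm
  have h1 : ∀ (t : Fin r → Fin q) (w : Fin g → Fin B),
      ∑ v ∈ W, I (Rd sg dm x) v t * (if v ∈ GG h w then (0 : ℝ) else 1) ≤ N1 sg dm x h t w := by
    intro t w
    have h2 : ∀ v ∈ W, I (Rd sg dm x) v t * (if v ∈ GG h w then (0 : ℝ) else 1) =
        if v ∈ (univ \ DJ sg dm (TT t)ᶜ x) \ GG h w then 1 else 0 := by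
      intro v _
      have h3 : (∀ j ∈ Rd sg dm x v, (t j : ℕ) = 0) ↔ v ∈ univ \ DJ sg dm (TT t)ᶜ x := by
        constructor
        · intro h4
          refine mem_sdiff.2 ⟨mem_univ _, fun hv3 => ?_⟩
          obtain ⟨j, hj, hvj⟩ := mem_biUnion.1 hv3
          exact mem_compl.1 hj ((mem_TT _ _).2 (h4 j (mem_filter.2 ⟨mem_univ _, hvj⟩)))
        · intro h4 j hj
          by_contra h5
          exact (mem_sdiff.1 h4).2 (mem_biUnion.2 ⟨j, mem_compl.2 (fun h6 => h5 ((mem_TT _ _).1 h6)),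
            (mem_filter.1 hj).2⟩)
      unfold I
      by_cases h4 : v ∈ GG h w
      · rw [if_pos h4, mul_zero, if_neg (fun h5 => (mem_sdiff.1 h5).2 h4)]
      · rw [if_neg h4, mul_one]
        by_cases h5 : ∀ j ∈ Rd sg dm x v, (t j : ℕ) = 0
        · rw [if_pos h5, if_pos (mem_sdiff.2 ⟨h3.1 h5, h4⟩)]
        · rw [if_neg h5, if_neg (fun h6 => h5 (h3.2 (mem_sdiff.1 h6).1))]
    rw [sum_congr rfl h2, ← sum_filter, sum_const, nsmul_eq_mul, mul_one]
    have h4 : (W.filter (fun v => v ∈ (univ \ DJ sg dm (TT t)ᶜ x) \ GG h w)).card ≤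
        N1 sg dm x h t w := card_le_card (fun v hv => (mem_filter.1 hv).2)
    exact_mod_cast h4
  have h5 : ∀ v, (3 / 4 : ℝ) * (B : ℝ) ^ g ≤ ∑ w : Fin g → Fin B, (if v ∈ GG h w then (0 : ℝ) else 1) := by
    intro v
    have h6 : ∑ w : Fin g → Fin B, (if v ∈ GG h w then (0 : ℝ) else 1) =
        (B : ℝ) ^ g - (univ.filter (fun w : Fin g → Fin B => v ∈ GG h w)).card := by
      have h7 : ∀ w : Fin g → Fin B, (if v ∈ GG h w then (0 : ℝ) else 1) =
          1 - (if v ∈ GG h w then (1 : ℝ) else 0) := by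
        intro w
        split_ifs <;> ring
      rw [sum_congr rfl (fun w _ => h7 w), sum_sub_distrib, sum_const, card_univ, Fintype.card_fun,
        Fintype.card_fin, Fintype.card_fin, nsmul_eq_mul, mul_one, ← sum_filter, sum_const,
        nsmul_eq_mul, mul_one]
      push_cast
      rfl
    rw [h6]
    have h8 : (B : ℝ) * (univ.filter (fun w : Fin g → Fin B => v ∈ GG h w)).card ≤ (B : ℝ) ^ g := by
      exact_mod_cast prob_GG h v
    have h9 : (4 : ℝ) * (univ.filter (fun w : Fin g → Fin B => v ∈ GG h w)).card ≤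
        (B : ℝ) * (univ.filter (fun w : Fin g → Fin B => v ∈ GG h w)).card :=
      mul_le_mul_of_nonneg_right hB0 (Nat.cast_nonneg _)
    linarith
  have hs' : (8 * q ^ m * s : ℝ) ≤ n := by exact_mod_cast hs
  calc 3 * (s : ℝ) * ((q : ℝ) ^ r * (B : ℝ) ^ g)
      ≤ 3 * ((n : ℝ) / (8 * q ^ m)) * ((q : ℝ) ^ r * (B : ℝ) ^ g) := by
        refine mul_le_mul_of_nonneg_right (mul_le_mul_of_nonneg_left ?_ (by norm_num)) (by positivity)
        rw [le_div_iff₀ (by positivity)]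
        linarith
    _ ≤ 3 * ((2 * W.card : ℝ) / (8 * q ^ m)) * ((q : ℝ) ^ r * (B : ℝ) ^ g) :=
        mul_le_mul_of_nonneg_right (mul_le_mul_of_nonneg_left
          (div_le_div_of_nonneg_right hWc (by positivity)) (by norm_num)) (by positivity)
    _ = ∑ v ∈ W, ((q : ℝ) ^ r / q ^ m) * (3 / 4 * (B : ℝ) ^ g) := by
        rw [sum_const, nsmul_eq_mul]
        field_simp
        ring
    _ ≤ ∑ v ∈ W, (∑ t : Fin r → Fin q, I (Rd sg dm x) v t) *
          ∑ w : Fin g → Fin B, (if v ∈ GG h w then (0 : ℝ) else 1) := by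
        refine sum_le_sum (fun v hv => ?_)
        rw [sum_I hq]
        refine mul_le_mul (div_le_div_of_nonneg_left (by positivity) (by positivity)
          (pow_le_pow_right₀ hq1 ?_)) (h5 v) (by positivity) (by positivity)
        rw [hW] at hv
        exact (mem_filter.1 hv).2
    _ = ∑ t : Fin r → Fin q, ∑ w : Fin g → Fin B,
          ∑ v ∈ W, I (Rd sg dm x) v t * (if v ∈ GG h w then (0 : ℝ) else 1) := by
        have e1 : ∀ t : Fin r → Fin q, ∑ w : Fin g → Fin B,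
            ∑ v ∈ W, I (Rd sg dm x) v t * (if v ∈ GG h w then (0 : ℝ) else 1) =
            ∑ v ∈ W, ∑ w : Fin g → Fin B, I (Rd sg dm x) v t * (if v ∈ GG h w then (0 : ℝ) else 1) :=
          fun t => sum_comm
        rw [sum_congr rfl (fun t _ => e1 t), sum_comm]
        refine sum_congr rfl (fun v _ => ?_)
        rw [sum_mul_sum]
    _ ≤ _ := sum_le_sum (fun t _ => sum_le_sum (fun w _ => h1 t w))

open SelR in
theorem mean2 (hq : 1 ≤ q) (hk : ∑ j, (dm (sg j x)).card ≤ k * n) (hB : 4 ≤ B)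
    (h : g * B ≤ n) (hd : 2 * k * n ≤ B * q * d) :
    ∑ t : Fin r → Fin q, ∑ w : Fin g → Fin B, (N2 sg dm x h t w : ℝ) ≤
      (d : ℝ) / 2 * ((q : ℝ) ^ r * (B : ℝ) ^ g) := by
  classical
  have hq0 : (0 : ℝ) < q := by exact_mod_cast hq
  have hB0 : (4 : ℝ) ≤ B := by exact_mod_cast hB
  have hBp : (0 : ℝ) < B := by linarith
  have h1 : ∀ (t : Fin r → Fin q) (w : Fin g → Fin B), (N2 sg dm x h t w : ℝ) ≤
      ∑ v, (∑ j ∈ Rd sg dm x v, I (fun _ : Fin n => ({j} : Finset (Fin r))) v t) *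
        (if v ∈ GG h w then (1 : ℝ) else 0) := by
    intro t w
    have h2 : (N2 sg dm x h t w : ℝ) =
        ∑ v, (if v ∈ DJ sg dm (TT t) x then (1 : ℝ) else 0) * (if v ∈ GG h w then (1 : ℝ) else 0) := by
      have h3 : ∀ v, (if v ∈ DJ sg dm (TT t) x then (1 : ℝ) else 0) * (if v ∈ GG h w then (1 : ℝ) else 0) =
          if v ∈ DJ sg dm (TT t)ᶜᶜ x ∩ GG h w then 1 else 0 := by
        intro v
        rw [compl_compl]
        by_cases h4 : v ∈ DJ sg dm (TT t) x
        · by_cases h5 : v ∈ GG h w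
          · rw [if_pos h4, if_pos h5, if_pos (mem_inter.2 ⟨h4, h5⟩), mul_one]
          · rw [if_neg h5, if_neg (fun h6 => h5 (mem_inter.1 h6).2), mul_zero]
        · rw [if_neg h4, if_neg (fun h6 => h4 (mem_inter.1 h6).1), zero_mul]
      rw [sum_congr rfl (fun v _ => h3 v), sum_ite_mem, univ_inter, sum_const, nsmul_eq_mul, mul_one]
      rfl
    rw [h2]
    refine sum_le_sum (fun v _ => mul_le_mul_of_nonneg_right ?_ (by split_ifs <;> norm_num))
    have hnn : ∀ j, 0 ≤ I (fun _ : Fin n => ({j} : Finset (Fin r))) v t := by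
      intro j
      unfold I
      split_ifs <;> norm_num
    split_ifs with hv
    · obtain ⟨j, hj, hvj⟩ := mem_biUnion.1 hv
      have h4 : I (fun _ : Fin n => ({j} : Finset (Fin r))) v t = 1 := by
        unfold I
        rw [if_pos]
        intro i hi
        rw [mem_singleton.1 hi]
        exact (mem_TT _ _).1 hj
      rw [← h4]
      exact single_le_sum (f := fun j => I (fun _ : Fin n => ({j} : Finset (Fin r))) v t)
        (fun i _ => hnn i) (mem_filter.2 ⟨mem_univ _, hvj⟩)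
    · exact sum_nonneg (fun i _ => hnn i)
  have h2 : ∀ v, ∑ w : Fin g → Fin B, (if v ∈ GG h w then (1 : ℝ) else 0) ≤ (B : ℝ) ^ g / B := by
    intro v
    rw [← sum_filter, sum_const, nsmul_eq_mul, mul_one, le_div_iff₀ hBp]
    have h8 : (B : ℝ) * (univ.filter (fun w : Fin g → Fin B => v ∈ GG h w)).card ≤ (B : ℝ) ^ g := by
      exact_mod_cast prob_GG h v
    linarith
  have hk' : ∑ v, ((Rd sg dm x v).card : ℝ) ≤ k * n := by
    have := hk
    rw [← sum_Rd] at this
    exact_mod_cast this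
  have hd' : (2 * k * n : ℝ) ≤ B * q * d := by exact_mod_cast hd
  calc _ ≤ ∑ t : Fin r → Fin q, ∑ w : Fin g → Fin B,
        ∑ v, (∑ j ∈ Rd sg dm x v, I (fun _ : Fin n => ({j} : Finset (Fin r))) v t) *
        (if v ∈ GG h w then (1 : ℝ) else 0) := sum_le_sum (fun t _ => sum_le_sum (fun w _ => h1 t w))
    _ = ∑ v, (∑ t : Fin r → Fin q, ∑ j ∈ Rd sg dm x v, I (fun _ : Fin n => ({j} : Finset (Fin r))) v t) *
        ∑ w : Fin g → Fin B, (if v ∈ GG h w then (1 : ℝ) else 0) := by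
        have e1 : ∀ t : Fin r → Fin q, ∑ w : Fin g → Fin B,
            ∑ v, (∑ j ∈ Rd sg dm x v, I (fun _ : Fin n => ({j} : Finset (Fin r))) v t) *
              (if v ∈ GG h w then (1 : ℝ) else 0) =
            ∑ v, ∑ w : Fin g → Fin B,
              (∑ j ∈ Rd sg dm x v, I (fun _ : Fin n => ({j} : Finset (Fin r))) v t) *
              (if v ∈ GG h w then (1 : ℝ) else 0) := fun t => sum_comm
        rw [sum_congr rfl (fun t _ => e1 t), sum_comm]
        refine sum_congr rfl (fun v _ => ?_)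
        rw [sum_mul_sum]
    _ = ∑ v, ((Rd sg dm x v).card * ((q : ℝ) ^ r / q)) *
        ∑ w : Fin g → Fin B, (if v ∈ GG h w then (1 : ℝ) else 0) := by
        refine sum_congr rfl (fun v _ => ?_)
        congr 1
        rw [sum_comm, sum_congr rfl (fun j _ => sum_I hq (fun _ : Fin n => ({j} : Finset (Fin r))) v)]
        simp only [card_singleton, pow_one]
        rw [sum_const, nsmul_eq_mul]
    _ ≤ ∑ v, ((Rd sg dm x v).card * ((q : ℝ) ^ r / q)) * ((B : ℝ) ^ g / B) :=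
        sum_le_sum (fun v _ => mul_le_mul_of_nonneg_left (h2 v) (by positivity))
    _ = (∑ v, ((Rd sg dm x v).card : ℝ)) * (((q : ℝ) ^ r / q) * ((B : ℝ) ^ g / B)) := by
        rw [sum_mul]
        exact sum_congr rfl (fun v _ => by ring)
    _ ≤ (k * n) * (((q : ℝ) ^ r / q) * ((B : ℝ) ^ g / B)) :=
        mul_le_mul_of_nonneg_right hk' (by positivity)
    _ = (2 * k * n) / (B * q) / 2 * ((q : ℝ) ^ r * (B : ℝ) ^ g) := by
        field_simp
    _ ≤ _ := by
        refine mul_le_mul_of_nonneg_right ?_ (by positivity)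
        refine div_le_div_of_nonneg_right ?_ (by norm_num)
        rw [div_le_iff₀ (by positivity)]
        linarith

end one

end SelL

open SelL in
open scoped Classical in
theorem tSelL : S_SelL := by
  intro n r q m k ℓ g B s d β S sg dm hℓ hk hq hn hℓ1 hkm hB h hs hd hsr hdr
  have hq0 : (0 : ℝ) < q := by exact_mod_cast hq
  have hB1 : 1 ≤ B := by omega
  have hB0 : (0 : ℝ) < B := by exact_mod_cast hB1
  have hK : (0 : ℝ) < (q : ℝ) ^ r * (B : ℝ) ^ g := by positivity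
  obtain ⟨C, hC⟩ : ∃ C : ℝ, C = r * ℓ ^ 2 + g := ⟨_, rfl⟩
  have hC0 : 0 ≤ C := by rw [hC]; positivity
  have hℓ1' : (1 : ℝ) ≤ ℓ := by exact_mod_cast hℓ1
  have hrl : (r : ℝ) * ℓ ^ 2 ≤ C := by
    rw [hC]
    linarith [(Nat.cast_nonneg g : (0 : ℝ) ≤ g)]
  -- the conditions on lambda
  have hcond : ∀ a : ℝ, 0 ≤ a → a ≤ r * ℓ → a * ℓ ≤ C ∧ a ≤ C := by
    intro a ha0 ha
    have h1 : a * ℓ ≤ C := by
      refine le_trans ?_ hrl
      calc a * ℓ ≤ (r * ℓ) * ℓ := mul_le_mul_of_nonneg_right ha (by linarith)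
        _ = _ := by ring
    exact ⟨h1, le_trans (le_mul_of_one_le_right ha0 hℓ1') h1⟩
  let B₁ : (Fin n → Bool) → Finset ((Fin r → Fin q) × (Fin g → Fin B)) := fun x =>
    univ.filter (fun p => N1 sg dm x h p.1 p.2 < s)
  let B₂ : (Fin n → Bool) → Finset ((Fin r → Fin q) × (Fin g → Fin B)) := fun x =>
    univ.filter (fun p => d < N2 sg dm x h p.1 p.2)
  have hB₁ : ∀ x ∈ S, ((B₁ x).card : ℝ) ≤ (q : ℝ) ^ r * (B : ℝ) ^ g * Real.exp (-((s : ℝ) ^ 2 / C)) := by
    intro x hx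
    obtain ⟨E, hE⟩ : ∃ E : ℝ, E = (∑ t : Fin r → Fin q, ∑ w : Fin g → Fin B, (N1 sg dm x h t w : ℝ)) /
      ((q : ℝ) ^ r * (B : ℝ) ^ g) := ⟨_, rfl⟩
    have hE3 : 3 * (s : ℝ) ≤ E := by
      rw [hE, le_div_iff₀ hK]
      exact mean1 sg dm x hq (hk x hx) hkm hB h hs
    have hc := hcond s (Nat.cast_nonneg _) (by exact_mod_cast hsr)
    have h1 := tail hq hB1 (fun t w => -(N1 sg dm x h t w : ℝ)) ℓ (s / C) (by positivity) (by linarith)
      (by
        rw [div_mul_eq_mul_div]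
        exact div_le_one' hC0 hc.1)
      (div_le_one' hC0 hc.2)
      (fun w i t t' ht => by
        have h2 := N1_a sg dm x (hℓ x hx) h w i t t' ht
        have h3 := N1_a sg dm x (hℓ x hx) h w i t' t (fun j hj => (ht j hj).symm)
        rw [neg_sub_neg, abs_sub_comm]
        exact abs_le_of h2 h3)
      (fun t i w w' hw => by
        have h2 := N1_b sg dm x h t i w w' hw
        have h3 := N1_b sg dm x h t i w' w (fun j hj => (hw j hj).symm)
        rw [neg_sub_neg, abs_sub_comm]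
        have := abs_le_of h2 h3
        rwa [Nat.cast_one] at this)
      (-E) (by
        simp only [sum_neg_distrib]
        rw [hE]
        field_simp)
      (2 * s) (B₁ x) (by
        intro p hp
        have h2 : (N1 sg dm x h p.1 p.2 : ℝ) < s := by exact_mod_cast (mem_filter.1 hp).2
        show -E + 2 * (s : ℝ) ≤ -(N1 sg dm x h p.1 p.2 : ℝ)
        linarith)
    rw [← hC, expo] at h1
    exact h1
  have hB₂ : ∀ x ∈ S, ((B₂ x).card : ℝ) ≤
      (q : ℝ) ^ r * (B : ℝ) ^ g * Real.exp (-((d : ℝ) ^ 2 / (16 * C))) := by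
    intro x hx
    obtain ⟨E, hE⟩ : ∃ E : ℝ, E = (∑ t : Fin r → Fin q, ∑ w : Fin g → Fin B, (N2 sg dm x h t w : ℝ)) /
      ((q : ℝ) ^ r * (B : ℝ) ^ g) := ⟨_, rfl⟩
    have hE3 : E ≤ (d : ℝ) / 2 := by
      rw [hE, div_le_iff₀ hK]
      exact mean2 sg dm x hq (hk x hx) hB h hd
    have hc := hcond d (Nat.cast_nonneg _) (by exact_mod_cast hdr)
    have h1 := tail hq hB1 (fun t w => (N2 sg dm x h t w : ℝ)) ℓ (d / (4 * C)) (by positivity)
      (by linarith)
      (by
        rw [div_mul_eq_mul_div]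
        refine div_le_one' (by linarith) (by linarith [hc.1]))
      (div_le_one' (by linarith) (by linarith [hc.2]))
      (fun w i t t' ht => by
        have h2 := N2_a sg dm x (hℓ x hx) h w i t t' ht
        have h3 := N2_a sg dm x (hℓ x hx) h w i t' t (fun j hj => (ht j hj).symm)
        exact abs_le_of h2 h3)
      (fun t i w w' hw => by
        have h2 := N2_b sg dm x h t i w w' hw
        have h3 := N2_b sg dm x h t i w' w (fun j hj => (hw j hj).symm)
        have := abs_le_of h2 h3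
        rwa [Nat.cast_one] at this)
      E (by
        rw [hE]
        field_simp)
      (d / 2) (B₂ x) (by
        intro p hp
        have h2 : (d : ℝ) < N2 sg dm x h p.1 p.2 := by exact_mod_cast (mem_filter.1 hp).2
        show E + (d : ℝ) / 2 ≤ (N2 sg dm x h p.1 p.2 : ℝ)
        linarith)
    rw [← hC, expo2] at h1
    exact h1
  -- averaging
  obtain ⟨η, hη⟩ : ∃ η : ℝ, η = Real.exp (-((s : ℝ) ^ 2 / C)) + Real.exp (-((d : ℝ) ^ 2 / (16 * C))) :=
    ⟨_, rfl⟩
  have htot : ∑ p : (Fin r → Fin q) × (Fin g → Fin B),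
      ((S.card : ℝ) - (Gd S sg dm (TT p.1)ᶜ (GG h p.2) s d).card) ≤
      ∑ p : (Fin r → Fin q) × (Fin g → Fin B), (η * S.card : ℝ) := by
    have h1 : ∀ p : (Fin r → Fin q) × (Fin g → Fin B),
        ((S.card : ℝ) - (Gd S sg dm (TT p.1)ᶜ (GG h p.2) s d).card) ≤
        ∑ x ∈ S, ((if p ∈ B₁ x then (1 : ℝ) else 0) + if p ∈ B₂ x then 1 else 0) := by
      intro p
      have h2 : (S.card : ℝ) - (Gd S sg dm (TT p.1)ᶜ (GG h p.2) s d).card =
          ∑ x ∈ S, (if s ≤ ((univ \ DJ sg dm (TT p.1)ᶜ x) \ GG h p.2).card ∧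
            (DJ sg dm (TT p.1)ᶜᶜ x ∩ GG h p.2).card ≤ d then (0 : ℝ) else 1) := by
        rw [sum_ite, sum_const_zero, zero_add, sum_const, nsmul_eq_mul, mul_one]
        have h3 := card_filter_add_card_filter_not (s := S)
          (p := fun x => s ≤ ((univ \ DJ sg dm (TT p.1)ᶜ x) \ GG h p.2).card ∧
            (DJ sg dm (TT p.1)ᶜᶜ x ∩ GG h p.2).card ≤ d)
        have h4 : (S.card : ℝ) = (Gd S sg dm (TT p.1)ᶜ (GG h p.2) s d).card +
            (S.filter (fun x => ¬ (s ≤ ((univ \ DJ sg dm (TT p.1)ᶜ x) \ GG h p.2).card ∧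
            (DJ sg dm (TT p.1)ᶜᶜ x ∩ GG h p.2).card ≤ d))).card := by
          rw [← h3]
          unfold Gd
          push_cast
          rfl
        rw [h4]
        ring
      rw [h2]
      refine sum_le_sum (fun x _ => ?_)
      have hnn : ∀ (a : Prop) [Decidable a], (0 : ℝ) ≤ if a then 1 else 0 := by
        intro a _
        split_ifs <;> norm_num
      by_cases hc : s ≤ ((univ \ DJ sg dm (TT p.1)ᶜ x) \ GG h p.2).card ∧
            (DJ sg dm (TT p.1)ᶜᶜ x ∩ GG h p.2).card ≤ d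
      · rw [if_pos hc]
        exact add_nonneg (hnn _) (hnn _)
      · rw [if_neg hc]
        rw [not_and_or, not_le, not_le] at hc
        rcases hc with hc | hc
        · have hm : p ∈ B₁ x := mem_filter.2 ⟨mem_univ _, hc⟩
          have : (if p ∈ B₁ x then (1 : ℝ) else 0) = 1 := if_pos hm
          rw [this]
          linarith [hnn (p ∈ B₂ x)]
        · have hm : p ∈ B₂ x := mem_filter.2 ⟨mem_univ _, hc⟩
          have : (if p ∈ B₂ x then (1 : ℝ) else 0) = 1 := if_pos hm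
          rw [this]
          linarith [hnn (p ∈ B₁ x)]
    refine (sum_le_sum (fun p _ => h1 p)).trans ?_
    rw [sum_comm]
    have e1 : ∀ Z : Finset ((Fin r → Fin q) × (Fin g → Fin B)),
        ∑ p : (Fin r → Fin q) × (Fin g → Fin B), (if p ∈ Z then (1 : ℝ) else 0) = Z.card := by
      intro Z
      rw [sum_ite_mem, univ_inter, sum_const, nsmul_eq_mul, mul_one]
    have h2 : ∀ x ∈ S, ∑ p : (Fin r → Fin q) × (Fin g → Fin B), ((if p ∈ B₁ x then (1 : ℝ) else 0) +
        if p ∈ B₂ x then 1 else 0) ≤ (q : ℝ) ^ r * (B : ℝ) ^ g * η := by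
      intro x hx
      rw [sum_add_distrib, e1, e1, hη, mul_add]
      exact add_le_add (hB₁ x hx) (hB₂ x hx)
    refine (sum_le_sum h2).trans (le_of_eq ?_)
    rw [sum_const, nsmul_eq_mul, sum_const, nsmul_eq_mul, card_pairs]
    ring
  have hne : (univ : Finset ((Fin r → Fin q) × (Fin g → Fin B))).Nonempty :=
    ⟨(fun _ => ⟨0, hq⟩, fun _ => ⟨0, hB1⟩), mem_univ _⟩
  obtain ⟨p, -, hp⟩ := exists_le_of_sum_le hne htot
  rw [hη, hC] at hp
  exact ⟨(TT p.1)ᶜ, GG h p.2, card_GG h p.2, hp⟩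

end RBP
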