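import Pool.Agent.Lib.MP_9dcf40_lc.RD.Prog2

/-!
# Theorem DTR (MP_9dcf40_lc): the main statement for one quartic polynomial
-/

namespace RBP

open Finset SRBP

/-- TOP: on each output value the program is nearly balanced. -/
def S_TopB : Prop := ∃ A N : ℕ, 1 ≤ A ∧ ∀ n ≥ N, ∃ c : Coef n → Bool, ∀ k : ℕ, 2 ≤ k →
  (k : ℝ) ^ (A * k) ≤ n → ∀ P : BP (Fin n),
  (Fintype.card P.V : ℝ) < Real.exp (n / (k : ℝ) ^ (A * k)) → ∀ b : Bool,
  |∑ y ∈ ShB P (k * n) b, sgq c y| ≤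
    (ShB P (k * n) b).card / k + 2 ^ n * Real.exp (-(n / (k : ℝ) ^ (A * k)))

end RBP
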