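import Pool.Agent.Lib.MP_9dcf40_lc.RD.Defs

/-!
# Theorem DTR (MP_9dcf40_lc): from deterministic programs to closed systems
-/

namespace RBP

open Finset SRBP

namespace ProgAux

variable {ι : Type}

/-- Two inputs which agree on the tested variables have the same states. -/
theorem run_congr (P : BP ι) (x y : ι → Bool) (a b : ℕ) (h0 : P.run x a = P.run y a)
    (h : ∀ t, a ≤ t → t < b → P.run x t = P.run y t → ∀ q, P.node (P.run y t) = Sum.inr q →
      x q.1 = y q.1) : ∀ t, a ≤ t → t ≤ b → P.run x t = P.run y t := by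
  intro t hat
  induction t, hat using Nat.le_induction with
  | base => exact fun _ => h0
  | succ t hat ih =>
    intro htb
    have h1 := ih (by omega)
    show P.next x (P.run x t) = P.next y (P.run y t)
    rw [h1]
    unfold BP.next
    rcases hq : P.node (P.run y t) with c | q
    · rfl
    · show q.2 (x q.1) = q.2 (y q.1)
      rw [h t hat (by omega) h1 q hq]

/-- The variable tested at the time `t`. -/
def tst {n : ℕ} (P : BP (Fin n)) (x : Fin n → Bool) (t : ℕ) : Finset (Fin n) :=
  match P.node (P.run x t) with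
  | Sum.inl _ => ∅
  | Sum.inr q => {q.1}

theorem tst_card {n : ℕ} (P : BP (Fin n)) (x : Fin n → Bool) (t : ℕ) : (tst P x t).card ≤ 1 := by
  unfold tst
  rcases P.node (P.run x t) with c | q
  · simp
  · simp

theorem mem_tst {n : ℕ} {P : BP (Fin n)} {x : Fin n → Bool} {t : ℕ} {q : Fin n × (Bool → P.V)}
    (h : P.node (P.run x t) = Sum.inr q) : q.1 ∈ tst P x t := by
  unfold tst
  rw [h]
  exact mem_singleton_self _

theorem tst_congr {n : ℕ} {P : BP (Fin n)} {x y : Fin n → Bool} {t : ℕ}
    (h : P.run x t = P.run y t) : tst P x t = tst P y t := by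
  unfold tst
  rw [h]

/-- The variables tested in the segment `j`. -/
def DD {n : ℕ} (P : BP (Fin n)) (T ℓ : ℕ) (j : ℕ) (x : Fin n → Bool) : Finset (Fin n) :=
  (Ico (min (j * ℓ) T) (min ((j + 1) * ℓ) T)).biUnion (tst P x)

theorem DD_card {n : ℕ} (P : BP (Fin n)) (T ℓ : ℕ) (j : ℕ) (x : Fin n → Bool) :
    (DD P T ℓ j x).card ≤ min ((j + 1) * ℓ) T - min (j * ℓ) T := by
  unfold DD
  refine card_biUnion_le.trans ?_
  refine (sum_le_sum (fun t _ => tst_card P x t)).trans ?_
  rw [sum_const, smul_eq_mul, mul_one, Nat.card_Ico]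

/-- The label. -/
def sgl {n : ℕ} (P : BP (Fin n)) (T ℓ : ℕ) (j : ℕ) (x : Fin n → Bool) : Fin n → Option Bool :=
  fun v => if v ∈ DD P T ℓ j x then some (x v) else none

/-- The domain of a label. -/
def dom {n : ℕ} (b : Fin n → Option Bool) : Finset (Fin n) := univ.filter (fun v => (b v).isSome)

theorem dom_sgl {n : ℕ} (P : BP (Fin n)) (T ℓ : ℕ) (j : ℕ) (x : Fin n → Bool) :
    dom (sgl P T ℓ j x) = DD P T ℓ j x := by
  ext v
  unfold dom sgl
  rw [mem_filter]
  by_cases h : v ∈ DD P T ℓ j x
  · simp [h]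
  · simp [h]

end ProgAux

open ProgAux

theorem tProgR : S_ProgR := by
  classical
  intro n r T ℓ P b hr hT
  let τ : ℕ → ℕ := fun j => min (j * ℓ) T
  have hτ0 : τ 0 = 0 := by simp [τ]
  have hτr : τ r = T := by
    show min (r * ℓ) T = T
    exact min_eq_right hT
  have hτm : ∀ j, τ j ≤ τ (j + 1) := by
    intro j
    show min (j * ℓ) T ≤ min ((j + 1) * ℓ) T
    exact min_le_min (Nat.mul_le_mul_right ℓ (Nat.le_succ j)) le_rfl
  let cls : (Fin r → P.V) → Finset (Fin n → Bool) := fun s => univ.filter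
    (fun x => (∀ j : Fin r, P.run x (τ (j + 1)) = s j) ∧ Out P x T b)
  have hcls : ∀ s x, x ∈ cls s ↔ (∀ j : Fin r, P.run x (τ (j + 1)) = s j) ∧ Out P x T b := by
    intro s x
    simp [cls]
  -- common states at the cut times
  have hcut : ∀ s, ∀ x ∈ cls s, ∀ y ∈ cls s, ∀ j : ℕ, j ≤ r → P.run x (τ j) = P.run y (τ j) := by
    intro s x hx y hy j hj
    rcases j with _ | j
    · rw [hτ0]
      rfl
    · rw [((hcls s x).1 hx).1 ⟨j, by omega⟩, ((hcls s y).1 hy).1 ⟨j, by omega⟩]
  refine ⟨cls, ?_, ?_, ?_⟩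
  · intro x
    constructor
    · intro h
      exact ⟨fun j => P.run x (τ (j + 1)), (hcls _ _).2 ⟨fun _ => rfl, h⟩⟩
    · rintro ⟨s, hs⟩
      exact ((hcls _ _).1 hs).2
  · intro x s s' h h'
    funext j
    rw [← ((hcls _ _).1 h).1 j, ((hcls _ _).1 h').1 j]
  · intro s
    refine ⟨fun j x => sgl P T ℓ j x, dom, ⟨⟨?_, ?_⟩, ?_⟩, ?_, ?_⟩
    · intro j x _ y _ hxy v hv
      rw [dom_sgl] at hv
      have h1 := congrFun hxy v
      unfold sgl at h1
      rw [if_pos hv] at h1
      by_cases hv' : v ∈ DD P T ℓ j y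
      · rw [if_pos hv'] at h1
        exact Option.some.inj h1
      · rw [if_neg hv'] at h1
        exact absurd h1 (by simp)
    · intro j x hx y hy hxy
      simp only [dom_sgl] at hxy
      have h1 : ∀ t, τ j ≤ t → t ≤ τ (j + 1) → P.run x t = P.run y t := by
        refine run_congr P x y _ _ (hcut s x hx y hy j j.2.le) ?_
        intro t ht1 ht2 hrun q hq
        have hqy : q.1 ∈ DD P T ℓ j y :=
          mem_biUnion.2 ⟨t, mem_Ico.2 ⟨ht1, ht2⟩, mem_tst hq⟩
        have hqx : q.1 ∈ DD P T ℓ j x := by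
          refine mem_biUnion.2 ⟨t, mem_Ico.2 ⟨ht1, ht2⟩, ?_⟩
          rw [tst_congr hrun]
          exact mem_tst hq
        exact hxy _ hqx hqy
      have h2 : DD P T ℓ j x = DD P T ℓ j y := by
        unfold DD
        refine biUnion_congr rfl (fun t ht => ?_)
        obtain ⟨h3, h4⟩ := mem_Ico.1 ht
        exact tst_congr (h1 t h3 h4.le)
      funext v
      show sgl P T ℓ j x v = sgl P T ℓ j y v
      unfold sgl
      by_cases hv : v ∈ DD P T ℓ j x
      · rw [if_pos hv, if_pos (by rw [← h2]; exact hv)]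
        rw [hxy v hv (by rw [← h2]; exact hv)]
      · rw [if_neg hv, if_neg (by rw [← h2]; exact hv)]
    · intro z hz
      have hne : ∃ y, y ∈ cls s := by
        obtain ⟨y, hy, -⟩ := hz ⟨0, hr⟩
        exact ⟨y, hy⟩
      obtain ⟨y₀, hy₀⟩ := hne
      have key : ∀ j : ℕ, j ≤ r → P.run z (τ j) = P.run y₀ (τ j) := by
        intro j
        induction j with
        | zero =>
          intro _
          rw [hτ0]
          rfl
        | succ j ih =>
          intro hj
          have h1 := ih (by omega)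
          obtain ⟨y, hy, hzy⟩ := hz ⟨j, by omega⟩
          rw [dom_sgl] at hzy
          have h2 : P.run z (τ j) = P.run y (τ j) := by
            rw [h1]
            exact hcut s y₀ hy₀ y hy j (by omega)
          have h3 := run_congr P z y _ (τ (j + 1)) h2 (by
            intro t ht1 ht2 _ q hq
            exact hzy q.1 (mem_biUnion.2 ⟨t, mem_Ico.2 ⟨ht1, ht2⟩, mem_tst hq⟩))
            (τ (j + 1)) (hτm j) le_rfl
          rw [h3]
          exact hcut s y hy y₀ hy₀ (j + 1) hj
      rw [hcls]
      refine ⟨fun j => ?_, ?_⟩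
      · rw [key (j + 1) j.2]
        exact ((hcls s y₀).1 hy₀).1 j
      · have h4 := key r le_rfl
        rw [hτr] at h4
        unfold Out
        rw [h4]
        exact ((hcls s y₀).1 hy₀).2
    · intro x _ j
      rw [dom_sgl]
      refine (DD_card P T ℓ j x).trans ?_
      have : (↑j + 1) * ℓ = ↑j * ℓ + ℓ := by ring
      rw [this]
      omega
    · intro x _
      have h1 : ∀ m : ℕ, ∑ j ∈ range m, (DD P T ℓ j x).card ≤ τ m := by
        intro m
        induction m with
        | zero => simp
        | succ m ih =>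
          rw [sum_range_succ]
          have h2 := DD_card P T ℓ m x
          have h3 := hτm m
          have h4 : min ((m + 1) * ℓ) T - min (m * ℓ) T = τ (m + 1) - τ m := rfl
          rw [h4] at h2
          omega
      have h5 := h1 r
      rw [hτr] at h5
      rw [← Fin.sum_univ_eq_sum_range (fun j => (DD P T ℓ j x).card) r] at h5
      refine le_trans (le_of_eq ?_) h5
      refine sum_congr rfl (fun j _ => ?_)
      rw [dom_sgl]

end RBP
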