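import Pool.Agent.Lib.MP_9dcf40_lc.DTR.Spec
import Pool.Agent.Lib.MP_9dcf40_lc.RD.Prog

/-!
# Theorem DTR (MP_9dcf40_lc): from deterministic programs to closed systems, global form
-/

namespace RBP

open Finset SRBP

open scoped Classical in
/-- The inputs on which the output `b` is given after at most `K` tests. -/
noncomputable def ShB {ι : Type} [Fintype ι] [DecidableEq ι] (P : BP ι) (K : ℕ) (b : Bool) : Finset (ι → Bool) :=
  univ.filter (fun x => Out P x K b)

open scoped Classical in
/-- M2. `w x` = the states at the times `min (j ℓ) K`, `1 ≤ j ≤ r`. -/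
def S_ProgB : Prop := ∀ (n r ℓ K : ℕ) (P : BP (Fin n)), 1 ≤ r → K ≤ r * ℓ →
  ∃ (w : (Fin n → Bool) → Fin r → P.V)
    (sg : Fin r → (Fin n → Bool) → (Fin n → Option Bool)) (dm : (Fin n → Option Bool) → Finset (Fin n)),
    (∀ x, ∀ j, (dm (sg j x)).card ≤ ℓ) ∧ (∀ x, ∑ j, (dm (sg j x)).card ≤ K) ∧
    ∀ (b : Bool) (u : Fin r → P.V), DPC n r ((ShB P K b).filter (fun x => w x = u)) sg dm

open ProgAux

theorem tProgB : S_ProgB := by
  classical
  intro n r ℓ T P hr hT
  let τ : ℕ → ℕ := fun j => min (j * ℓ) T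
  have hτ0 : τ 0 = 0 := by simp [τ]
  have hτr : τ r = T := by
    show min (r * ℓ) T = T
    exact min_eq_right hT
  have hτm : ∀ j, τ j ≤ τ (j + 1) := by
    intro j
    show min (j * ℓ) T ≤ min ((j + 1) * ℓ) T
    exact min_le_min (Nat.mul_le_mul_right ℓ (Nat.le_succ j)) le_rfl
  refine ⟨fun x j => P.run x (τ (j + 1)), fun j x => sgl P T ℓ j x, dom, ?_, ?_, ?_⟩
  · intro x j
    rw [dom_sgl]
    refine (DD_card P T ℓ j x).trans ?_
    have : (↑j + 1) * ℓ = ↑j * ℓ + ℓ := by ring
    rw [this]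
    omega
  · intro x
    have h1 : ∀ m : ℕ, ∑ j ∈ range m, (DD P T ℓ j x).card ≤ τ m := by
      intro m
      induction m with
      | zero => simp
      | succ m ih =>
        rw [sum_range_succ]
        have h2 := DD_card P T ℓ m x
        have h3 := hτm m
        have h4 : min ((m + 1) * ℓ) T - min (m * ℓ) T = τ (m + 1) - τ m := rfl
        rw [h4] at h2
        omega
    have h5 := h1 r
    rw [hτr] at h5
    rw [← Fin.sum_univ_eq_sum_range (fun j => (DD P T ℓ j x).card) r] at h5
    refine le_trans (le_of_eq ?_) h5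
    refine sum_congr rfl (fun j _ => ?_)
    rw [dom_sgl]
  · intro b u
    obtain ⟨C, hC⟩ : ∃ C, C = (ShB P T b).filter (fun x => (fun j : Fin r => P.run x (τ (j + 1))) = u) :=
      ⟨_, rfl⟩
    have hmem : ∀ x, x ∈ C ↔ (∀ j : Fin r, P.run x (τ (j + 1)) = u j) ∧ Out P x T b := by
      intro x
      rw [hC, mem_filter]
      unfold ShB
      rw [mem_filter]
      constructor
      · rintro ⟨⟨-, h1⟩, h2⟩
        exact ⟨fun j => congrFun h2 j, h1⟩
      · rintro ⟨h1, h2⟩
        exact ⟨⟨mem_univ _, h2⟩, funext h1⟩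
    have hCC : (ShB P T b).filter (fun x => (fun j : Fin r => P.run x (τ (j + 1))) = u) = C := hC.symm
    have hcut : ∀ x ∈ C, ∀ y ∈ C, ∀ j : ℕ, j ≤ r → P.run x (τ j) = P.run y (τ j) := by
      intro x hx y hy j hj
      rcases j with _ | j
      · rw [hτ0]
        rfl
      · rw [((hmem x).1 hx).1 ⟨j, by omega⟩, ((hmem y).1 hy).1 ⟨j, by omega⟩]
    have hval : ∀ j, ∀ x y, sgl P T ℓ j x = sgl P T ℓ j y → ∀ v ∈ dom (sgl P T ℓ j x), x v = y v := by
      intro j x y hxy v hv
      rw [dom_sgl] at hv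
      have h1 := congrFun hxy v
      unfold sgl at h1
      rw [if_pos hv] at h1
      by_cases hv' : v ∈ DD P T ℓ j y
      · rw [if_pos hv'] at h1
        exact Option.some.inj h1
      · rw [if_neg hv'] at h1
        exact absurd h1 (by simp)
    have hdet : ∀ j : Fin r, ∀ x ∈ C, ∀ y ∈ C, (∀ v ∈ dom (sgl P T ℓ j x), v ∈ dom (sgl P T ℓ j y) →
        x v = y v) → sgl P T ℓ j x = sgl P T ℓ j y := by
      intro j x hx y hy hxy
      simp only [dom_sgl] at hxy
      have h1 : ∀ t, τ j ≤ t → t ≤ τ (j + 1) → P.run x t = P.run y t := by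
        refine run_congr P x y _ _ (hcut x hx y hy j j.2.le) ?_
        intro t ht1 ht2 hrun q hq
        have hqy : q.1 ∈ DD P T ℓ j y :=
          mem_biUnion.2 ⟨t, mem_Ico.2 ⟨ht1, ht2⟩, mem_tst hq⟩
        have hqx : q.1 ∈ DD P T ℓ j x := by
          refine mem_biUnion.2 ⟨t, mem_Ico.2 ⟨ht1, ht2⟩, ?_⟩
          rw [tst_congr hrun]
          exact mem_tst hq
        exact hxy _ hqx hqy
      have h2 : DD P T ℓ j x = DD P T ℓ j y := by
        unfold DD
        refine biUnion_congr rfl (fun t ht => ?_)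
        obtain ⟨h3, h4⟩ := mem_Ico.1 ht
        exact tst_congr (h1 t h3 h4.le)
      funext v
      show sgl P T ℓ j x v = sgl P T ℓ j y v
      unfold sgl
      by_cases hv : v ∈ DD P T ℓ j x
      · rw [if_pos hv, if_pos (by rw [← h2]; exact hv)]
        rw [hxy v hv (by rw [← h2]; exact hv)]
      · rw [if_neg hv, if_neg (by rw [← h2]; exact hv)]
    refine DPC.mk ⟨?_, ?_⟩ ?_
    · exact fun j x _ y _ hxy => hval j x y hxy
    · intro j x hx y hy hxy
      rw [hCC] at hx hy
      exact hdet j x hx y hy hxy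
    · intro z Y hY hz
      rw [hCC] at hY ⊢
      have y₀ := Y ⟨0, hr⟩
      have hY0 := hY ⟨0, hr⟩
      have key : ∀ j : ℕ, j ≤ r → ∀ y ∈ C, P.run z (τ j) = P.run y (τ j) := by
        intro j
        induction j with
        | zero =>
          intro _ y _
          rw [hτ0]
          rfl
        | succ j ih =>
          intro hj y hy
          obtain ⟨i, hi⟩ : ∃ i : Fin r, i = ⟨j, by omega⟩ := ⟨_, rfl⟩
          have hzy := hz i
          rw [dom_sgl] at hzy
          have hij : (i : ℕ) = j := by rw [hi]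
          rw [hij] at hzy
          have h2 : P.run z (τ j) = P.run (Y i) (τ j) := ih (by omega) (Y i) (hY i)
          have h3 := run_congr P z (Y i) _ (τ (j + 1)) h2 (by
            intro t ht1 ht2 _ q hq
            exact hzy q.1 (mem_biUnion.2 ⟨t, mem_Ico.2 ⟨ht1, ht2⟩, mem_tst hq⟩))
            (τ (j + 1)) (hτm j) le_rfl
          rw [h3]
          exact hcut (Y i) (hY i) y hy (j + 1) hj
      have hzC : z ∈ C := by
        rw [hmem]
        refine ⟨fun j => ?_, ?_⟩
        · rw [key (j + 1) j.2 _ hY0]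
          exact ((hmem _).1 hY0).1 j
        · have h4 := key r le_rfl _ hY0
          rw [hτr] at h4
          unfold Out
          rw [h4]
          exact ((hmem _).1 hY0).2
      refine ⟨hzC, fun j => ?_⟩
      refine hdet j z hzC (Y j) (hY j) (fun v _ hv => ?_)
      exact hz j v hv

end RBP
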