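import Pool.Agent.Lib.MP_9dcf40_lc.DT.Spec3
import Pool.Agent.Lib.MP_9dcf40_lc.RD.Prog2

/-!
# Two-sided error (MP_9dcf40_lc): the main statement for every quartic polynomial with low discrepancy
-/

namespace RBP

open Finset SRBP

/-- The conclusion of `S_DisQ`. -/
def Good (n : ℕ) (c : Coef n → Bool) : Prop := ∀ t : ℕ, Real.exp ((n : ℝ) ^ (3 / 4 : ℝ)) ≤ t →
  LowDisc (fun y => quartic c y = 1) t (3 * (n : ℝ) ^ (-(1 / 16) : ℝ))

/-- TOP: on each output value the program is nearly balanced; advantage `1 / h`. -/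
def S_TopH : Prop := ∃ A N : ℕ, 1 ≤ A ∧ ∀ n ≥ N, ∀ c : Coef n → Bool, Good n c → ∀ k h : ℕ, 2 ≤ k → 2 ≤ h →
  ((h * k : ℕ) : ℝ) ^ (A * k) ≤ n → ∀ P : BP (Fin n),
  (Fintype.card P.V : ℝ) < Real.exp (n / ((h * k : ℕ) : ℝ) ^ (A * k)) → ∀ b : Bool,
  |∑ y ∈ ShB P (k * n) b, sgq c y| ≤
    (ShB P (k * n) b).card / h + 2 ^ n * Real.exp (-(n / ((h * k : ℕ) : ℝ) ^ (A * k)))

end RBP
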