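import Pool.Agent.Lib.MP_9dcf40_lc.SR.Model
import Pool.Agent.Lib.MP_9dcf40_lc.RD.Model

/-!
# The function computed by the programs (MP_9dcf40_lc), and the final statement
-/

namespace RBP

open SRBP

/-- The input is a circuit `c` with `n` inputs and `m` gates (`CBits n m`) and `t` inputs `y^1, .., y^t` of
the circuit; the function is true iff `c` has the value `1` on an odd number of them. -/
def OddVal (n m t : ℕ) (z : CBits n m ⊕ Fin t × Fin n → Bool) : Prop :=
  Odd (Nat.card {j : Fin t // Val n m (fun a => z (Sum.inl a)) (fun i => z (Sum.inr (j, i)))})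

/-- The programs `P i`, taken with the probabilities `w i`, give with probability `≥ p` a right output
(`true` iff the input has the property `F`) after at most `T` tests, for each input. -/
def Computes {ι : Type} {I : Type} [Fintype I] (P : I → BP ι) (w : I → ℝ) (F : (ι → Bool) → Prop)
    (T : ℕ) (p : ℝ) : Prop :=
  ∀ z : ι → Bool, ∃ S : Finset I, (∀ i ∈ S, ∃ b : Bool, Out (P i) z T b ∧ (b = true ↔ F z)) ∧
    p ≤ ∑ i ∈ S, w i

end RBP
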