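import Pool.Agent.Lib.MP_9dcf40_lc.RD.Res

/-!
# Theorem DTR (MP_9dcf40_lc): the parity of the values of a function on several blocks
-/

namespace RBP

open Finset

namespace ParAux

open ResAux

variable {κ : Type} {t n : ℕ}

/-- All blocks except `j` are constants. -/
def sig (c : κ → Bool) (Y : Fin t → Fin n → Bool) (j : Fin t) : κ ⊕ Fin t × Fin n → Bool ⊕ Fin n :=
  fun a => match a with
    | Sum.inl a => Sum.inl (c a)
    | Sum.inr p => if p.1 = j then Sum.inr p.2 else Sum.inl (Y p.1 p.2)

/-- The input. -/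
def inp (c : κ → Bool) (Y : Fin t → Fin n → Bool) : κ ⊕ Fin t × Fin n → Bool :=
  Sum.elim c (fun p => Y p.1 p.2)

theorem elim_sig (c : κ → Bool) (Y : Fin t → Fin n → Bool) (j : Fin t) (u : Fin n → Bool) :
    (fun a => Sum.elim id u (sig c Y j a)) = inp c (Function.update Y j u) := by
  funext a
  rcases a with a | p
  · rfl
  · unfold sig inp
    simp only [Sum.elim_inr]
    by_cases h : p.1 = j
    · rw [if_pos h, h, Function.update_self]
      rfl
    · rw [if_neg h, Function.update_of_ne h]
      rfl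

theorem tests_sig (P : BP (κ ⊕ Fin t × Fin n)) (c c' : κ → Bool) (Y Y' : Fin t → Fin n → Bool) (j : Fin t)
    (v : P.V) : tests P (sig c Y j) v = tests P (sig c' Y' j) v := by
  unfold tests
  rcases P.node v with b | q
  · rfl
  · simp only
    unfold sig
    rcases q.1 with a | p
    · rfl
    · simp only
      by_cases h : p.1 = j
      · rw [if_pos h, if_pos h]
      · rw [if_neg h, if_neg h]

theorem cnt_sig (P : BP (κ ⊕ Fin t × Fin n)) (c c' : κ → Bool) (Y Y' : Fin t → Fin n → Bool) (j : Fin t)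
    (x : κ ⊕ Fin t × Fin n → Bool) (T : ℕ) : cnt P (sig c Y j) x T = cnt P (sig c' Y' j) x T := by
  unfold cnt
  congr 1
  refine filter_congr (fun i _ => ?_)
  rw [tests_sig P c c' Y Y' j]

theorem sum_tests (P : BP (κ ⊕ Fin t × Fin n)) (c : κ → Bool) (Y : Fin t → Fin n → Bool) (v : P.V) :
    ∑ j, (if tests P (sig c Y j) v = true then 1 else 0) ≤ 1 := by
  have h1 : ∀ j : Fin t, tests P (sig c Y j) v = true → ∀ j' : Fin t, tests P (sig c Y j') v = true → j = j' := by
    intro j hj j' hj'
    unfold tests at hj hj'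
    rcases hq : P.node v with b | q
    · rw [hq] at hj
      exact absurd hj (by simp)
    · rw [hq] at hj hj'
      simp only at hj hj'
      unfold sig at hj hj'
      rcases hp : q.1 with a | p
      · rw [hp] at hj
        exact absurd hj (by simp)
      · rw [hp] at hj hj'
        simp only at hj hj'
        by_cases h : p.1 = j
        · by_cases h' : p.1 = j'
          · rw [← h, ← h']
          · rw [if_neg h'] at hj'
            exact absurd hj' (by simp)
        · rw [if_neg h] at hj
          exact absurd hj (by simp)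
  rw [← card_filter]
  refine card_le_one.2 ?_
  intro j hj j' hj'
  exact h1 j (mem_filter.1 hj).2 j' (mem_filter.1 hj').2

theorem sum_cnt (P : BP (κ ⊕ Fin t × Fin n)) (c : κ → Bool) (Y : Fin t → Fin n → Bool)
    (x : κ ⊕ Fin t × Fin n → Bool) (T : ℕ) : ∑ j, cnt P (sig c Y j) x T ≤ T := by
  induction T with
  | zero => simp [cnt]
  | succ T ih =>
    simp only [cnt_succ, sum_add_distrib]
    have := sum_tests P c Y (P.run x T)
    omega

/-- Markov. -/
theorem few (a : Fin t → ℕ) (T L : ℕ) (h : ∑ j, a j ≤ T) :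
    (t : ℝ) - T / (L + 1) ≤ ((univ.filter (fun j => a j ≤ L)).card : ℝ) := by
  have h1 : (univ.filter (fun j => ¬ a j ≤ L)).card * (L + 1) ≤ T := by
    refine le_trans ?_ h
    rw [← smul_eq_mul]
    refine le_trans (card_nsmul_le_sum _ a (L + 1) ?_) (sum_le_univ_sum_of_nonneg (fun _ => Nat.zero_le _))
    intro j hj
    have := (mem_filter.1 hj).2
    omega
  have h2 := card_filter_add_card_filter_not (s := (univ : Finset (Fin t))) (fun j => a j ≤ L)
  rw [card_univ, Fintype.card_fin] at h2
  have h3 : ((univ.filter (fun j => ¬ a j ≤ L)).card : ℝ) ≤ T / (L + 1) := by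
    rw [le_div_iff₀ (by positivity)]
    exact_mod_cast h1
  have h4 : (t : ℝ) = (univ.filter (fun j => a j ≤ L)).card + (univ.filter (fun j => ¬ a j ≤ L)).card := by
    exact_mod_cast h2.symm
  linarith

/-- The map `(Y, u) ↦ update Y j u` takes every value `2 ^ n` times. -/
theorem upd_sum (j : Fin t) (F : (Fin t → Fin n → Bool) → ℝ) :
    ∑ Y : Fin t → Fin n → Bool, ∑ u : Fin n → Bool, F (Function.update Y j u) =
      2 ^ n * ∑ Y : Fin t → Fin n → Bool, F Y := by
  have h1 : ∑ Y : Fin t → Fin n → Bool, ∑ u : Fin n → Bool, F (Function.update Y j u) =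
      ∑ Y : Fin t → Fin n → Bool, ∑ u : Fin n → Bool, F Y := by
    rw [← Fintype.sum_prod_type', ← Fintype.sum_prod_type']
    refine Fintype.sum_bijective
      (fun p : (Fin t → Fin n → Bool) × (Fin n → Bool) => (Function.update p.1 j p.2, p.1 j)) ?_ _ _ ?_
    · refine (Function.Involutive.bijective ?_)
      rintro ⟨Y, u⟩
      simp only [Function.update_self, Function.update_idem, Function.update_eq_self]
    · rintro ⟨Y, u⟩
      rfl
  rw [h1]
  simp only [sum_const, nsmul_eq_mul, card_univ, Fintype.card_fun, Fintype.card_bool, Fintype.card_fin]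
  rw [← mul_sum]
  push_cast
  rfl

/-- The parity of the number of blocks on which `f` is true. -/
def parb (f : (Fin n → Bool) → Bool) (Y : Fin t → Fin n → Bool) : Bool :=
  decide (Odd (univ.filter (fun j => f (Y j) = true)).card)

theorem parb_update (f : (Fin n → Bool) → Bool) (Y : Fin t → Fin n → Bool) (j : Fin t) (u : Fin n → Bool) :
    xor (decide (Odd (univ.filter (fun i => i ≠ j ∧ f (Y i) = true)).card))
      (parb f (Function.update Y j u)) = f u := by
  have h1 : univ.filter (fun i => f (Function.update Y j u i) = true) =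
      if f u = true then insert j (univ.filter (fun i => i ≠ j ∧ f (Y i) = true))
      else univ.filter (fun i => i ≠ j ∧ f (Y i) = true) := by
    ext i
    by_cases hu : f u = true
    · rw [if_pos hu, mem_insert, mem_filter, mem_filter]
      by_cases hi : i = j
      · subst hi
        simp [hu]
      · simp [hi]
    · rw [if_neg hu, mem_filter, mem_filter]
      by_cases hi : i = j
      · subst hi
        simp [hu]
      · simp [hi]
  unfold parb
  rw [h1]
  obtain ⟨S, hS⟩ : ∃ S, S = univ.filter (fun i => i ≠ j ∧ f (Y i) = true) := ⟨_, rfl⟩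
  have hj : j ∉ S := by
    rw [hS, mem_filter]
    exact fun h => h.2.1 rfl
  rw [← hS]
  by_cases hu : f u = true
  · rw [if_pos hu, card_insert_of_notMem hj, hu]
    by_cases h : Odd S.card
    · have h2 : ¬ Odd (S.card + 1) := by
        rw [Nat.not_odd_iff_even]
        exact h.add_one
      simp [h, h2]
    · have h2 : Odd (S.card + 1) := by
        rw [Nat.not_odd_iff_even] at h
        exact h.add_one
      simp [h, h2]
  · rw [if_neg hu]
    rw [Bool.not_eq_true] at hu
    rw [hu]
    simp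

open scoped Classical in
/-- The direct sum argument. -/
theorem dsum (P : BP (κ ⊕ Fin t × Fin n)) (c : κ → Bool) (f : (Fin n → Bool) → Bool) (T L : ℕ) (ht : 1 ≤ t)
    (ρ : ℝ) (hρ : ρ * 2 ^ (t * n) ≤ ((univ : Finset (Fin t → Fin n → Bool)).filter
      (fun Y => Out P (inp c Y) T (parb f Y))).card) :
    ∃ (P' : BP (Fin n)), Fintype.card P'.V = Fintype.card P.V ∧
      (ρ - T / (t * (L + 1))) * 2 ^ n ≤
        ((univ : Finset (Fin n → Bool)).filter (fun u => Out P' u L (f u))).card := by
  obtain ⟨R, hR⟩ : ∃ R, R = (univ : Finset (Fin t → Fin n → Bool)).filter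
      (fun Y => Out P (inp c Y) T (parb f Y)) := ⟨_, rfl⟩
  rw [← hR] at hρ
  obtain ⟨Y₁, -⟩ : ∃ Y₁ : Fin t → Fin n → Bool, True := ⟨fun _ _ => false, trivial⟩
  have ht0 : (0 : ℝ) < t := by exact_mod_cast ht
  have hRle : (R.card : ℝ) ≤ 2 ^ (t * n) := by
    have h1 : R.card ≤ 2 ^ (t * n) := by
      refine (card_le_univ R).trans ?_
      rw [Fintype.card_fun, Fintype.card_fun, Fintype.card_bool, Fintype.card_fin, Fintype.card_fin,
        ← pow_mul, Nat.mul_comm]
    exact_mod_cast h1
  -- one block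
  have h1 : ∃ j : Fin t, (ρ - T / (t * (L + 1))) * 2 ^ (t * n) ≤
      ((R.filter (fun Y => cnt P (sig c Y₁ j) (inp c Y) T ≤ L)).card : ℝ) := by
    by_contra hcon
    push Not at hcon
    have h2 : ∑ j : Fin t, ((R.filter (fun Y => cnt P (sig c Y₁ j) (inp c Y) T ≤ L)).card : ℝ) =
        ∑ Y ∈ R, ((univ.filter (fun j : Fin t => cnt P (sig c Y₁ j) (inp c Y) T ≤ L)).card : ℝ) := by
      simp only [card_filter]
      push_cast
      exact sum_comm
    have h3 : ∑ Y ∈ R, ((t : ℝ) - T / (L + 1)) ≤
        ∑ Y ∈ R, ((univ.filter (fun j : Fin t => cnt P (sig c Y₁ j) (inp c Y) T ≤ L)).card : ℝ) := by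
      refine sum_le_sum (fun Y _ => ?_)
      exact few (fun j => cnt P (sig c Y₁ j) (inp c Y) T) T L (sum_cnt P c Y₁ (inp c Y) T)
    rw [sum_const, nsmul_eq_mul, ← h2] at h3
    have h4 : ∑ j : Fin t, ((R.filter (fun Y => cnt P (sig c Y₁ j) (inp c Y) T ≤ L)).card : ℝ) <
        ∑ _j : Fin t, (ρ - T / (t * (L + 1))) * 2 ^ (t * n) := by
      refine sum_lt_sum_of_nonempty ⟨⟨0, ht⟩, mem_univ _⟩ (fun j _ => hcon j)
    rw [sum_const, nsmul_eq_mul, card_univ, Fintype.card_fin] at h4
    have h5 : (T : ℝ) / (L + 1) = t * (T / (t * (L + 1))) := by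
      field_simp
    have h6 : (0 : ℝ) ≤ T / (t * (L + 1)) := by positivity
    rw [h5] at h3
    have h7 : (R.card : ℝ) * (t - t * (T / (t * (L + 1)))) =
        t * (R.card * (1 - T / (t * (L + 1)))) := by ring
    rw [h7] at h3
    have h8 := lt_of_le_of_lt h3 h4
    have h9 := lt_of_mul_lt_mul_left h8 ht0.le
    nlinarith [mul_le_mul_of_nonneg_right hRle h6]
  obtain ⟨j, hj⟩ := h1
  obtain ⟨G, hG⟩ : ∃ G, G = R.filter (fun Y => cnt P (sig c Y₁ j) (inp c Y) T ≤ L) := ⟨_, rfl⟩
  rw [← hG] at hj
  -- fix the other blocks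
  have h10 : ∃ Y₀ : Fin t → Fin n → Bool, (ρ - T / (t * (L + 1))) * 2 ^ n ≤
      ((univ.filter (fun u : Fin n → Bool => Function.update Y₀ j u ∈ G)).card : ℝ) := by
    by_contra hcon
    push Not at hcon
    have h2 := upd_sum (n := n) j (fun Y => if Y ∈ G then (1 : ℝ) else 0)
    have h3 : ∑ Y : Fin t → Fin n → Bool, (if Y ∈ G then (1 : ℝ) else 0) = G.card := by
      rw [sum_ite_mem, univ_inter, sum_const, nsmul_eq_mul, mul_one]
    rw [h3] at h2
    have h4 : ∑ Y : Fin t → Fin n → Bool, ∑ u : Fin n → Bool,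
        (if Function.update Y j u ∈ G then (1 : ℝ) else 0) <
        ∑ _Y : Fin t → Fin n → Bool, (ρ - T / (t * (L + 1))) * 2 ^ n := by
      refine sum_lt_sum_of_nonempty univ_nonempty (fun Y _ => ?_)
      have h5 := hcon Y
      rw [card_filter] at h5
      push_cast at h5
      exact h5
    rw [h2, sum_const, nsmul_eq_mul, card_univ, Fintype.card_fun, Fintype.card_fun, Fintype.card_bool,
      Fintype.card_fin, Fintype.card_fin, ← pow_mul, Nat.mul_comm n t] at h4
    push_cast at h4
    have h6 : (2 : ℝ) ^ (t * n) * ((ρ - T / (t * (L + 1))) * 2 ^ n) =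
        2 ^ n * ((ρ - T / (t * (L + 1))) * 2 ^ (t * n)) := by ring
    rw [h6] at h4
    have h7 := lt_of_mul_lt_mul_left h4 (by positivity)
    linarith
  obtain ⟨Y₀, hY₀⟩ := h10
  refine ⟨res P (sig c Y₀ j) (decide (Odd (univ.filter (fun i => i ≠ j ∧ f (Y₀ i) = true)).card)), rfl, ?_⟩
  refine hY₀.trans ?_
  have h11 : univ.filter (fun u : Fin n → Bool => Function.update Y₀ j u ∈ G) ⊆
      univ.filter (fun u => Out (res P (sig c Y₀ j)
        (decide (Odd (univ.filter (fun i => i ≠ j ∧ f (Y₀ i) = true)).card))) u L (f u)) := by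
    intro u hu
    rw [mem_filter] at hu ⊢
    refine ⟨mem_univ _, ?_⟩
    have hu2 := hu.2
    rw [hG, mem_filter, hR, mem_filter] at hu2
    obtain ⟨⟨-, hout⟩, hcnt⟩ := hu2
    rw [← elim_sig c Y₀ j u] at hout hcnt
    have h12 := out_res P (sig c Y₀ j) (decide (Odd (univ.filter (fun i => i ≠ j ∧ f (Y₀ i) = true)).card)) u T
      (parb f (Function.update Y₀ j u)) hout
    rw [parb_update] at h12
    rw [cnt_sig P c c Y₁ Y₀ j] at hcnt
    exact out_mono _ _ h12 hcnt
  exact_mod_cast card_le_card h11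

end ParAux

end RBP
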