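import Pool.Agent.Lib.MP_9dcf40_lc.RD.Top
import Pool.Agent.Lib.MP_9dcf40_lc.RD.Par
import Pool.Agent.Lib.MP_9dcf40_lc.RD.Model2
import Pool.Agent.Lib.MP_9dcf40_lc.DT.CirQ
import Pool.Agent.Lib.MP_9dcf40_lc.SR.Bridge

/-!
# Theorem DTR (MP_9dcf40_lc): the final statement
-/

namespace RBP

open Finset SRBP

/-- The final statement. -/
def S_End : Prop := ∃ A N : ℕ, 1 ≤ A ∧ ∀ n ≥ N, ∀ m ≥ 7 * (n + 1) ^ 4, ∃ c : CBits n m → Bool,
  (∀ k : ℕ, 2 ≤ k → (k : ℝ) ^ (A * k) ≤ n → ∀ P : BP (Fin n),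
    (Fintype.card P.V : ℝ) < Real.exp (n / (k : ℝ) ^ (A * k)) →
    (Nat.card {y : Fin n → Bool // ∃ b : Bool, Out P y (k * n) b ∧ (b = true ↔ Val n m c y)} : ℝ) ≤
      (1 / 2 + 1 / k) * 2 ^ n) ∧
  ∀ k D : ℕ, 2 ≤ k → 2 ≤ D → ((D * k : ℕ) : ℝ) ^ (A * (D * k)) ≤ n →
    ∀ t : ℕ, Fintype.card (CBits n m) ≤ t * n →
    (∀ P : BP (CBits n m ⊕ Fin t × Fin n),
      (Fintype.card P.V : ℝ) < Real.exp (n / ((D * k : ℕ) : ℝ) ^ (A * (D * k))) →
      (Nat.card {Y : Fin t × Fin n → Bool // ∃ b : Bool,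
        Out P (Sum.elim c Y) (k * Fintype.card (CBits n m ⊕ Fin t × Fin n)) b ∧
          (b = true ↔ OddVal n m t (Sum.elim c Y))} : ℝ) < (1 / 2 + 1 / D) * 2 ^ (t * n)) ∧
    ∀ (I : Type) [Fintype I] (P : I → BP (CBits n m ⊕ Fin t × Fin n)) (w : I → ℝ),
      (∀ i, 0 ≤ w i) → ∑ i, w i = 1 →
      (∀ i, (Fintype.card (P i).V : ℝ) < Real.exp (n / ((D * k : ℕ) : ℝ) ^ (A * (D * k)))) →
      ¬ Computes P w (OddVal n m t) (k * Fintype.card (CBits n m ⊕ Fin t × Fin n)) (1 / 2 + 1 / D)

namespace EndAux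

open scoped Classical in
/-- The advantage. -/
theorem adv {n : ℕ} (c : Coef n → Bool) (P : BP (Fin n)) (K : ℕ) (α β : ℝ)
    (h : ∀ b : Bool, |∑ y ∈ ShB P K b, sgq c y| ≤ (ShB P K b).card * α + β) (hα : 0 ≤ α) :
    (((univ : Finset (Fin n → Bool)).filter
      (fun y => Out P y K (decide (quartic c y = 1)))).card : ℝ) ≤ 2 ^ n * ((1 + α) / 2) + β := by
  obtain ⟨R, hR⟩ : ∃ R : Bool → Finset (Fin n → Bool),
      R = fun b => (ShB P K b).filter (fun y => decide (quartic c y = 1) = b) := ⟨_, rfl⟩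
  have hmem : ∀ b y, y ∈ ShB P K b ↔ Out P y K b := by
    intro b y
    unfold ShB
    rw [mem_filter]
    exact ⟨fun h => h.2, fun h => ⟨mem_univ _, h⟩⟩
  have h1 : (univ : Finset (Fin n → Bool)).filter (fun y => Out P y K (decide (quartic c y = 1))) ⊆
      R true ∪ R false := by
    intro y hy
    rw [mem_filter] at hy
    rw [hR, mem_union, mem_filter, mem_filter, hmem, hmem]
    rcases hd : decide (quartic c y = 1) with _ | _
    · rw [hd] at hy
      exact Or.inr ⟨hy.2, rfl⟩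
    · rw [hd] at hy
      exact Or.inl ⟨hy.2, rfl⟩
  have h2 : ((ShB P K true).card : ℝ) + (ShB P K false).card ≤ 2 ^ n := by
    have h3 : Disjoint (ShB P K true) (ShB P K false) := by
      rw [Finset.disjoint_left]
      intro y hy hy'
      rw [hmem] at hy hy'
      exact absurd (out_unique P y hy hy') (by simp)
    have h4 : (ShB P K true).card + (ShB P K false).card ≤ 2 ^ n := by
      rw [← card_union_of_disjoint h3]
      refine (card_le_univ _).trans ?_
      rw [Fintype.card_fun, Fintype.card_bool, Fintype.card_fin]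
    exact_mod_cast h4
  have h3 : ∀ b : Bool, ((R b).card : ℝ) ≤ ((ShB P K b).card * (1 + α) + β) / 2 := by
    intro b
    have h4 : ∑ y ∈ ShB P K b, sgq c y =
        (if b = true then (-1 : ℝ) else 1) * ((R b).card - ((ShB P K b).card - (R b).card)) := by
      have h5 : ∀ y ∈ ShB P K b, sgq c y = (if b = true then (-1 : ℝ) else 1) *
          ((if decide (quartic c y = 1) = b then 1 else 0) -
            (1 - (if decide (quartic c y = 1) = b then 1 else 0))) := by
        intro y _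
        unfold sgq
        by_cases hq : quartic c y = 1 <;> rcases b with _ | _ <;> simp [hq]
      rw [sum_congr rfl h5, ← mul_sum, sum_sub_distrib, sum_sub_distrib, sum_const, nsmul_eq_mul, mul_one]
      have h6 : ∑ y ∈ ShB P K b, (if decide (quartic c y = 1) = b then (1 : ℝ) else 0) = (R b).card := by
        rw [hR]
        simp only
        rw [card_filter]
        push_cast
        rfl
      rw [h6]
    have h7 := h b
    rw [h4, abs_mul] at h7
    have h8 : |(if b = true then (-1 : ℝ) else 1)| = 1 := by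
      rcases b with _ | _ <;> simp
    rw [h8, one_mul] at h7
    have h9 := (abs_le.1 h7).2
    linarith
  have h10 : (((univ : Finset (Fin n → Bool)).filter
      (fun y => Out P y K (decide (quartic c y = 1)))).card : ℝ) ≤ (R true).card + (R false).card := by
    have h11 := (card_le_card h1).trans (card_union_le _ _)
    exact_mod_cast h11
  have h12 := h3 true
  have h13 := h3 false
  have h14 : ((ShB P K true).card + (ShB P K false).card : ℝ) * (1 + α) ≤ 2 ^ n * (1 + α) :=
    mul_le_mul_of_nonneg_right h2 (by linarith)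
  linarith

end EndAux

open EndAux

open scoped Classical in
/-- The average version for one polynomial. -/
def S_AvgQ : Prop := ∃ A N : ℕ, 1 ≤ A ∧ ∀ n ≥ N, ∃ c : Coef n → Bool, ∀ k : ℕ, 2 ≤ k →
  (k : ℝ) ^ (A * k) ≤ n → ∀ P : BP (Fin n),
  (Fintype.card P.V : ℝ) < Real.exp (n / (k : ℝ) ^ (A * k)) →
  (((univ : Finset (Fin n → Bool)).filter
      (fun y => Out P y (k * n) (decide (quartic c y = 1)))).card : ℝ) ≤ (1 / 2 + 1 / k) * 2 ^ n

theorem tAvgQ (h : S_TopB) : S_AvgQ := by
  obtain ⟨A, N, hA, h⟩ := h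
  refine ⟨A + 2, max N 1, by omega, ?_⟩
  intro n hn
  obtain ⟨c, hc⟩ := h n (le_trans (le_max_left _ _) hn)
  refine ⟨c, ?_⟩
  intro k hk hkn P hP
  have hn0 : (1 : ℝ) ≤ n := by exact_mod_cast le_trans (le_max_right _ _) hn
  have hk2 : (2 : ℝ) ≤ k := by exact_mod_cast hk
  have hk1 : (1 : ℝ) ≤ k := by linarith
  have hpos : (0 : ℝ) < (k : ℝ) ^ (A * k) := by positivity
  have e1 : (A + 2) * k = A * k + 2 * k := by ring
  have e2 : (k : ℝ) ^ ((A + 2) * k) = (k : ℝ) ^ (A * k) * (k : ℝ) ^ (2 * k) := by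
    rw [e1, pow_add]
  have hone : (1 : ℝ) ≤ (k : ℝ) ^ (2 * k) := one_le_pow₀ hk1
  have hle : (k : ℝ) ^ (A * k) ≤ (k : ℝ) ^ ((A + 2) * k) := by
    rw [e2]
    nlinarith
  have hq : (k : ℝ) ^ 4 ≤ (k : ℝ) ^ (2 * k) := pow_le_pow_right₀ hk1 (by omega)
  have hn1 : (k : ℝ) ^ 4 ≤ n / (k : ℝ) ^ (A * k) := by
    rw [le_div_iff₀ hpos]
    refine le_trans ?_ hkn
    rw [e2, mul_comm]
    exact mul_le_mul_of_nonneg_left hq hpos.le
  have hexp : Real.exp (-(n / (k : ℝ) ^ (A * k))) ≤ 1 / (2 * k) := by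
    rw [Real.exp_neg, ← one_div]
    refine one_div_le_one_div_of_le (by positivity) ?_
    have h1 := Real.add_one_le_exp (n / (k : ℝ) ^ (A * k))
    have h2 : 2 * (k : ℝ) ≤ (k : ℝ) ^ 4 := by
      have : (2 : ℝ) * k ≤ k * k := by nlinarith
      have h3 : (k : ℝ) * k ≤ k ^ 4 := by
        have : (k : ℝ) ^ 2 ≤ k ^ 4 := pow_le_pow_right₀ hk1 (by norm_num)
        nlinarith
      linarith
    linarith
  have hP' : (Fintype.card P.V : ℝ) < Real.exp (n / (k : ℝ) ^ (A * k)) := by
    refine lt_of_lt_of_le hP (Real.exp_le_exp.2 ?_)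
    exact div_le_div_of_nonneg_left (by linarith) hpos hle
  have h1 := hc k hk (hle.trans hkn) P hP'
  have h2 := adv c P (k * n) (1 / k) (2 ^ n * Real.exp (-(n / (k : ℝ) ^ (A * k)))) (fun b => by
    have h3 := h1 b
    rw [div_eq_mul_one_div] at h3
    exact h3) (by positivity)
  refine h2.trans ?_
  have h4 : (2 : ℝ) ^ n * Real.exp (-(n / (k : ℝ) ^ (A * k))) ≤ 2 ^ n * (1 / (2 * k)) :=
    mul_le_mul_of_nonneg_left hexp (by positivity)
  have h5 : (2 : ℝ) ^ n * ((1 + 1 / k) / 2) + 2 ^ n * (1 / (2 * k)) = (1 / 2 + 1 / k) * 2 ^ n := by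
    field_simp
    ring
  linarith

/-- The numbers: `q = D k ≥ 4`, `p = 4 q`. -/
theorem num4 (A q : ℕ) (hq : 4 ≤ q) :
    ((4 * q : ℕ) : ℝ) ^ (A * (4 * q)) ≤ (q : ℝ) ^ (8 * A * q) := by
  have hq' : (4 : ℝ) ≤ q := by exact_mod_cast hq
  have h1 : ((4 * q : ℕ) : ℝ) ≤ (q : ℝ) ^ 2 := by
    push_cast
    nlinarith
  have h2 : ((4 * q : ℕ) : ℝ) ^ (A * (4 * q)) ≤ ((q : ℝ) ^ 2) ^ (A * (4 * q)) :=
    pow_le_pow_left₀ (by positivity) h1 _
  rw [← pow_mul] at h2
  have e : 2 * (A * (4 * q)) = 8 * A * q := by ring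
  rwa [e] at h2

theorem tEnd (h1 : S_AvgQ) (h2 : S_Gat) (h3 : S_Mon) : S_End := by
  classical
  obtain ⟨A, N, hA, h1⟩ := h1
  refine ⟨8 * A, max N 1, by omega, ?_⟩
  intro n hn m hm
  have hn1 : 1 ≤ n := le_trans (le_max_right _ _) hn
  have hn0 : (0 : ℝ) < n := by exact_mod_cast hn1
  obtain ⟨c₀, hc₀⟩ := h1 n (le_trans (le_max_left _ _) hn)
  obtain ⟨c, hc⟩ := cirQ_aux h2 h3 n m c₀ (by
    have h4 := card_coef n
    have h5 : 1 ≤ (n + 1) ^ 4 := Nat.one_le_pow _ _ (by omega)
    omega)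
  have hval : ∀ y, Val n m c y ↔ quartic c₀ y = 1 := fun y => (val_iff n m c y).trans (hc y)
  obtain ⟨f, hf⟩ : ∃ f : (Fin n → Bool) → Bool, f = fun y => decide (quartic c₀ y = 1) := ⟨_, rfl⟩
  have hfv : ∀ y, f y = true ↔ Val n m c y := by
    intro y
    rw [hf, hval]
    simp
  refine ⟨c, ?_, ?_⟩
  · intro k hk hkn P hP
    have hk1 : (1 : ℝ) ≤ k := by
      have : (2 : ℝ) ≤ k := by exact_mod_cast hk
      linarith
    have hle : (k : ℝ) ^ (A * k) ≤ (k : ℝ) ^ (8 * A * k) := pow_le_pow_right₀ hk1 (by nlinarith)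
    have hpos : (0 : ℝ) < (k : ℝ) ^ (A * k) := by positivity
    have h4 := hc₀ k hk (hle.trans hkn) P (lt_of_lt_of_le hP (Real.exp_le_exp.2
      (div_le_div_of_nonneg_left hn0.le hpos hle)))
    refine le_trans (le_of_eq ?_) h4
    rw [Nat.card_eq_fintype_card, Fintype.card_subtype]
    congr 1
    congr 1
    refine filter_congr (fun y _ => ?_)
    constructor
    · rintro ⟨b, hb1, hb2⟩
      rw [← hfv] at hb2
      have hb3 : b = f y := Bool.eq_iff_iff.2 hb2
      rw [hb3, hf] at hb1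
      exact hb1
    · intro hb
      refine ⟨_, hb, ?_⟩
      rw [hval]
      simp
  · intro k D hk hD hkn t ht
    obtain ⟨q, hq⟩ : ∃ q, q = D * k := ⟨_, rfl⟩
    rw [← hq] at hkn ⊢
    have hq4 : 4 ≤ q := by
      rw [hq]
      nlinarith
    have hq1 : (1 : ℝ) ≤ q := by
      have : (4 : ℝ) ≤ q := by exact_mod_cast hq4
      linarith
    have hnum := num4 A q hq4
    have hpos : (0 : ℝ) < ((4 * q : ℕ) : ℝ) ^ (A * (4 * q)) := by positivity
    have hn4 : ((4 * q : ℕ) : ℝ) ^ (A * (4 * q)) ≤ n := hnum.trans hkn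
    have hD2 : (2 : ℝ) ≤ D := by exact_mod_cast hD
    have hk2 : (2 : ℝ) ≤ k := by exact_mod_cast hk
    have ht1 : 1 ≤ t := by
      rcases Nat.eq_zero_or_pos t with h0 | h0
      · subst h0
        have h5 : 0 < Fintype.card (CBits n m) :=
          Fintype.card_pos_iff.2 ⟨Sum.inr ⟨0, by omega⟩⟩
        omega
      · exact h0
    have ht0 : (0 : ℝ) < t := by exact_mod_cast ht1
    have hcard : Fintype.card (CBits n m ⊕ Fin t × Fin n) ≤ 2 * (t * n) := by
      rw [Fintype.card_sum, Fintype.card_prod, Fintype.card_fin, Fintype.card_fin]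
      omega
    obtain ⟨T, hT⟩ : ∃ T, T = k * Fintype.card (CBits n m ⊕ Fin t × Fin n) := ⟨_, rfl⟩
    rw [← hT]
    have hTle : (T : ℝ) ≤ k * (2 * (t * n)) := by
      rw [hT]
      exact_mod_cast Nat.mul_le_mul_left k hcard
    have hodd : ∀ Y : Fin t → Fin n → Bool, ParAux.parb f Y = true ↔
        OddVal n m t (ParAux.inp c Y) := by
      intro Y
      unfold ParAux.parb OddVal
      rw [decide_eq_true_iff, Nat.card_eq_fintype_card, Fintype.card_subtype]
      have : univ.filter (fun j => f (Y j) = true) = univ.filter (fun j => Val n m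
          (fun a => ParAux.inp c Y (Sum.inl a)) (fun i => ParAux.inp c Y (Sum.inr (j, i)))) := by
        refine filter_congr (fun j _ => ?_)
        exact hfv (Y j)
      rw [this]
    -- the average version
    have main : ∀ P : BP (CBits n m ⊕ Fin t × Fin n),
        (Fintype.card P.V : ℝ) < Real.exp (n / (q : ℝ) ^ (8 * A * q)) →
        (((univ : Finset (Fin t → Fin n → Bool)).filter
          (fun Y => Out P (ParAux.inp c Y) T (ParAux.parb f Y))).card : ℝ) <
          (1 / 2 + 1 / D) * 2 ^ (t * n) := by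
      intro P hP
      by_contra hcon
      rw [not_lt] at hcon
      obtain ⟨P', hP', hlow⟩ := ParAux.dsum P c f T (4 * q * n) ht1 _ hcon
      have h5 := hc₀ (4 * q) (by omega) hn4 P' (by
        rw [hP']
        exact lt_of_lt_of_le hP (Real.exp_le_exp.2 (div_le_div_of_nonneg_left hn0.le hpos hnum)))
      have h6 : (T : ℝ) / (t * (((4 * q * n : ℕ) : ℝ) + 1)) < 1 / (2 * D) := by
        rw [div_lt_div_iff₀ (by positivity) (by positivity), hq]
        push_cast
        have h7 : (T : ℝ) * (2 * D) ≤ (k * (2 * (t * n))) * (2 * D) :=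
          mul_le_mul_of_nonneg_right hTle (by positivity)
        nlinarith
      have h7 : (1 : ℝ) / ((4 * q : ℕ) : ℝ) ≤ 1 / (2 * D) := by
        refine one_div_le_one_div_of_le (by positivity) ?_
        rw [hq]
        push_cast
        nlinarith
      have h8 : (1 / 2 + 1 / ((4 * q : ℕ) : ℝ)) * 2 ^ n <
          (1 / 2 + 1 / D - T / (t * (((4 * q * n : ℕ) : ℝ) + 1))) * 2 ^ n := by
        refine mul_lt_mul_of_pos_right ?_ (by positivity)
        have h9 : (1 : ℝ) / D = 1 / (2 * D) + 1 / (2 * D) := by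
          field_simp
          norm_num
        linarith
      have h10 : (((univ : Finset (Fin n → Bool)).filter
          (fun u => Out P' u (4 * q * n) (f u))).card : ℝ) ≤ (1 / 2 + 1 / ((4 * q : ℕ) : ℝ)) * 2 ^ n := by
        rw [hf]
        exact h5
      exact absurd (hlow.trans h10) (not_le.2 h8)
    have hiff : ∀ (P : BP (CBits n m ⊕ Fin t × Fin n)) (Y : Fin t → Fin n → Bool),
        (∃ b : Bool, Out P (ParAux.inp c Y) T b ∧ (b = true ↔ OddVal n m t (ParAux.inp c Y))) →
        Out P (ParAux.inp c Y) T (ParAux.parb f Y) := by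
      rintro P Y ⟨b, hb1, hb2⟩
      rw [← hodd] at hb2
      have hb3 : b = ParAux.parb f Y := Bool.eq_iff_iff.2 hb2
      rw [hb3] at hb1
      exact hb1
    refine ⟨?_, ?_⟩
    · intro P hP
      refine lt_of_le_of_lt ?_ (main P hP)
      rw [Nat.card_eq_fintype_card]
      have h5 : Fintype.card {Y : Fin t × Fin n → Bool // ∃ b : Bool,
          Out P (Sum.elim c Y) T b ∧ (b = true ↔ OddVal n m t (Sum.elim c Y))} ≤
          Fintype.card {Y : Fin t → Fin n → Bool // Out P (ParAux.inp c Y) T (ParAux.parb f Y)} := by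
        refine Fintype.card_le_of_injective (fun Y => ⟨fun j i => Y.1 (j, i), hiff P _ Y.2⟩) ?_
        intro Y Y' hYY
        apply Subtype.ext
        funext p
        have h6 := congrArg Subtype.val hYY
        exact congrFun (congrFun h6 p.1) p.2
      rw [Fintype.card_subtype (fun Y : Fin t → Fin n → Bool =>
        Out P (ParAux.inp c Y) T (ParAux.parb f Y))] at h5
      exact_mod_cast h5
    · intro I _ P w hw hw1 hsz hcomp
      have h5 : ∀ Y : Fin t → Fin n → Bool, 1 / 2 + 1 / (D : ℝ) ≤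
          ∑ i, (if Out (P i) (ParAux.inp c Y) T (ParAux.parb f Y) then w i else 0) := by
        intro Y
        obtain ⟨S, hS, hpS⟩ := hcomp (ParAux.inp c Y)
        refine hpS.trans ?_
        calc ∑ i ∈ S, w i = ∑ i ∈ S, (if Out (P i) (ParAux.inp c Y) T (ParAux.parb f Y) then w i else 0) := by
              refine sum_congr rfl (fun i hi => ?_)
              rw [if_pos (hiff (P i) Y (hS i hi))]
          _ ≤ _ := by
              refine sum_le_univ_sum_of_nonneg (fun i => ?_)
              split_ifs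
              · exact hw i
              · exact le_rfl
      have h6 : ∑ _Y : Fin t → Fin n → Bool, (1 / 2 + 1 / (D : ℝ)) ≤
          ∑ Y : Fin t → Fin n → Bool, ∑ i,
            (if Out (P i) (ParAux.inp c Y) T (ParAux.parb f Y) then w i else 0) :=
        sum_le_sum (fun Y _ => h5 Y)
      rw [sum_const, nsmul_eq_mul, card_univ, Fintype.card_fun, Fintype.card_fun, Fintype.card_bool,
        Fintype.card_fin, Fintype.card_fin, ← pow_mul, Nat.mul_comm n t, sum_comm] at h6
      have h7 : ∀ i, ∑ Y : Fin t → Fin n → Bool,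
          (if Out (P i) (ParAux.inp c Y) T (ParAux.parb f Y) then w i else 0) =
          w i * (((univ : Finset (Fin t → Fin n → Bool)).filter
          (fun Y => Out (P i) (ParAux.inp c Y) T (ParAux.parb f Y))).card : ℝ) := by
        intro i
        rw [← sum_filter, sum_const, nsmul_eq_mul, mul_comm]
      simp only [h7] at h6
      have h8 : ∃ i, 0 < w i := by
        by_contra hno
        push Not at hno
        have : ∑ i, w i ≤ 0 := sum_nonpos (fun i _ => hno i)
        linarith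
      obtain ⟨i₀, hi₀⟩ := h8
      have h9 : ∑ i, w i * (((univ : Finset (Fin t → Fin n → Bool)).filter
          (fun Y => Out (P i) (ParAux.inp c Y) T (ParAux.parb f Y))).card : ℝ) <
          ∑ i, w i * ((1 / 2 + 1 / D) * 2 ^ (t * n)) := by
        refine sum_lt_sum (fun i _ => ?_) ⟨i₀, mem_univ _, ?_⟩
        · exact mul_le_mul_of_nonneg_left (main (P i) (hsz i)).le (hw i)
        · exact mul_lt_mul_of_pos_left (main (P i₀) (hsz i₀)) hi₀
      rw [← sum_mul, hw1, one_mul] at h9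
      push_cast at h6
      linarith

end RBP
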