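import Pool.Agent.Lib.MP_9dcf40_lc.RD.TopH
import Pool.Agent.Lib.MP_9dcf40_lc.RD.End

/-!
# Two-sided error (MP_9dcf40_lc): parts (I) and (II) of the final statement
-/

namespace RBP

open Finset SRBP

/-- Part (I): one circuit, difference form. -/
def PartI (A n m : ℕ) (c : CBits n m → Bool) : Prop :=
  ∀ k h : ℕ, 2 ≤ k → 2 ≤ h → ((h * k : ℕ) : ℝ) ^ (A * k) ≤ n → ∀ P : BP (Fin n),
    (Fintype.card P.V : ℝ) < Real.exp (n / ((h * k : ℕ) : ℝ) ^ (A * k)) → ∀ b : Bool,
    |(Nat.card {y : Fin n → Bool // Out P y (k * n) b ∧ Val n m c y} : ℝ) -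
        Nat.card {y : Fin n → Bool // Out P y (k * n) b ∧ ¬ Val n m c y}| ≤
      (Nat.card {y : Fin n → Bool // Out P y (k * n) b} : ℝ) / h +
        2 ^ n * Real.exp (-(n / ((h * k : ℕ) : ℝ) ^ (A * k)))

/-- Part (II), average form: the parity of the values of the circuit `c` on `t` random inputs. -/
def PartA (A n m : ℕ) (c : CBits n m → Bool) : Prop :=
  ∀ k D : ℕ, 2 ≤ k → 2 ≤ D → ((D * k : ℕ) : ℝ) ^ (A * (D * k)) ≤ n →
    ∀ t : ℕ, Fintype.card (CBits n m) ≤ t * n → ∀ P : BP (CBits n m ⊕ Fin t × Fin n),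
      (Fintype.card P.V : ℝ) < Real.exp (n / ((D * k : ℕ) : ℝ) ^ (A * (D * k))) →
      (Nat.card {Y : Fin t × Fin n → Bool // ∃ b : Bool,
        Out P (Sum.elim c Y) (k * Fintype.card (CBits n m ⊕ Fin t × Fin n)) b ∧
          (b = true ↔ OddVal n m t (Sum.elim c Y))} : ℝ) < (1 / 2 + 1 / D) * 2 ^ (t * n)

/-- Part (II), randomised form: for finitely many programs with probabilities `w i` some input is such that the
right output is given with probability less than `1 / 2 + 1 / D`. -/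
def PartR (A n m : ℕ) : Prop :=
  ∀ k D : ℕ, 2 ≤ k → 2 ≤ D → ((D * k : ℕ) : ℝ) ^ (A * (D * k)) ≤ n →
    ∀ t : ℕ, Fintype.card (CBits n m) ≤ t * n →
    ∀ (I : Type) [Fintype I] (P : I → BP (CBits n m ⊕ Fin t × Fin n)) (w : I → ℝ),
      (∀ i, 0 ≤ w i) → ∑ i, w i = 1 →
      (∀ i, (Fintype.card (P i).V : ℝ) < Real.exp (n / ((D * k : ℕ) : ℝ) ^ (A * (D * k)))) →
      ¬ Computes P w (OddVal n m t) (k * Fintype.card (CBits n m ⊕ Fin t × Fin n)) (1 / 2 + 1 / D)

/-- Part (II), randomised form with the uniform distribution. -/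
def PartU (A n m : ℕ) : Prop :=
  ∀ k D : ℕ, 2 ≤ k → 2 ≤ D → ((D * k : ℕ) : ℝ) ^ (A * (D * k)) ≤ n →
    ∀ t : ℕ, Fintype.card (CBits n m) ≤ t * n →
    ∀ (I : Type) [Fintype I] [Nonempty I] (P : I → BP (CBits n m ⊕ Fin t × Fin n)),
      (∀ i, (Fintype.card (P i).V : ℝ) < Real.exp (n / ((D * k : ℕ) : ℝ) ^ (A * (D * k)))) →
      ∃ z : CBits n m ⊕ Fin t × Fin n → Bool,
        (Nat.card {i : I // ∃ b : Bool,
          Out (P i) z (k * Fintype.card (CBits n m ⊕ Fin t × Fin n)) b ∧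
            (b = true ↔ OddVal n m t z)} : ℝ) < (1 / 2 + 1 / D) * Fintype.card I

theorem partI (h : S_TopH) : ∃ A N : ℕ, 1 ≤ A ∧ ∀ n ≥ N, ∀ (m : ℕ) (c₀ : Coef n → Bool)
    (c : CBits n m → Bool), Good n c₀ → (∀ y, Val n m c y ↔ quartic c₀ y = 1) → PartI A n m c := by
  classical
  obtain ⟨A, N, hA, h⟩ := h
  refine ⟨A, N, hA, ?_⟩
  intro n hn m c₀ c hg hval k h' hk hh hkn P hP b
  have h1 := h n hn c₀ hg k h' hk hh hkn P hP b
  have h2 : (ShB P (k * n) b).card = Nat.card {y : Fin n → Bool // Out P y (k * n) b} := by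
    rw [Nat.card_eq_fintype_card, Fintype.card_subtype]
    unfold ShB
    congr 1
  have h3 : ∑ y ∈ ShB P (k * n) b, sgq c₀ y =
      (Nat.card {y : Fin n → Bool // Out P y (k * n) b ∧ ¬ Val n m c y} : ℝ) -
        Nat.card {y : Fin n → Bool // Out P y (k * n) b ∧ Val n m c y} := by
    have h4 : ∀ y ∈ ShB P (k * n) b, sgq c₀ y =
        (if ¬ Val n m c y then 1 else 0) - (if Val n m c y then 1 else 0) := by
      intro y _
      unfold sgq
      by_cases hv : Val n m c y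
      · rw [if_pos ((hval y).1 hv), if_pos hv, if_neg (not_not.2 hv)]
        norm_num
      · rw [if_neg (fun h => hv ((hval y).2 h)), if_neg hv, if_pos hv]
        norm_num
    rw [sum_congr rfl h4, sum_sub_distrib, sum_boole, sum_boole]
    congr 2
    · rw [Nat.card_eq_fintype_card, Fintype.card_subtype]
      unfold ShB
      rw [filter_filter]
    · rw [Nat.card_eq_fintype_card, Fintype.card_subtype]
      unfold ShB
      rw [filter_filter]
  rw [h3, abs_sub_comm, h2] at h1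
  exact h1

open scoped Classical in
/-- The average version, for every good polynomial. -/
theorem avgH (h : S_TopH) : ∃ A N : ℕ, 1 ≤ A ∧ ∀ n ≥ N, ∀ c : Coef n → Bool, Good n c → ∀ k : ℕ, 2 ≤ k →
    (k : ℝ) ^ (A * k) ≤ n → ∀ P : BP (Fin n),
    (Fintype.card P.V : ℝ) < Real.exp (n / (k : ℝ) ^ (A * k)) →
    (((univ : Finset (Fin n → Bool)).filter
      (fun y => Out P y (k * n) (decide (quartic c y = 1)))).card : ℝ) ≤ (1 / 2 + 1 / k) * 2 ^ n := by
  obtain ⟨A, N, hA, h⟩ := h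
  refine ⟨2 * A + 2, max N 1, by omega, ?_⟩
  intro n hn c hg k hk hkn P hP
  have hn0 : (1 : ℝ) ≤ n := by exact_mod_cast le_trans (le_max_right _ _) hn
  have hk2 : (2 : ℝ) ≤ k := by exact_mod_cast hk
  have hk1 : (1 : ℝ) ≤ k := by linarith
  obtain ⟨M, hM⟩ : ∃ M : ℝ, M = ((k * k : ℕ) : ℝ) ^ (A * k) := ⟨_, rfl⟩
  have hM2 : M = (k : ℝ) ^ (2 * A * k) := by
    rw [hM]
    push_cast
    rw [← pow_two, ← pow_mul]
    congr 1
    ring
  have hpos : (0 : ℝ) < M := by
    rw [hM2]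
    positivity
  have e1 : (2 * A + 2) * k = 2 * A * k + 2 * k := by ring
  have e2 : (k : ℝ) ^ ((2 * A + 2) * k) = M * (k : ℝ) ^ (2 * k) := by
    rw [e1, pow_add, hM2]
  have hone : (1 : ℝ) ≤ (k : ℝ) ^ (2 * k) := one_le_pow₀ hk1
  have hle : M ≤ (k : ℝ) ^ ((2 * A + 2) * k) := by
    rw [e2]
    nlinarith
  have hq : (k : ℝ) ^ 4 ≤ (k : ℝ) ^ (2 * k) := pow_le_pow_right₀ hk1 (by omega)
  have hn1 : (k : ℝ) ^ 4 ≤ n / M := by
    rw [le_div_iff₀ hpos]
    refine le_trans ?_ hkn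
    rw [e2, mul_comm]
    exact mul_le_mul_of_nonneg_left hq hpos.le
  have hexp : Real.exp (-(n / M)) ≤ 1 / (2 * k) := by
    rw [Real.exp_neg, ← one_div]
    refine one_div_le_one_div_of_le (by positivity) ?_
    have h1 := Real.add_one_le_exp (n / M)
    have h2 : 2 * (k : ℝ) ≤ (k : ℝ) ^ 4 := by
      have : (2 : ℝ) * k ≤ k * k := by nlinarith
      have h3 : (k : ℝ) * k ≤ k ^ 4 := by
        have : (k : ℝ) ^ 2 ≤ k ^ 4 := pow_le_pow_right₀ hk1 (by norm_num)
        nlinarith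
      linarith
    linarith
  have hP' : (Fintype.card P.V : ℝ) < Real.exp (n / M) := by
    refine lt_of_lt_of_le hP (Real.exp_le_exp.2 ?_)
    exact div_le_div_of_nonneg_left (by linarith) hpos hle
  have h1 := h n (le_trans (le_max_left _ _) hn) c hg k k hk hk (by
    rw [← hM]
    exact hle.trans hkn) P (by
    rw [← hM]
    exact hP')
  rw [← hM] at h1
  have h2 := EndAux.adv c P (k * n) (1 / k) (2 ^ n * Real.exp (-(n / M))) (fun b => by
    have h3 := h1 b
    rw [div_eq_mul_one_div ((ShB P (k * n) b).card : ℝ)] at h3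
    exact h3) (by positivity)
  refine h2.trans ?_
  have h4 : (2 : ℝ) ^ n * Real.exp (-(n / M)) ≤ 2 ^ n * (1 / (2 * k)) :=
    mul_le_mul_of_nonneg_left hexp (by positivity)
  have h5 : (2 : ℝ) ^ n * ((1 + 1 / k) / 2) + 2 ^ n * (1 / (2 * k)) = (1 / 2 + 1 / k) * 2 ^ n := by
    field_simp
    ring
  linarith

/-- Part (II), both forms. -/
theorem partA (h : S_TopH) : ∃ A N : ℕ, 1 ≤ A ∧ ∀ n ≥ N, ∀ (m : ℕ) (c₀ : Coef n → Bool)
    (c : CBits n m → Bool), Good n c₀ → (∀ y, Val n m c y ↔ quartic c₀ y = 1) → PartA A n m c := by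
  classical
  obtain ⟨A, N, hA, h1⟩ := avgH h
  refine ⟨8 * A, max N 1, by omega, ?_⟩
  intro n hn m c₀ c hg hval k D hk hD hkn t ht P hP
  have hn1 : 1 ≤ n := le_trans (le_max_right _ _) hn
  have hn0 : (0 : ℝ) < n := by exact_mod_cast hn1
  have hc₀ := h1 n (le_trans (le_max_left _ _) hn) c₀ hg
  obtain ⟨f, hf⟩ : ∃ f : (Fin n → Bool) → Bool, f = fun y => decide (quartic c₀ y = 1) := ⟨_, rfl⟩
  have hfv : ∀ y, f y = true ↔ Val n m c y := by
    intro y
    rw [hf, hval]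
    simp
  obtain ⟨q, hq⟩ : ∃ q, q = D * k := ⟨_, rfl⟩
  rw [← hq] at hkn hP
  have hq4 : 4 ≤ q := by
    rw [hq]
    nlinarith
  have hq1 : (1 : ℝ) ≤ q := by
    have : (4 : ℝ) ≤ q := by exact_mod_cast hq4
    linarith
  have hnum := num4 A q hq4
  have e8 : 8 * A * q = 8 * A * q := rfl
  have hpos : (0 : ℝ) < ((4 * q : ℕ) : ℝ) ^ (A * (4 * q)) := by positivity
  have hn4 : ((4 * q : ℕ) : ℝ) ^ (A * (4 * q)) ≤ n := hnum.trans hkn
  have hD2 : (2 : ℝ) ≤ D := by exact_mod_cast hD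
  have hk2 : (2 : ℝ) ≤ k := by exact_mod_cast hk
  have ht1 : 1 ≤ t := by
    rcases Nat.eq_zero_or_pos t with h0 | h0
    · subst h0
      have h5 : 0 < Fintype.card (CBits n m) :=
        Fintype.card_pos_iff.2 ⟨Sum.inr ⟨0, by omega⟩⟩
      omega
    · exact h0
  have ht0 : (0 : ℝ) < t := by exact_mod_cast ht1
  have hcard : Fintype.card (CBits n m ⊕ Fin t × Fin n) ≤ 2 * (t * n) := by
    rw [Fintype.card_sum, Fintype.card_prod, Fintype.card_fin, Fintype.card_fin]
    omega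
  obtain ⟨T, hT⟩ : ∃ T, T = k * Fintype.card (CBits n m ⊕ Fin t × Fin n) := ⟨_, rfl⟩
  rw [← hT]
  have hTle : (T : ℝ) ≤ k * (2 * (t * n)) := by
    rw [hT]
    exact_mod_cast Nat.mul_le_mul_left k hcard
  have hodd : ∀ Y : Fin t → Fin n → Bool, ParAux.parb f Y = true ↔
      OddVal n m t (ParAux.inp c Y) := by
    intro Y
    unfold ParAux.parb OddVal
    rw [decide_eq_true_iff, Nat.card_eq_fintype_card, Fintype.card_subtype]
    have : univ.filter (fun j => f (Y j) = true) = univ.filter (fun j => Val n m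
        (fun a => ParAux.inp c Y (Sum.inl a)) (fun i => ParAux.inp c Y (Sum.inr (j, i)))) := by
      refine filter_congr (fun j _ => ?_)
      exact hfv (Y j)
    rw [this]
  have main : (((univ : Finset (Fin t → Fin n → Bool)).filter
        (fun Y => Out P (ParAux.inp c Y) T (ParAux.parb f Y))).card : ℝ) <
        (1 / 2 + 1 / D) * 2 ^ (t * n) := by
    by_contra hcon
    rw [not_lt] at hcon
    obtain ⟨P', hP', hlow⟩ := ParAux.dsum P c f T (4 * q * n) ht1 _ hcon
    have h5 := hc₀ (4 * q) (by omega) hn4 P' (by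
      rw [hP']
      exact lt_of_lt_of_le hP (Real.exp_le_exp.2 (div_le_div_of_nonneg_left hn0.le hpos hnum)))
    have h6 : (T : ℝ) / (t * (((4 * q * n : ℕ) : ℝ) + 1)) < 1 / (2 * D) := by
      rw [div_lt_div_iff₀ (by positivity) (by positivity), hq]
      push_cast
      have h7 : (T : ℝ) * (2 * D) ≤ (k * (2 * (t * n))) * (2 * D) :=
        mul_le_mul_of_nonneg_right hTle (by positivity)
      nlinarith
    have h7 : (1 : ℝ) / ((4 * q : ℕ) : ℝ) ≤ 1 / (2 * D) := by
      refine one_div_le_one_div_of_le (by positivity) ?_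
      rw [hq]
      push_cast
      nlinarith
    have h8 : (1 / 2 + 1 / ((4 * q : ℕ) : ℝ)) * 2 ^ n <
        (1 / 2 + 1 / D - T / (t * (((4 * q * n : ℕ) : ℝ) + 1))) * 2 ^ n := by
      refine mul_lt_mul_of_pos_right ?_ (by positivity)
      have h9 : (1 : ℝ) / D = 1 / (2 * D) + 1 / (2 * D) := by
        field_simp
        norm_num
      linarith
    have h10 : (((univ : Finset (Fin n → Bool)).filter
        (fun u => Out P' u (4 * q * n) (f u))).card : ℝ) ≤ (1 / 2 + 1 / ((4 * q : ℕ) : ℝ)) * 2 ^ n := by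
      rw [hf]
      exact h5
    exact absurd (hlow.trans h10) (not_le.2 h8)
  have hiff : ∀ (Y : Fin t → Fin n → Bool),
      (∃ b : Bool, Out P (ParAux.inp c Y) T b ∧ (b = true ↔ OddVal n m t (ParAux.inp c Y))) →
      Out P (ParAux.inp c Y) T (ParAux.parb f Y) := by
    rintro Y ⟨b, hb1, hb2⟩
    rw [← hodd] at hb2
    have hb3 : b = ParAux.parb f Y := Bool.eq_iff_iff.2 hb2
    rw [hb3] at hb1
    exact hb1
  refine lt_of_le_of_lt ?_ main
  rw [Nat.card_eq_fintype_card]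
  have h5 : Fintype.card {Y : Fin t × Fin n → Bool // ∃ b : Bool,
      Out P (Sum.elim c Y) T b ∧ (b = true ↔ OddVal n m t (Sum.elim c Y))} ≤
      Fintype.card {Y : Fin t → Fin n → Bool // Out P (ParAux.inp c Y) T (ParAux.parb f Y)} := by
    refine Fintype.card_le_of_injective (fun Y => ⟨fun j i => Y.1 (j, i), hiff _ Y.2⟩) ?_
    intro Y Y' hYY
    apply Subtype.ext
    funext p
    have h6 := congrArg Subtype.val hYY
    exact congrFun (congrFun h6 p.1) p.2
  rw [Fintype.card_subtype (fun Y : Fin t → Fin n → Bool =>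
    Out P (ParAux.inp c Y) T (ParAux.parb f Y))] at h5
  exact_mod_cast h5

/-- From the average form to the randomised form. -/
theorem partR_of (A n m : ℕ) (c : CBits n m → Bool) (h : PartA A n m c) : PartR A n m := by
  classical
  intro k D hk hD hkn t ht I _ P w hw hw1 hsz hcomp
  have hA := h k D hk hD hkn t ht
  obtain ⟨T, hT⟩ : ∃ T, T = k * Fintype.card (CBits n m ⊕ Fin t × Fin n) := ⟨_, rfl⟩
  rw [← hT] at hA hcomp
  let R : I → (Fin t × Fin n → Bool) → Prop := fun i Y => ∃ b : Bool,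
    Out (P i) (Sum.elim c Y) T b ∧ (b = true ↔ OddVal n m t (Sum.elim c Y))
  have h5 : ∀ Y : Fin t × Fin n → Bool, 1 / 2 + 1 / (D : ℝ) ≤ ∑ i, (if R i Y then w i else 0) := by
    intro Y
    obtain ⟨S, hS, hpS⟩ := hcomp (Sum.elim c Y)
    refine hpS.trans ?_
    calc ∑ i ∈ S, w i = ∑ i ∈ S, (if R i Y then w i else 0) := by
          refine sum_congr rfl (fun i hi => ?_)
          rw [if_pos (hS i hi)]
      _ ≤ _ := by
          refine sum_le_univ_sum_of_nonneg (fun i => ?_)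
          split_ifs
          · exact hw i
          · exact le_rfl
  have h6 : ∑ _Y : Fin t × Fin n → Bool, (1 / 2 + 1 / (D : ℝ)) ≤
      ∑ Y : Fin t × Fin n → Bool, ∑ i, (if R i Y then w i else 0) :=
    sum_le_sum (fun Y _ => h5 Y)
  rw [sum_const, nsmul_eq_mul, card_univ, Fintype.card_fun, Fintype.card_bool, Fintype.card_prod,
    Fintype.card_fin, Fintype.card_fin, sum_comm] at h6
  have h7 : ∀ i, ∑ Y : Fin t × Fin n → Bool, (if R i Y then w i else 0) =
      w i * (Nat.card {Y : Fin t × Fin n → Bool // R i Y} : ℝ) := by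
    intro i
    rw [← sum_filter, sum_const, nsmul_eq_mul, mul_comm, Nat.card_eq_fintype_card,
      Fintype.card_subtype]
  simp only [h7] at h6
  have h8 : ∃ i, 0 < w i := by
    by_contra hno
    push Not at hno
    have : ∑ i, w i ≤ 0 := sum_nonpos (fun i _ => hno i)
    linarith
  obtain ⟨i₀, hi₀⟩ := h8
  have h9 : ∑ i, w i * (Nat.card {Y : Fin t × Fin n → Bool // R i Y} : ℝ) <
      ∑ i, w i * ((1 / 2 + 1 / D) * 2 ^ (t * n)) := by
    refine sum_lt_sum (fun i _ => ?_) ⟨i₀, mem_univ _, ?_⟩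
    · exact mul_le_mul_of_nonneg_left (hA (P i) (hsz i)).le (hw i)
    · exact mul_lt_mul_of_pos_left (hA (P i₀) (hsz i₀)) hi₀
  rw [← sum_mul, hw1, one_mul] at h9
  push_cast at h6
  linarith

/-- The uniform distribution. -/
theorem partU_of (A n m : ℕ) (h : PartR A n m) : PartU A n m := by
  classical
  intro k D hk hD hkn t ht I _ _ P hsz
  by_contra hno
  push Not at hno
  have hI : (0 : ℝ) < Fintype.card I := by exact_mod_cast Fintype.card_pos
  refine h k D hk hD hkn t ht I P (fun _ => 1 / (Fintype.card I : ℝ)) (fun _ => by positivity) ?_ hsz ?_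
  · rw [sum_const, nsmul_eq_mul, card_univ]
    field_simp
  · intro z
    refine ⟨univ.filter (fun i => ∃ b : Bool,
      Out (P i) z (k * Fintype.card (CBits n m ⊕ Fin t × Fin n)) b ∧ (b = true ↔ OddVal n m t z)),
      fun i hi => (mem_filter.1 hi).2, ?_⟩
    have h1 := hno z
    rw [Nat.card_eq_fintype_card, Fintype.card_subtype] at h1
    rw [sum_const, nsmul_eq_mul, mul_one_div, le_div_iff₀ hI]
    exact h1

end RBP
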