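import Pool.Agent.Lib.MP_9dcf40_lc.RD.ParL
import Pool.Agent.Lib.MP_9dcf40_lc.RD.EndH

/-!
# Two-sided error (MP_9dcf40_lc): the parity part with advantage `1 / h`, from one bound for one block
-/

namespace RBP

open Finset SRBP

namespace ParL

open ResAux ParAux

variable {κ : Type} {t n : ℕ}

theorem sgn_parb (c₀ : Coef n → Bool) (Y : Fin t → Fin n → Bool) :
    sgn c₀ Y = if parb (fun y => decide (quartic c₀ y = 1)) Y = true then -1 else 1 := by
  unfold sgn parb
  have h1 : ∀ s : Finset (Fin t), ∏ j ∈ s, sgq c₀ (Y j) =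
      if Odd (s.filter (fun j => decide (quartic c₀ (Y j) = 1) = true)).card then -1 else 1 := by
    intro s
    induction s using Finset.induction_on with
    | empty => simp
    | insert j s hj ih =>
      rw [prod_insert hj, ih, filter_insert]
      unfold sgq
      by_cases hq : quartic c₀ (Y j) = 1
      · rw [if_pos hq, if_pos (decide_eq_true hq), card_insert_of_notMem (fun h => hj (mem_filter.1 h).1)]
        by_cases ho : Odd (s.filter (fun j => decide (quartic c₀ (Y j) = 1) = true)).card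
        · have h2 : ¬ Odd ((s.filter (fun j => decide (quartic c₀ (Y j) = 1) = true)).card + 1) := by
            rw [Nat.not_odd_iff_even]
            exact ho.add_one
          rw [if_pos ho, if_neg h2]
          norm_num
        · have h2 : Odd ((s.filter (fun j => decide (quartic c₀ (Y j) = 1) = true)).card + 1) := by
            rw [Nat.not_odd_iff_even] at ho
            exact ho.add_one
          rw [if_neg ho, if_pos h2]
          norm_num
      · have hd : ¬ (decide (quartic c₀ (Y j) = 1) = true) := fun h => hq (of_decide_eq_true h)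
        rw [if_neg hq, if_neg hd, one_mul]
  rw [h1 univ]
  simp only [decide_eq_true_iff]

open scoped Classical in
/-- The number of right answers, from the two sums. -/
theorem right_le (P : BP (κ ⊕ Fin t × Fin n)) (c : κ → Bool) (c₀ : Coef n → Bool) (T L : ℕ) (α β : ℝ)
    (h : ∀ b, |∑ Y ∈ XS P c T L b ∅, sgn c₀ Y| ≤ (XS P c T L b ∅).card * α + β) (hα : 0 ≤ α) :
    (((univ : Finset (Fin t → Fin n → Bool)).filter (fun Y =>
      Out P (inp c Y) T (parb (fun y => decide (quartic c₀ y = 1)) Y))).card : ℝ) ≤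
      2 ^ (t * n) * ((1 + α) / 2) + β := by
  obtain ⟨f, hf⟩ : ∃ f : (Fin n → Bool) → Bool, f = fun y => decide (quartic c₀ y = 1) := ⟨_, rfl⟩
  obtain ⟨R, hR⟩ : ∃ R : Bool → Finset (Fin t → Fin n → Bool),
      R = fun b => (XS P c T L b ∅).filter (fun Y => parb f Y = b) := ⟨_, rfl⟩
  have hmem : ∀ b Y, Y ∈ XS P c T L b ∅ ↔ Out P (inp c Y) T b := by
    intro b Y
    rw [mem_XS]
    exact ⟨fun h => h.1, fun h => ⟨h, fun i hi => absurd hi (notMem_empty i)⟩⟩
  rw [← hf]
  have h1 : (univ : Finset (Fin t → Fin n → Bool)).filter (fun Y => Out P (inp c Y) T (parb f Y)) ⊆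
      R true ∪ R false := by
    intro Y hY
    rw [mem_filter] at hY
    rw [hR, mem_union, mem_filter, mem_filter, hmem, hmem]
    rcases hd : parb f Y with _ | _
    · rw [hd] at hY
      exact Or.inr ⟨hY.2, rfl⟩
    · rw [hd] at hY
      exact Or.inl ⟨hY.2, rfl⟩
  have h2 : ((XS P c T L true ∅).card : ℝ) + (XS P c T L false ∅).card ≤ 2 ^ (t * n) := by
    have h3 : Disjoint (XS P c T L true ∅) (XS P c T L false ∅) := by
      rw [Finset.disjoint_left]
      intro Y hY hY'
      rw [hmem] at hY hY'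
      exact absurd (out_unique P _ hY hY') (by simp)
    have h4 : (XS P c T L true ∅).card + (XS P c T L false ∅).card ≤ 2 ^ (t * n) := by
      rw [← card_union_of_disjoint h3]
      refine (card_le_univ _).trans ?_
      rw [Fintype.card_fun, Fintype.card_fun, Fintype.card_bool, Fintype.card_fin, Fintype.card_fin,
        ← pow_mul, Nat.mul_comm]
    exact_mod_cast h4
  have h3 : ∀ b : Bool, ((R b).card : ℝ) ≤ ((XS P c T L b ∅).card * (1 + α) + β) / 2 := by
    intro b
    have h4 : ∑ Y ∈ XS P c T L b ∅, sgn c₀ Y =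
        (if b = true then (-1 : ℝ) else 1) * ((R b).card - ((XS P c T L b ∅).card - (R b).card)) := by
      have h5 : ∀ Y ∈ XS P c T L b ∅, sgn c₀ Y = (if b = true then (-1 : ℝ) else 1) *
          ((if parb f Y = b then 1 else 0) - (1 - (if parb f Y = b then 1 else 0))) := by
        intro Y _
        rw [sgn_parb, ← hf]
        rcases hp : parb f Y with _ | _ <;> rcases b with _ | _ <;> simp
      rw [sum_congr rfl h5, ← mul_sum, sum_sub_distrib, sum_sub_distrib, sum_const, nsmul_eq_mul, mul_one]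
      have h6 : ∑ Y ∈ XS P c T L b ∅, (if parb f Y = b then (1 : ℝ) else 0) = (R b).card := by
        rw [hR]
        simp only
        rw [card_filter]
        push_cast
        rfl
      rw [h6]
    have h7 := h b
    rw [h4, abs_mul] at h7
    have h8 : |(if b = true then (-1 : ℝ) else 1)| = 1 := by
      rcases b with _ | _ <;> simp
    rw [h8, one_mul] at h7
    have h9 := (abs_le.1 h7).2
    linarith
  have h10 : (((univ : Finset (Fin t → Fin n → Bool)).filter
      (fun Y => Out P (inp c Y) T (parb f Y))).card : ℝ) ≤ (R true).card + (R false).card := by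
    have h11 := (card_le_card h1).trans (card_union_le _ _)
    exact_mod_cast h11
  have h12 := h3 true
  have h13 := h3 false
  have h14 : ((XS P c T L true ∅).card + (XS P c T L false ∅).card : ℝ) * (1 + α) ≤
      2 ^ (t * n) * (1 + α) := mul_le_mul_of_nonneg_right h2 (by linarith)
  linarith

open scoped Classical in
/-- From one bound for one block (`E`, advantage `1 / h'`) to the parity with advantage `1 / h`. -/
theorem parity_adv (P : BP (κ ⊕ Fin t × Fin n)) (c : κ → Bool) (c₀ : Coef n → Bool) (T k h a h' : ℕ) (E : ℝ)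
    (hh : 1 ≤ h) (ht : 1 ≤ t) (hT : 2 * T ≤ t * (4 * k * n + 1)) (ha : 4 * h ≤ 2 ^ a) (hh' : h' = 8 * a * h)
    (hE : (8 * a * h : ℝ) ≤ Real.exp E)
    (hsize : (Fintype.card P.V : ℝ) * ((T + 2) * (4 * k * n + 2) ^ a) < Real.exp E)
    (hP : ∀ P' : BP (Fin n), (Fintype.card P'.V : ℝ) < Real.exp E → ∀ b,
      |∑ u ∈ ShB P' (4 * k * n) b, sgq c₀ u| ≤
        (ShB P' (4 * k * n) b).card / h' + 2 ^ n * Real.exp (-E)) :
    (((univ : Finset (Fin t → Fin n → Bool)).filter (fun Y =>
      Out P (inp c Y) T (parb (fun y => decide (quartic c₀ y = 1)) Y))).card : ℝ) <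
      (1 / 2 + 1 / h) * 2 ^ (t * n) := by
  have hh0 : (1 : ℝ) ≤ h := by exact_mod_cast hh
  have ha1 : 1 ≤ a := by
    rcases Nat.eq_zero_or_pos a with h0 | h0
    · rw [h0] at ha
      omega
    · exact h0
  have ha0 : (1 : ℝ) ≤ a := by exact_mod_cast ha1
  obtain ⟨δ, hδ⟩ : ∃ δ : ℝ, δ = 1 / h' + Real.exp (-E) := ⟨_, rfl⟩
  have hh'0 : (h' : ℝ) = 8 * a * h := by
    rw [hh']
    push_cast
    ring
  have hδ0 : 0 ≤ δ := by
    rw [hδ]
    positivity
  have h1 : ∀ b, |∑ Y ∈ XS P c T (4 * k * n) b ∅, sgn c₀ Y| ≤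
      (XS P c T (4 * k * n) b ∅).card * (1 / 2 ^ a) + a * (2 ^ (t * n) * δ) := by
    intro b
    have h2 := parsum P c c₀ T (4 * k * n) a b δ hδ0 ht hT (by
      intro P' hP'
      have h3 : (Fintype.card P'.V : ℝ) < Real.exp E := by
        refine lt_of_le_of_lt ?_ hsize
        exact_mod_cast hP'
      refine (hP P' h3 b).trans ?_
      have h4 : ((ShB P' (4 * k * n) b).card : ℝ) ≤ 2 ^ n := by
        have h5 : (ShB P' (4 * k * n) b).card ≤ 2 ^ n := by
          refine (card_le_univ _).trans ?_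
          rw [Fintype.card_fun, Fintype.card_bool, Fintype.card_fin]
        exact_mod_cast h5
      have h6 : ((ShB P' (4 * k * n) b).card : ℝ) / h' ≤ 2 ^ n / h' :=
        div_le_div_of_nonneg_right h4 (by positivity)
      rw [hδ, mul_add, mul_one_div]
      linarith)
    rw [div_eq_mul_one_div] at h2
    exact h2
  have h2 := right_le P c c₀ T (4 * k * n) (1 / 2 ^ a) (a * (2 ^ (t * n) * δ)) h1 (by positivity)
  refine lt_of_le_of_lt h2 ?_
  have h3 : (1 : ℝ) / 2 ^ a ≤ 1 / (4 * h) := by
    refine one_div_le_one_div_of_le (by positivity) ?_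
    exact_mod_cast ha
  have h4 : (a : ℝ) * δ ≤ 1 / (8 * h) + 1 / (8 * h) := by
    rw [hδ, mul_add]
    refine add_le_add ?_ ?_
    · rw [hh'0]
      refine le_of_eq ?_
      field_simp
    · rw [Real.exp_neg, ← div_eq_mul_inv, div_le_div_iff₀ (Real.exp_pos _) (by positivity)]
      linarith
  have hpow : (0 : ℝ) < 2 ^ (t * n) := by positivity
  have h5 : (2 : ℝ) ^ (t * n) * ((1 + 1 / 2 ^ a) / 2) + a * (2 ^ (t * n) * δ) =
      2 ^ (t * n) * (1 / 2 + (1 / 2 ^ a) / 2 + a * δ) := by ring
  rw [h5, mul_comm]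
  refine mul_lt_mul_of_pos_right ?_ hpow
  have h6 : (1 : ℝ) / (4 * h) / 2 + (1 / (8 * h) + 1 / (8 * h)) < 1 / h := by
    have h7 : (1 : ℝ) / (4 * h) / 2 + (1 / (8 * h) + 1 / (8 * h)) = (3 / 8) * (1 / h) := by
      field_simp
      norm_num
    rw [h7]
    have : (0 : ℝ) < 1 / h := by positivity
    linarith
  have h7 : (1 : ℝ) / 2 ^ a / 2 ≤ 1 / (4 * h) / 2 := by linarith
  linarith

end ParL

end RBP
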