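import Pool.Agent.Lib.MP_9dcf40_lc.RD.End
import Pool.Agent.Lib.MP_9dcf40_lc.SR.Gat
import Pool.Agent.Lib.MP_9dcf40_lc.SR.Mon
import Pool.Agent.Lib.MP_9dcf40_lc.SR.Xor

/-!
# Theorem DTR (MP_9dcf40_lc): the final statement from `S_TopB`
-/

namespace RBP

open SRBP

theorem endB (h : S_TopB) : S_End := tEnd (tAvgQ h) tGat (tMon tGat (tXor tGat))

end RBP
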