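import Pool.Agent.Lib.MP_9dcf40_lc.RD.Res

/-!
# Two-sided error (MP_9dcf40_lc): programs with counters, and constants (exact form)
-/

namespace RBP

open Finset

namespace ResAux

variable {κ ι : Type}

/-- The restricted program; a computation which never stops gives the output `!b₀`. -/
noncomputable def res2 (P : BP κ) (σ : κ → Bool ⊕ ι) (b₀ : Bool) : BP ι where
  V := P.V
  fin := P.fin
  start := P.start
  node := fun v => match P.node (skip P σ v) with
    | Sum.inl b => Sum.inl b
    | Sum.inr q => match σ q.1 with
      | Sum.inl _ => Sum.inl (!b₀)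
      | Sum.inr i => Sum.inr (i, q.2)

theorem not_stop {P : BP κ} {σ : κ → Bool ⊕ ι} {v : P.V} (h : ¬ Stop P σ v) :
    ∃ q c, P.node v = Sum.inr q ∧ σ q.1 = Sum.inl c := by
  unfold Stop at h
  rcases hq : P.node v with b | q
  · rw [hq] at h
    exact absurd trivial h
  · rw [hq] at h
    simp only at h
    rcases hs : σ q.1 with c | i
    · exact ⟨q, c, rfl, hs⟩
    · rw [hs] at h
      exact absurd trivial h

theorem run_free (P : BP κ) (σ : κ → Bool ⊕ ι) (y : ι → Bool) (T : ℕ) (v : P.V)
    (hv : P.run (fun a => Sum.elim id y (σ a)) T = v) (m : ℕ)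
    (h : ∀ m' < m, ¬ Stop P σ ((fstep P σ)^[m'] v)) :
    P.run (fun a => Sum.elim id y (σ a)) (T + m) = (fstep P σ)^[m] v ∧
      cnt P σ (fun a => Sum.elim id y (σ a)) (T + m) = cnt P σ (fun a => Sum.elim id y (σ a)) T := by
  induction m with
  | zero => exact ⟨hv, rfl⟩
  | succ m ih =>
    obtain ⟨h1, h2⟩ := ih (fun m' hm' => h m' (by omega))
    obtain ⟨q, c, hq, hs⟩ := not_stop (h m (by omega))
    obtain ⟨x, hx⟩ : ∃ x : κ → Bool, x = fun a => Sum.elim id y (σ a) := ⟨_, rfl⟩
    rw [← hx] at h1 h2 ⊢
    have h3 : x q.1 = c := by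
      rw [hx]
      simp only
      rw [hs]
      rfl
    constructor
    · show P.next x (P.run x (T + m)) = _
      rw [h1, Function.iterate_succ_apply']
      obtain ⟨w, hw⟩ : ∃ w, w = (fstep P σ)^[m] v := ⟨_, rfl⟩
      rw [← hw] at hq ⊢
      unfold BP.next fstep
      rw [hq]
      simp only
      rw [hs, h3]
    · rw [show T + (m + 1) = (T + m) + 1 from rfl, cnt_succ, h1, h2]
      have h4 : tests P σ ((fstep P σ)^[m] v) = false := by
        unfold tests
        rw [hq]
        simp only
        rw [hs]
      rw [h4, if_neg (by simp), Nat.add_zero]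

theorem run_res2 (P : BP κ) (σ : κ → Bool ⊕ ι) (b₀ : Bool) (y : ι → Bool) (s : ℕ) :
    (∃ T, cnt P σ (fun a => Sum.elim id y (σ a)) T = s ∧
        P.run (fun a => Sum.elim id y (σ a)) T = (res2 P σ b₀).run y s) ∨
    (∃ T b, Out P (fun a => Sum.elim id y (σ a)) T b ∧ cnt P σ (fun a => Sum.elim id y (σ a)) T ≤ s ∧
        (res2 P σ b₀).node ((res2 P σ b₀).run y s) = Sum.inl b) ∨
    (res2 P σ b₀).node ((res2 P σ b₀).run y s) = Sum.inl (!b₀) := by
  induction s with
  | zero => exact Or.inl ⟨0, rfl, rfl⟩
  | succ s ih =>
    obtain ⟨x, hx⟩ : ∃ x : κ → Bool, x = fun a => Sum.elim id y (σ a) := ⟨_, rfl⟩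
    rw [← hx] at ih ⊢
    obtain ⟨v, hv⟩ : ∃ v, v = (res2 P σ b₀).run y s := ⟨_, rfl⟩
    rw [← hv] at ih
    have hnext : (res2 P σ b₀).run y (s + 1) = (res2 P σ b₀).next y v := by
      rw [hv]
      rfl
    have hstay : ∀ b, (res2 P σ b₀).node v = Sum.inl b → (res2 P σ b₀).run y (s + 1) = v := by
      intro b hb
      rw [hnext]
      unfold BP.next
      rw [hb]
    have hnode : (res2 P σ b₀).node v = (match P.node (skip P σ v) with
            | Sum.inl b => Sum.inl b
            | Sum.inr q => match σ q.1 with
              | Sum.inl _ => Sum.inl (!b₀)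
              | Sum.inr i => Sum.inr (i, q.2)) := rfl
    rcases ih with ⟨T, hT, hrun⟩ | ⟨T, b, hT, hcnt, hb⟩ | hb
    · by_cases hst : ∃ m, Stop P σ ((fstep P σ)^[m] v)
      · classical
        obtain ⟨m, hm, hmin⟩ : ∃ m, Stop P σ ((fstep P σ)^[m] v) ∧
            ∀ m' < m, ¬ Stop P σ ((fstep P σ)^[m'] v) :=
          ⟨Nat.find hst, Nat.find_spec hst, fun m' hm' => Nat.find_min hst hm'⟩
        have hrun' : P.run (fun a => Sum.elim id y (σ a)) T = v := by
          rw [← hx]
          exact hrun
        obtain ⟨h1, h2⟩ := run_free P σ y T v hrun' m hmin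
        rw [← hx] at h1 h2
        have hsk := skip_eq hm
        rcases hq : P.node ((fstep P σ)^[m] v) with b | q
        · have h3 : (res2 P σ b₀).node v = Sum.inl b := by
            rw [hnode, hsk, hq]
          refine Or.inr (Or.inl ⟨T + m, b, ?_, ?_, ?_⟩)
          · unfold Out
            rw [h1, hq]
          · rw [h2, hT]
            omega
          · rw [hstay b h3, h3]
        · rcases hs : σ q.1 with c | i
          · exfalso
            unfold Stop at hm
            rw [hq] at hm
            simp only at hm
            rw [hs] at hm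
            exact hm
          · have h3 : (res2 P σ b₀).node v = Sum.inr (i, q.2) := by
              rw [hnode, hsk, hq]
              simp only
              rw [hs]
              rfl
            have h4 : x q.1 = y i := by
              rw [hx]
              simp only
              rw [hs]
              rfl
            refine Or.inl ⟨T + m + 1, ?_, ?_⟩
            · rw [cnt_succ, h1, h2, hT]
              have h5 : tests P σ ((fstep P σ)^[m] v) = true := by
                unfold tests
                rw [hq]
                simp only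
                rw [hs]
              rw [h5, if_pos rfl]
            · show P.next x (P.run x (T + m)) = _
              rw [h1, hnext]
              unfold BP.next
              rw [hq, h3]
              simp only
              rw [h4]
      · obtain ⟨q, c, hq, hs⟩ := not_stop (fun h => hst ⟨0, h⟩)
        have h3 : (res2 P σ b₀).node v = Sum.inl (!b₀) := by
          rw [hnode]
          unfold skip
          rw [dif_neg hst]
          have hq' : P.node v = Sum.inr q := hq
          rw [hq']
          simp only
          rw [hs]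
        refine Or.inr (Or.inr ?_)
        rw [hstay _ h3, h3]
    · refine Or.inr (Or.inl ⟨T, b, hT, by omega, ?_⟩)
      rw [hstay b hb, hb]
    · refine Or.inr (Or.inr ?_)
      rw [hstay _ hb, hb]

theorem run_res' (P : BP κ) (σ : κ → Bool ⊕ ι) (b₀ : Bool) (y : ι → Bool) (T : ℕ) :
    ∃ m, P.run (fun a => Sum.elim id y (σ a)) T =
      (fstep P σ)^[m] ((res2 P σ b₀).run y (cnt P σ (fun a => Sum.elim id y (σ a)) T)) := by
  induction T with
  | zero => exact ⟨0, rfl⟩
  | succ T ih =>
    obtain ⟨m, hm⟩ := ih
    obtain ⟨x, hx⟩ : ∃ x : κ → Bool, x = fun a => Sum.elim id y (σ a) := ⟨_, rfl⟩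
    rw [← hx] at hm ⊢
    obtain ⟨u, hu⟩ : ∃ u, u = P.run x T := ⟨_, rfl⟩
    obtain ⟨v, hv⟩ : ∃ v, v = (res2 P σ b₀).run y (cnt P σ x T) := ⟨_, rfl⟩
    rw [← hu, ← hv] at hm
    rw [cnt_succ, ← hu]
    have hnext : P.run x (T + 1) = P.next x u := by
      rw [hu]
      rfl
    rw [hnext]
    rcases hq : P.node u with c | q
    · have h1 : tests P σ u = false := by
        unfold tests
        rw [hq]
      have h2 : P.next x u = u := by
        unfold BP.next
        rw [hq]
      rw [h1, h2, if_neg (by simp), Nat.add_zero, ← hv]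
      exact ⟨m, hm⟩
    · have h2 : P.next x u = q.2 (x q.1) := by
        unfold BP.next
        rw [hq]
      rcases hs : σ q.1 with c | i
      · have h1 : tests P σ u = false := by
          unfold tests
          rw [hq]
          simp only
          rw [hs]
        have h3 : x q.1 = c := by
          rw [hx]
          simp only
          rw [hs]
          rfl
        rw [h1, h2, if_neg (by simp), Nat.add_zero, ← hv, h3]
        refine ⟨m + 1, ?_⟩
        rw [Function.iterate_succ_apply', ← hm]
        unfold fstep
        rw [hq]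
        simp only
        rw [hs]
      · have h1 : tests P σ u = true := by
          unfold tests
          rw [hq]
          simp only
          rw [hs]
        have h3 : x q.1 = y i := by
          rw [hx]
          simp only
          rw [hs]
          rfl
        rw [h1, h2, if_pos rfl, h3]
        refine ⟨0, ?_⟩
        have h4 : Stop P σ u := by
          unfold Stop
          rw [hq]
          simp only
          rw [hs]
          trivial
        have h5 : skip P σ v = u := by
          rw [hm] at h4
          rw [skip_eq h4, ← hm]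
        have h6 : (res2 P σ b₀).node v = Sum.inr (i, q.2) := by
          show (match P.node (skip P σ v) with
            | Sum.inl b => Sum.inl b
            | Sum.inr q => match σ q.1 with
              | Sum.inl _ => Sum.inl (!b₀)
              | Sum.inr i => Sum.inr (i, q.2)) = _
          rw [h5, hq]
          simp only
          rw [hs]
        show q.2 (y i) = (res2 P σ b₀).next y ((res2 P σ b₀).run y (cnt P σ x T))
        rw [← hv]
        unfold BP.next
        rw [h6]

theorem node_res2 (P : BP κ) (σ : κ → Bool ⊕ ι) (b₀ : Bool) (y : ι → Bool) (T : ℕ)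
    (v : P.V) (hv : P.run (fun a => Sum.elim id y (σ a)) T = v)
    (h : (res2 P σ b₀).node v = Sum.inl b₀) :
    ∃ T', Out P (fun a => Sum.elim id y (σ a)) T' b₀ ∧
      cnt P σ (fun a => Sum.elim id y (σ a)) T' = cnt P σ (fun a => Sum.elim id y (σ a)) T := by
  have hnode : (res2 P σ b₀).node v = (match P.node (skip P σ v) with
            | Sum.inl b => Sum.inl b
            | Sum.inr q => match σ q.1 with
              | Sum.inl _ => Sum.inl (!b₀)
              | Sum.inr i => Sum.inr (i, q.2)) := rfl
  by_cases hst : ∃ m, Stop P σ ((fstep P σ)^[m] v)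
  · classical
    obtain ⟨m, hm, hmin⟩ : ∃ m, Stop P σ ((fstep P σ)^[m] v) ∧
        ∀ m' < m, ¬ Stop P σ ((fstep P σ)^[m'] v) :=
      ⟨Nat.find hst, Nat.find_spec hst, fun m' hm' => Nat.find_min hst hm'⟩
    obtain ⟨h1, h2⟩ := run_free P σ y T v hv m hmin
    have hsk := skip_eq hm
    refine ⟨T + m, ?_, h2⟩
    unfold Out
    rw [h1]
    rw [hnode, hsk] at h
    rcases hq : P.node ((fstep P σ)^[m] v) with b | q
    · rw [hq] at h
      have h' : (Sum.inl b : Bool ⊕ (ι × (Bool → P.V))) = Sum.inl b₀ := h
      rw [Sum.inl.inj h']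
    · rw [hq] at h
      simp only at h
      rcases hs : σ q.1 with c | i
      · rw [hs] at h
        simp only at h
        have := Sum.inl.inj h
        simp at this
      · rw [hs] at h
        simp at h
  · exfalso
    obtain ⟨q, c, hq, hs⟩ := not_stop (fun h => hst ⟨0, h⟩)
    have hq' : P.node v = Sum.inr q := hq
    rw [hnode] at h
    unfold skip at h
    rw [dif_neg hst, hq'] at h
    simp only at h
    rw [hs] at h
    simp only at h
    have := Sum.inl.inj h
    simp at this

/-- Constants in programs, exact form for the output `b₀`. -/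
theorem out_res2 (P : BP κ) (σ : κ → Bool ⊕ ι) (b₀ : Bool) (y : ι → Bool) (s : ℕ) :
    Out (res2 P σ b₀) y s b₀ ↔ ∃ T, Out P (fun a => Sum.elim id y (σ a)) T b₀ ∧
      cnt P σ (fun a => Sum.elim id y (σ a)) T ≤ s := by
  constructor
  · intro h
    unfold Out at h
    rcases run_res2 P σ b₀ y s with ⟨T, hT, hrun⟩ | ⟨T, b, hT, hcnt, hb⟩ | hb
    · rw [← hrun] at h
      obtain ⟨T', h1, h2⟩ := node_res2 P σ b₀ y T _ rfl h
      exact ⟨T', h1, by rw [h2, hT]⟩
    · rw [hb] at h
      rw [Sum.inl.inj h] at hT
      exact ⟨T, hT, hcnt⟩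
    · rw [hb] at h
      have := Sum.inl.inj h
      simp at this
  · rintro ⟨T, hT, hcnt⟩
    obtain ⟨m, hm⟩ := run_res' P σ b₀ y T
    have hT' := hT
    unfold Out at hT
    rw [hm] at hT
    have h1 : Stop P σ ((fstep P σ)^[m] ((res2 P σ b₀).run y
        (cnt P σ (fun a => Sum.elim id y (σ a)) T))) := by
      unfold Stop
      rw [hT]
      trivial
    refine out_mono _ _ ?_ hcnt
    unfold Out
    show (match P.node (skip P σ _) with
            | Sum.inl b => Sum.inl b
            | Sum.inr q => match σ q.1 with
              | Sum.inl _ => Sum.inl (!b₀)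
              | Sum.inr i => Sum.inr (i, q.2)) = _
    rw [skip_eq h1, hT]
    rfl

/-! ## Counters -/

/-- A program with a memory. -/
def aug (P : BP ι) (A : Type) [Fintype A] (α₀ : A) (upd : A → ι → A) (acc : A → Bool) (b₀ : Bool) : BP ι where
  V := P.V × A
  fin := inferInstance
  start := (P.start, α₀)
  node := fun v => match P.node v.1 with
    | Sum.inl b => Sum.inl (if acc v.2 = true then b else !b₀)
    | Sum.inr q => Sum.inr (q.1, fun c => (q.2 c, upd v.2 q.1))

/-- The memory. -/
def mem (P : BP ι) {A : Type} (α₀ : A) (upd : A → ι → A) (x : ι → Bool) : ℕ → A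
  | 0 => α₀
  | t + 1 => match P.node (P.run x t) with
    | Sum.inl _ => mem P α₀ upd x t
    | Sum.inr q => upd (mem P α₀ upd x t) q.1

theorem run_aug (P : BP ι) (A : Type) [Fintype A] (α₀ : A) (upd : A → ι → A) (acc : A → Bool) (b₀ : Bool)
    (x : ι → Bool) (t : ℕ) :
    (aug P A α₀ upd acc b₀).run x t = (P.run x t, mem P α₀ upd x t) := by
  induction t with
  | zero => rfl
  | succ t ih =>
    show (aug P A α₀ upd acc b₀).next x ((aug P A α₀ upd acc b₀).run x t) =
      (P.next x (P.run x t), mem P α₀ upd x (t + 1))
    rw [ih]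
    have h1 : (aug P A α₀ upd acc b₀).node (P.run x t, mem P α₀ upd x t) = (match P.node (P.run x t) with
        | Sum.inl b => Sum.inl (if acc (mem P α₀ upd x t) = true then b else !b₀)
        | Sum.inr q => Sum.inr (q.1, fun c => (q.2 c, upd (mem P α₀ upd x t) q.1))) := rfl
    unfold BP.next
    rw [h1, mem]
    rcases P.node (P.run x t) with b | q
    · rfl
    · rfl

theorem out_aug (P : BP ι) (A : Type) [Fintype A] (α₀ : A) (upd : A → ι → A) (acc : A → Bool) (b₀ : Bool)
    (x : ι → Bool) (t : ℕ) :
    Out (aug P A α₀ upd acc b₀) x t b₀ ↔ Out P x t b₀ ∧ acc (mem P α₀ upd x t) = true := by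
  unfold Out
  rw [run_aug]
  show (match P.node (P.run x t) with
        | Sum.inl b => Sum.inl (if acc (mem P α₀ upd x t) = true then b else !b₀)
        | Sum.inr q => Sum.inr (q.1, fun c => (q.2 c, upd (mem P α₀ upd x t) q.1))) = _ ↔ _
  rcases P.node (P.run x t) with b | q
  · simp only
    by_cases h : acc (mem P α₀ upd x t) = true
    · rw [if_pos h]
      exact ⟨fun h1 => ⟨congrArg Sum.inl (Sum.inl.inj h1), h⟩, fun h1 => congrArg Sum.inl (Sum.inl.inj h1.1)⟩
    · rw [if_neg h]
      constructor
      · intro h1
        have h2 := Sum.inl.inj h1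
        exact absurd h2 (by cases b₀ <;> simp)
      · intro h1
        exact absurd h1.2 h
  · simp only
    constructor
    · intro h1
      exact absurd h1 (by simp)
    · intro h1
      exact absurd h1.1 (by simp)

/-- The number of tests of variables with the property `p` in the first `t` steps. -/
def tly (P : BP ι) (p : ι → Bool) (x : ι → Bool) : ℕ → ℕ
  | 0 => 0
  | t + 1 => tly P p x t + (match P.node (P.run x t) with
    | Sum.inl _ => 0
    | Sum.inr q => if p q.1 = true then 1 else 0)

/-- The counters. -/
def cup {I : Type} (M : I → ℕ) (p : I → ι → Bool) (α : ∀ i, Fin (M i + 2)) (a : ι) :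
    ∀ i, Fin (M i + 2) := fun i =>
  if p i a = true then ⟨min ((α i : ℕ) + 1) (M i + 1), by omega⟩ else α i

theorem mem_cup (P : BP ι) {I : Type} (M : I → ℕ) (p : I → ι → Bool) (x : ι → Bool) (t : ℕ) (i : I) :
    ((mem P (fun i => (⟨0, by omega⟩ : Fin (M i + 2))) (cup M p) x t i : Fin (M i + 2)) : ℕ) =
      min (tly P (p i) x t) (M i + 1) := by
  induction t with
  | zero =>
    show 0 = min 0 (M i + 1)
    simp
  | succ t ih =>
    obtain ⟨α, hα⟩ : ∃ α, α = mem P (fun i => (⟨0, by omega⟩ : Fin (M i + 2))) (cup M p) x t := ⟨_, rfl⟩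
    rw [mem, tly]
    rw [← hα] at ih ⊢
    rcases P.node (P.run x t) with b | q
    · simp only [Nat.add_zero]
      exact ih
    · simp only
      have h1 : ((cup M p α q.1 i : Fin (M i + 2)) : ℕ) =
          if p i q.1 = true then min ((α i : ℕ) + 1) (M i + 1) else (α i : ℕ) := by
        unfold cup
        by_cases h : p i q.1 = true
        · rw [if_pos h, if_pos h]
        · rw [if_neg h, if_neg h]
      rw [h1]
      by_cases h : p i q.1 = true
      · rw [if_pos h, if_pos h, ih]
        omega
      · rw [if_neg h, if_neg h, ih]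
        omega

/-- The tests do not change. -/
theorem cnt_aug (P : BP κ) (A : Type) [Fintype A] (α₀ : A) (upd : A → κ → A) (acc : A → Bool) (b₀ : Bool)
    (σ : κ → Bool ⊕ ι) (x : κ → Bool) (T : ℕ) :
    cnt (aug P A α₀ upd acc b₀) σ x T = cnt P σ x T := by
  unfold cnt
  congr 1
  refine filter_congr (fun i _ => ?_)
  rw [run_aug]
  have h : tests (aug P A α₀ upd acc b₀) σ (P.run x i, mem P α₀ upd x i) = tests P σ (P.run x i) := by
    have h1 : (aug P A α₀ upd acc b₀).node (P.run x i, mem P α₀ upd x i) = (match P.node (P.run x i) with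
        | Sum.inl b => Sum.inl (if acc (mem P α₀ upd x i) = true then b else !b₀)
        | Sum.inr q => Sum.inr (q.1, fun c => (q.2 c, upd (mem P α₀ upd x i) q.1))) := rfl
    unfold tests
    rw [h1]
    rcases P.node (P.run x i) with b | q
    · rfl
    · rfl
  rw [h]

end ResAux

end RBP
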