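import Pool.Agent.Lib.MP_9dcf40_lc.RD.Aug
import Pool.Agent.Lib.MP_9dcf40_lc.RD.Par
import Pool.Agent.Lib.MP_9dcf40_lc.RD.Prog2

/-!
# Two-sided error (MP_9dcf40_lc): the parity of many blocks, small advantage
-/

namespace RBP

open Finset SRBP

namespace ParL

open ResAux ParAux

variable {κ ι : Type} {t n : ℕ}

/-! ## The number of tests -/

theorem tly_stay (P : BP ι) (p : ι → Bool) (x : ι → Bool) {T : ℕ} {b : Bool} (h : Out P x T b) (d : ℕ) :
    tly P p x (T + d) = tly P p x T := by
  induction d with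
  | zero => rfl
  | succ d ih =>
    rw [show T + (d + 1) = (T + d) + 1 from rfl, tly, run_stay P x h d]
    unfold Out at h
    rw [h, ih]
    rfl

theorem tly_eq (P : BP ι) (p : ι → Bool) (x : ι → Bool) {T T' : ℕ} {b b' : Bool} (h : Out P x T b)
    (h' : Out P x T' b') : tly P p x T = tly P p x T' := by
  rcases le_total T T' with hT | hT
  · obtain ⟨d, rfl⟩ := Nat.exists_eq_add_of_le hT
    exact (tly_stay P p x h d).symm
  · obtain ⟨d, rfl⟩ := Nat.exists_eq_add_of_le hT
    exact tly_stay P p x h' d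

theorem tly_le (P : BP ι) (p : ι → Bool) (x : ι → Bool) (T : ℕ) : tly P p x T ≤ T := by
  induction T with
  | zero => exact le_rfl
  | succ T ih =>
    rw [tly]
    rcases P.node (P.run x T) with b | q
    · simp only
      omega
    · simp only
      split_ifs <;> omega

theorem tly_true (P : BP ι) (x : ι → Bool) (T : ℕ) (q : ι × (Bool → P.V))
    (h : P.node (P.run x T) = Sum.inr q) : tly P (fun _ => true) x T = T := by
  induction T generalizing q with
  | zero => rfl
  | succ T ih =>
    rcases hq : P.node (P.run x T) with b | q'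
    · exfalso
      have h1 : P.run x (T + 1) = P.run x T := by
        show P.next x (P.run x T) = _
        unfold BP.next
        rw [hq]
      rw [h1, hq] at h
      exact absurd h (by simp)
    · rw [tly, ih q' hq, hq]
      simp

theorem run_tly (P : BP ι) (x : ι → Bool) (T : ℕ) : P.run x (tly P (fun _ => true) x T) = P.run x T := by
  induction T with
  | zero => rfl
  | succ T ih =>
    rcases hq : P.node (P.run x T) with b | q
    · have h1 : P.run x (T + 1) = P.run x T := by
        show P.next x (P.run x T) = _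
        unfold BP.next
        rw [hq]
      rw [h1, tly, hq]
      exact ih
    · have h1 : tly P (fun _ => true) x (T + 1) = T + 1 := by
        rw [tly, tly_true P x T q hq, hq]
        simp
      rw [h1]

theorem out_of_tly (P : BP ι) (x : ι → Bool) {T T' : ℕ} {b : Bool} (h : Out P x T' b)
    (hT : tly P (fun _ => true) x T' ≤ T) : Out P x T b := by
  refine out_mono P x (t := tly P (fun _ => true) x T') ?_ hT
  unfold Out at h ⊢
  rw [run_tly]
  exact h

/-- The variables of the block `j`. -/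
def blk (j : Fin t) : κ ⊕ Fin t × Fin n → Bool := fun a => match a with
  | Sum.inl _ => false
  | Sum.inr p => decide (p.1 = j)

theorem cnt_blk (P : BP (κ ⊕ Fin t × Fin n)) (c : κ → Bool) (Y : Fin t → Fin n → Bool) (j : Fin t)
    (x : κ ⊕ Fin t × Fin n → Bool) (T : ℕ) : cnt P (sig c Y j) x T = tly P (blk j) x T := by
  induction T with
  | zero => simp [cnt, tly]
  | succ T ih =>
    rw [cnt_succ, tly, ih]
    congr 1
    unfold tests
    rcases P.node (P.run x T) with b | q
    · simp
    · obtain ⟨v, g⟩ := q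
      simp only
      unfold sig blk
      rcases v with a | p
      · simp
      · simp only
        by_cases h : p.1 = j
        · simp [h]
        · simp [h]

/-- One block: the program with a clock and counters, restricted. -/
theorem blockp (P : BP (κ ⊕ Fin t × Fin n)) (c : κ → Bool) (Y : Fin t → Fin n → Bool) (j : Fin t)
    (S : Finset (Fin t)) (T L : ℕ) (b₀ : Bool) :
    ∃ P' : BP (Fin n), Fintype.card P'.V = Fintype.card P.V * ((T + 2) * (L + 2) ^ S.card) ∧
      ∀ u, Out P' u L b₀ ↔ (Out P (inp c (Function.update Y j u)) T b₀ ∧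
        (∀ i ∈ S, L < tly P (blk i) (inp c (Function.update Y j u)) T) ∧
        ¬ L < tly P (blk j) (inp c (Function.update Y j u)) T) := by
  classical
  let M : Option S → ℕ := fun o => match o with
    | none => T
    | some _ => L
  let p : Option S → κ ⊕ Fin t × Fin n → Bool := fun o => match o with
    | none => fun _ => true
    | some i => blk (i : Fin t)
  let A : Type := ∀ i : Option S, Fin (M i + 2)
  let acc : A → Bool := fun α => decide (((α none : Fin (M none + 2)) : ℕ) ≤ T ∧
    ∀ i : S, ((α (some i) : Fin (M (some i) + 2)) : ℕ) = L + 1)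
  let P1 : BP (κ ⊕ Fin t × Fin n) :=
    aug P A (fun i => (⟨0, by omega⟩ : Fin (M i + 2))) (cup M p) acc b₀
  refine ⟨res2 P1 (sig c Y j) b₀, ?_, ?_⟩
  · show Fintype.card (P.V × A) = _
    rw [Fintype.card_prod]
    congr 1
    show Fintype.card (∀ i : Option S, Fin (M i + 2)) = _
    rw [Fintype.card_pi, Fintype.prod_option]
    congr 1
    · exact Fintype.card_fin _
    · have : ∀ i : S, Fintype.card (Fin (M (some i) + 2)) = L + 2 := fun i => Fintype.card_fin _
      rw [Finset.prod_congr rfl (fun i _ => this i), prod_const, card_univ, Fintype.card_coe]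
  · intro u
    obtain ⟨z, hz⟩ : ∃ z, z = inp c (Function.update Y j u) := ⟨_, rfl⟩
    rw [out_res2, elim_sig, ← hz]
    have h1 : ∀ T', Out P1 z T' b₀ ↔ Out P z T' b₀ ∧ tly P (fun _ => true) z T' ≤ T ∧
        ∀ i : S, L < tly P (blk (i : Fin t)) z T' := by
      intro T'
      show Out (aug P A (fun i => (⟨0, by omega⟩ : Fin (M i + 2))) (cup M p) acc b₀) z T' b₀ ↔ _
      rw [out_aug]
      refine and_congr_right (fun _ => ?_)
      show decide _ = true ↔ _
      rw [decide_eq_true_iff]
      have h2 := mem_cup P M p z T' none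
      have h3 : ∀ i : S, _ := fun i => mem_cup P M p z T' (some i)
      constructor
      · rintro ⟨h4, h5⟩
        constructor
        · have h6 : min (tly P (p none) z T') (M none + 1) ≤ T := h2 ▸ h4
          have h7 : min (tly P (fun _ => true) z T') (T + 1) ≤ T := h6
          omega
        · intro i
          have h6 : min (tly P (p (some i)) z T') (M (some i) + 1) = L + 1 := (h3 i) ▸ h5 i
          have h7 : min (tly P (blk (i : Fin t)) z T') (L + 1) = L + 1 := h6
          omega
      · rintro ⟨h4, h5⟩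
        constructor
        · refine le_trans (le_of_eq h2) ?_
          show min (tly P (fun _ => true) z T') (T + 1) ≤ T
          omega
        · intro i
          refine (h3 i).trans ?_
          show min (tly P (blk (i : Fin t)) z T') (L + 1) = L + 1
          have := h5 i
          omega
    have h2 : ∀ T', cnt P1 (sig c Y j) z T' = tly P (blk j) z T' := by
      intro T'
      show cnt (aug P A (fun i => (⟨0, by omega⟩ : Fin (M i + 2))) (cup M p) acc b₀) (sig c Y j) z T' = _
      rw [cnt_aug, cnt_blk]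
    constructor
    · rintro ⟨T', hT', hc⟩
      rw [h1] at hT'
      rw [h2] at hc
      obtain ⟨h4, h5, h6⟩ := hT'
      have h7 := out_of_tly P z h4 h5
      refine ⟨h7, ?_, ?_⟩
      · intro i hi
        rw [tly_eq P (blk i) z h7 h4]
        exact h6 ⟨i, hi⟩
      · rw [tly_eq P (blk j) z h7 h4]
        omega
    · rintro ⟨h4, h5, h6⟩
      refine ⟨T, (h1 T).2 ⟨h4, tly_le _ _ _ _, fun i => h5 i i.2⟩, ?_⟩
      rw [h2]
      omega

/-! ## The sum -/

/-- The sign. -/
noncomputable def sgn (c₀ : Coef n → Bool) (Y : Fin t → Fin n → Bool) : ℝ := ∏ j, sgq c₀ (Y j)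

theorem sgq_abs (c₀ : Coef n → Bool) (y : Fin n → Bool) : |sgq c₀ y| = 1 := by
  unfold sgq
  split_ifs <;> simp

theorem sgn_abs (c₀ : Coef n → Bool) (Y : Fin t → Fin n → Bool) : |sgn c₀ Y| = 1 := by
  unfold sgn
  rw [abs_prod]
  exact prod_eq_one (fun j _ => sgq_abs c₀ (Y j))

open scoped Classical in
/-- The inputs with output `b₀` on which the blocks of `S` are heavy. -/
noncomputable def XS (P : BP (κ ⊕ Fin t × Fin n)) (c : κ → Bool) (T L : ℕ) (b₀ : Bool)
    (S : Finset (Fin t)) : Finset (Fin t → Fin n → Bool) :=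
  univ.filter (fun Y => Out P (inp c Y) T b₀ ∧ ∀ i ∈ S, L < tly P (blk i) (inp c Y) T)

theorem mem_XS {P : BP (κ ⊕ Fin t × Fin n)} {c : κ → Bool} {T L : ℕ} {b₀ : Bool} {S : Finset (Fin t)}
    {Y : Fin t → Fin n → Bool} : Y ∈ XS P c T L b₀ S ↔
      Out P (inp c Y) T b₀ ∧ ∀ i ∈ S, L < tly P (blk i) (inp c Y) T := by
  classical
  unfold XS
  exact ⟨fun h => (mem_filter.1 h).2, fun h => mem_filter.2 ⟨mem_univ _, h⟩⟩

open scoped Classical in
theorem step (P : BP (κ ⊕ Fin t × Fin n)) (c : κ → Bool) (c₀ : Coef n → Bool) (T L : ℕ) (b₀ : Bool)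
    (S : Finset (Fin t)) (j : Fin t) (δ : ℝ)
    (hP : ∀ P' : BP (Fin n), Fintype.card P'.V = Fintype.card P.V * ((T + 2) * (L + 2) ^ S.card) →
      |∑ u ∈ ShB P' L b₀, sgq c₀ u| ≤ 2 ^ n * δ) :
    |∑ Y ∈ (XS P c T L b₀ S).filter (fun Y => ¬ L < tly P (blk j) (inp c Y) T), sgn c₀ Y| ≤
      2 ^ (t * n) * δ := by
  obtain ⟨F, hF⟩ : ∃ F : (Fin t → Fin n → Bool) → ℝ, F = fun Y =>
      if Y ∈ (XS P c T L b₀ S).filter (fun Y => ¬ L < tly P (blk j) (inp c Y) T) then sgn c₀ Y else 0 :=
    ⟨_, rfl⟩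
  have h1 : ∑ Y ∈ (XS P c T L b₀ S).filter (fun Y => ¬ L < tly P (blk j) (inp c Y) T), sgn c₀ Y =
      ∑ Y, F Y := by
    rw [hF, sum_ite_mem, univ_inter]
  have h2 := upd_sum (n := n) j F
  have h3 : ∀ Y : Fin t → Fin n → Bool, |∑ u : Fin n → Bool, F (Function.update Y j u)| ≤ 2 ^ n * δ := by
    intro Y
    obtain ⟨P', hc, hout⟩ := blockp P c Y j S T L b₀
    have h4 := hP P' hc
    have h5 : ∀ u : Fin n → Bool, F (Function.update Y j u) =
        (∏ i ∈ univ.erase j, sgq c₀ (Y i)) * (if u ∈ ShB P' L b₀ then sgq c₀ u else 0) := by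
      intro u
      have h6 : Function.update Y j u ∈
          (XS P c T L b₀ S).filter (fun Y => ¬ L < tly P (blk j) (inp c Y) T) ↔ u ∈ ShB P' L b₀ := by
        rw [mem_filter, mem_XS]
        unfold ShB
        rw [mem_filter, hout u]
        constructor
        · rintro ⟨⟨h1, h2⟩, h3⟩
          exact ⟨mem_univ _, h1, h2, h3⟩
        · rintro ⟨-, h1, h2, h3⟩
          exact ⟨⟨h1, h2⟩, h3⟩
      rw [hF]
      simp only
      by_cases h7 : u ∈ ShB P' L b₀
      · rw [if_pos (h6.2 h7), if_pos h7]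
        unfold sgn
        rw [← mul_prod_erase univ _ (mem_univ j), Function.update_self, mul_comm]
        congr 1
        refine prod_congr rfl (fun i hi => ?_)
        rw [Function.update_of_ne (ne_of_mem_erase hi)]
      · rw [if_neg (fun h => h7 (h6.1 h)), if_neg h7, mul_zero]
    rw [sum_congr rfl (fun u _ => h5 u), ← mul_sum, abs_mul, abs_prod,
      prod_eq_one (fun i _ => sgq_abs c₀ (Y i)), one_mul, sum_ite_mem, univ_inter]
    exact h4
  rw [h1]
  have h4 : (2 : ℝ) ^ n * |∑ Y, F Y| ≤ 2 ^ n * (2 ^ (t * n) * δ) := by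
    rw [← abs_of_pos (show (0 : ℝ) < 2 ^ n by positivity), ← abs_mul, ← h2, abs_of_pos (show (0 : ℝ) < 2 ^ n by positivity)]
    refine (abs_sum_le_sum_abs _ _).trans ?_
    refine (sum_le_sum (fun Y _ => h3 Y)).trans ?_
    rw [sum_const, nsmul_eq_mul, card_univ, Fintype.card_fun, Fintype.card_fun, Fintype.card_bool,
      Fintype.card_fin, Fintype.card_fin, ← pow_mul, Nat.mul_comm n t]
    push_cast
    linarith
  exact le_of_mul_le_mul_left h4 (by positivity)

/-- Some block is heavy for at most half of the inputs. -/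
theorem half (X : Finset (Fin t → Fin n → Bool)) (hv : (Fin t → Fin n → Bool) → Fin t → Prop)
    [∀ Y j, Decidable (hv Y j)] (ht : 1 ≤ t) (h : ∀ Y ∈ X, 2 * (univ.filter (fun j => hv Y j)).card ≤ t) :
    ∃ j : Fin t, 2 * (X.filter (fun Y => hv Y j)).card ≤ X.card := by
  by_contra hcon
  push Not at hcon
  have h1 : ∑ j : Fin t, (X.filter (fun Y => hv Y j)).card =
      ∑ Y ∈ X, (univ.filter (fun j => hv Y j)).card := by
    simp only [card_filter]
    exact sum_comm
  have h2 : ∑ _j : Fin t, X.card < ∑ j : Fin t, 2 * (X.filter (fun Y => hv Y j)).card :=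
    sum_lt_sum_of_nonempty ⟨⟨0, ht⟩, mem_univ _⟩ (fun j _ => hcon j)
  rw [← mul_sum, h1, mul_sum, sum_const, card_univ, Fintype.card_fin, smul_eq_mul] at h2
  have h3 := sum_le_sum h
  rw [sum_const, smul_eq_mul] at h3
  have h4 : t * X.card = X.card * t := Nat.mul_comm _ _
  omega

theorem heavy (P : BP (κ ⊕ Fin t × Fin n)) (x : κ ⊕ Fin t × Fin n → Bool) (T L : ℕ)
    (h : 2 * T ≤ t * (L + 1)) :
    2 * ((univ : Finset (Fin t)).filter (fun j => L < tly P (blk j) x T)).card ≤ t := by
  have h0 : ∑ j : Fin t, tly P (blk j) x T ≤ T := by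
    have h1 := sum_cnt P (fun _ => false) (fun _ _ => false) x T
    simp only [cnt_blk] at h1
    exact h1
  have h1 : ((univ : Finset (Fin t)).filter (fun j => L < tly P (blk j) x T)).card * (L + 1) ≤ T := by
    refine le_trans ?_ h0
    rw [← smul_eq_mul]
    refine le_trans (card_nsmul_le_sum _ (fun j => tly P (blk j) x T) (L + 1) ?_)
      (sum_le_univ_sum_of_nonneg (fun _ => Nat.zero_le _))
    intro j hj
    exact (mem_filter.1 hj).2
  have h2 : 2 * ((univ : Finset (Fin t)).filter (fun j => L < tly P (blk j) x T)).card * (L + 1) ≤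
      t * (L + 1) := by
    rw [Nat.mul_assoc]
    omega
  exact Nat.le_of_mul_le_mul_right h2 (by omega)

theorem ind (P : BP (κ ⊕ Fin t × Fin n)) (c : κ → Bool) (c₀ : Coef n → Bool) (T L a₀ : ℕ) (b₀ : Bool)
    (δ : ℝ) (hδ : 0 ≤ δ) (ht : 1 ≤ t) (hTL : 2 * T ≤ t * (L + 1))
    (hP : ∀ P' : BP (Fin n), Fintype.card P'.V ≤ Fintype.card P.V * ((T + 2) * (L + 2) ^ a₀) →
      |∑ u ∈ ShB P' L b₀, sgq c₀ u| ≤ 2 ^ n * δ) :
    ∀ a ≤ a₀, ∃ S : Finset (Fin t), S.card ≤ a ∧ 2 ^ a * (XS P c T L b₀ S).card ≤ (XS P c T L b₀ ∅).card ∧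
      |∑ Y ∈ XS P c T L b₀ ∅, sgn c₀ Y| ≤ |∑ Y ∈ XS P c T L b₀ S, sgn c₀ Y| + a * (2 ^ (t * n) * δ) := by
  classical
  intro a
  induction a with
  | zero =>
    intro _
    exact ⟨∅, le_rfl, by simp, by simp⟩
  | succ a ih =>
    intro ha
    obtain ⟨S, h1, h2, h3⟩ := ih (by omega)
    have hδ' : 0 ≤ 2 ^ (t * n) * δ := by positivity
    obtain ⟨j, hj⟩ := half (XS P c T L b₀ S) (fun Y j => L < tly P (blk j) (inp c Y) T) ht
      (fun Y _ => heavy P (inp c Y) T L hTL)
    by_cases hjS : j ∈ S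
    · have h4 : (XS P c T L b₀ S).filter (fun Y => L < tly P (blk j) (inp c Y) T) = XS P c T L b₀ S := by
        refine filter_true_of_mem (fun Y hY => ?_)
        exact (mem_XS.1 hY).2 j hjS
      rw [h4] at hj
      have h5 : (XS P c T L b₀ S).card = 0 := by omega
      refine ⟨S, by omega, ?_, ?_⟩
      · rw [h5]
        omega
      · refine h3.trans ?_
        push_cast
        linarith
    · have h4 : XS P c T L b₀ (insert j S) =
          (XS P c T L b₀ S).filter (fun Y => L < tly P (blk j) (inp c Y) T) := by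
        ext Y
        rw [mem_filter, mem_XS, mem_XS]
        simp only [mem_insert, forall_eq_or_imp]
        tauto
      refine ⟨insert j S, ?_, ?_, ?_⟩
      · rw [card_insert_of_notMem hjS]
        omega
      · rw [h4, pow_succ]
        calc 2 ^ a * 2 * ((XS P c T L b₀ S).filter (fun Y => L < tly P (blk j) (inp c Y) T)).card
            = 2 ^ a * (2 * ((XS P c T L b₀ S).filter
                (fun Y => L < tly P (blk j) (inp c Y) T)).card) := by ring
          _ ≤ 2 ^ a * (XS P c T L b₀ S).card := Nat.mul_le_mul_left _ hj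
          _ ≤ _ := h2
      · have h5 := step P c c₀ T L b₀ S j δ (fun P' hP' => hP P' (by
          rw [hP']
          refine Nat.mul_le_mul_left _ (Nat.mul_le_mul_left _ ?_)
          exact Nat.pow_le_pow_right (by omega) (by omega)))
        have h6 : ∑ Y ∈ XS P c T L b₀ S, sgn c₀ Y = ∑ Y ∈ XS P c T L b₀ (insert j S), sgn c₀ Y +
            ∑ Y ∈ (XS P c T L b₀ S).filter (fun Y => ¬ L < tly P (blk j) (inp c Y) T), sgn c₀ Y := by
          rw [h4]
          exact (sum_filter_add_sum_filter_not _ _ _).symm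
        have h7 : |∑ Y ∈ XS P c T L b₀ S, sgn c₀ Y| ≤
            |∑ Y ∈ XS P c T L b₀ (insert j S), sgn c₀ Y| + 2 ^ (t * n) * δ := by
          rw [h6]
          refine (abs_add_le _ _).trans ?_
          linarith
        push_cast
        linarith

/-- The sum over the inputs with output `b₀`. -/
theorem parsum (P : BP (κ ⊕ Fin t × Fin n)) (c : κ → Bool) (c₀ : Coef n → Bool) (T L a : ℕ) (b₀ : Bool)
    (δ : ℝ) (hδ : 0 ≤ δ) (ht : 1 ≤ t) (hTL : 2 * T ≤ t * (L + 1))
    (hP : ∀ P' : BP (Fin n), Fintype.card P'.V ≤ Fintype.card P.V * ((T + 2) * (L + 2) ^ a) →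
      |∑ u ∈ ShB P' L b₀, sgq c₀ u| ≤ 2 ^ n * δ) :
    |∑ Y ∈ XS P c T L b₀ ∅, sgn c₀ Y| ≤
      (XS P c T L b₀ ∅).card / 2 ^ a + a * (2 ^ (t * n) * δ) := by
  obtain ⟨S, -, h2, h3⟩ := ind P c c₀ T L a b₀ δ hδ ht hTL hP a le_rfl
  refine h3.trans ?_
  have h4 : |∑ Y ∈ XS P c T L b₀ S, sgn c₀ Y| ≤ (XS P c T L b₀ S).card := by
    refine (abs_sum_le_sum_abs _ _).trans ?_
    rw [sum_congr rfl (fun Y _ => sgn_abs c₀ Y), sum_const, nsmul_eq_mul, mul_one]
  have h5 : ((XS P c T L b₀ S).card : ℝ) ≤ (XS P c T L b₀ ∅).card / 2 ^ a := by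
    rw [le_div_iff₀ (by positivity), mul_comm]
    exact_mod_cast h2
  linarith

end ParL

end RBP
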