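import Pool.Agent.Lib.MP_9dcf40_lc.RD.Model

/-!
# Theorem DTR (MP_9dcf40_lc): constants in deterministic branching programs
-/

namespace RBP

open Finset

namespace ResAux

variable {κ ι : Type}

/-- One step if the tested variable is a constant. -/
def fstep (P : BP κ) (σ : κ → Bool ⊕ ι) (v : P.V) : P.V :=
  match P.node v with
  | Sum.inl _ => v
  | Sum.inr q => match σ q.1 with
    | Sum.inl c => q.2 c
    | Sum.inr _ => v

/-- The state is an output or tests a variable which is not a constant. -/
def Stop (P : BP κ) (σ : κ → Bool ⊕ ι) (v : P.V) : Prop :=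
  match P.node v with
  | Sum.inl _ => True
  | Sum.inr q => match σ q.1 with
    | Sum.inl _ => False
    | Sum.inr _ => True

theorem fstep_stop {P : BP κ} {σ : κ → Bool ⊕ ι} {v : P.V} (h : Stop P σ v) : fstep P σ v = v := by
  unfold Stop at h
  unfold fstep
  rcases hq : P.node v with c | q
  · rfl
  · rw [hq] at h
    simp only at h ⊢
    rcases hs : σ q.1 with c | i
    · rw [hs] at h
      exact h.elim
    · rfl

theorem iter_stop {P : BP κ} {σ : κ → Bool ⊕ ι} {v : P.V} (h : Stop P σ v) (m : ℕ) :
    (fstep P σ)^[m] v = v := by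
  induction m with
  | zero => rfl
  | succ m ih => rw [Function.iterate_succ_apply, fstep_stop h, ih]

theorem iter_eq {P : BP κ} {σ : κ → Bool ⊕ ι} {v : P.V} {m m' : ℕ}
    (h : Stop P σ ((fstep P σ)^[m] v)) (h' : Stop P σ ((fstep P σ)^[m'] v)) :
    (fstep P σ)^[m] v = (fstep P σ)^[m'] v := by
  rcases le_total m m' with hm | hm
  · obtain ⟨d, rfl⟩ := Nat.exists_eq_add_of_le hm
    rw [Nat.add_comm m d, Function.iterate_add_apply, iter_stop h]
  · obtain ⟨d, rfl⟩ := Nat.exists_eq_add_of_le hm
    rw [Nat.add_comm m' d, Function.iterate_add_apply, iter_stop h']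

open scoped Classical in
/-- Go on while the tested variable is a constant. -/
noncomputable def skip (P : BP κ) (σ : κ → Bool ⊕ ι) (v : P.V) : P.V :=
  if h : ∃ m, Stop P σ ((fstep P σ)^[m] v) then (fstep P σ)^[h.choose] v else v

theorem skip_eq {P : BP κ} {σ : κ → Bool ⊕ ι} {v : P.V} {m : ℕ}
    (h : Stop P σ ((fstep P σ)^[m] v)) : skip P σ v = (fstep P σ)^[m] v := by
  have h1 : ∃ m, Stop P σ ((fstep P σ)^[m] v) := ⟨m, h⟩
  unfold skip
  rw [dif_pos h1]
  exact iter_eq h1.choose_spec h

/-- The restricted program: the output of a state is flipped if `fl`. -/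
noncomputable def res (P : BP κ) (σ : κ → Bool ⊕ ι) (fl : Bool) : BP ι where
  V := P.V
  fin := P.fin
  start := P.start
  node := fun v => match P.node (skip P σ v) with
    | Sum.inl b => Sum.inl (xor fl b)
    | Sum.inr q => match σ q.1 with
      | Sum.inl _ => Sum.inl false
      | Sum.inr i => Sum.inr (i, q.2)

/-- The state tests a variable which is not a constant. -/
def tests (P : BP κ) (σ : κ → Bool ⊕ ι) (v : P.V) : Bool :=
  match P.node v with
  | Sum.inl _ => false
  | Sum.inr q => match σ q.1 with
    | Sum.inl _ => false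
    | Sum.inr _ => true

/-- The number of tests of variables which are not constants, in the first `T` steps on the input `x`. -/
def cnt (P : BP κ) (σ : κ → Bool ⊕ ι) (x : κ → Bool) (T : ℕ) : ℕ :=
  ((range T).filter (fun i => tests P σ (P.run x i) = true)).card

theorem cnt_succ (P : BP κ) (σ : κ → Bool ⊕ ι) (x : κ → Bool) (T : ℕ) :
    cnt P σ x (T + 1) = cnt P σ x T + (if tests P σ (P.run x T) = true then 1 else 0) := by
  unfold cnt
  rw [range_add_one, filter_insert]
  split_ifs with h
  · rw [card_insert_of_notMem]
    rw [mem_filter, mem_range]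
    exact fun h => absurd h.1 (lt_irrefl _)
  · rfl

theorem run_res (P : BP κ) (σ : κ → Bool ⊕ ι) (fl : Bool) (y : ι → Bool) (T : ℕ) :
    ∃ m, P.run (fun a => Sum.elim id y (σ a)) T =
      (fstep P σ)^[m] ((res P σ fl).run y (cnt P σ (fun a => Sum.elim id y (σ a)) T)) := by
  induction T with
  | zero => exact ⟨0, rfl⟩
  | succ T ih =>
    obtain ⟨m, hm⟩ := ih
    obtain ⟨x, hx⟩ : ∃ x : κ → Bool, x = fun a => Sum.elim id y (σ a) := ⟨_, rfl⟩
    rw [← hx] at hm ⊢
    obtain ⟨u, hu⟩ : ∃ u, u = P.run x T := ⟨_, rfl⟩
    obtain ⟨v, hv⟩ : ∃ v, v = (res P σ fl).run y (cnt P σ x T) := ⟨_, rfl⟩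
    rw [← hu, ← hv] at hm
    rw [cnt_succ, ← hu]
    have hnext : P.run x (T + 1) = P.next x u := by
      rw [hu]
      rfl
    rw [hnext]
    rcases hq : P.node u with c | q
    · have h1 : tests P σ u = false := by
        unfold tests
        rw [hq]
      have h2 : P.next x u = u := by
        unfold BP.next
        rw [hq]
      rw [h1, h2, if_neg (by simp), Nat.add_zero, ← hv]
      exact ⟨m, hm⟩
    · have h2 : P.next x u = q.2 (x q.1) := by
        unfold BP.next
        rw [hq]
      rcases hs : σ q.1 with c | i
      · have h1 : tests P σ u = false := by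
          unfold tests
          rw [hq]
          simp only
          rw [hs]
        have h3 : x q.1 = c := by
          rw [hx]
          simp only
          rw [hs]
          rfl
        rw [h1, h2, if_neg (by simp), Nat.add_zero, ← hv, h3]
        refine ⟨m + 1, ?_⟩
        rw [Function.iterate_succ_apply', ← hm]
        unfold fstep
        rw [hq]
        simp only
        rw [hs]
      · have h1 : tests P σ u = true := by
          unfold tests
          rw [hq]
          simp only
          rw [hs]
        have h3 : x q.1 = y i := by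
          rw [hx]
          simp only
          rw [hs]
          rfl
        rw [h1, h2, if_pos rfl, h3]
        refine ⟨0, ?_⟩
        have h4 : Stop P σ u := by
          unfold Stop
          rw [hq]
          simp only
          rw [hs]
          trivial
        have h5 : skip P σ v = u := by
          rw [hm] at h4
          rw [skip_eq h4, ← hm]
        have h6 : (res P σ fl).node v = Sum.inr (i, q.2) := by
          show (match P.node (skip P σ v) with
            | Sum.inl b => Sum.inl (xor fl b)
            | Sum.inr q => match σ q.1 with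
              | Sum.inl _ => Sum.inl false
              | Sum.inr i => Sum.inr (i, q.2)) = _
          rw [h5, hq]
          simp only
          rw [hs]
        show q.2 (y i) = (res P σ fl).next y ((res P σ fl).run y (cnt P σ x T))
        rw [← hv]
        unfold BP.next
        rw [h6]

end ResAux

open ResAux

/-- RES: constants in programs. -/
theorem out_res {κ ι : Type} (P : BP κ) (σ : κ → Bool ⊕ ι) (fl : Bool) (y : ι → Bool) (T : ℕ) (b : Bool)
    (h : Out P (fun a => Sum.elim id y (σ a)) T b) :
    Out (res P σ fl) y (cnt P σ (fun a => Sum.elim id y (σ a)) T) (xor fl b) := by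
  obtain ⟨m, hm⟩ := run_res P σ fl y T
  unfold Out at h ⊢
  rw [hm] at h
  have h1 : Stop P σ ((fstep P σ)^[m] ((res P σ fl).run y
      (cnt P σ (fun a => Sum.elim id y (σ a)) T))) := by
    unfold Stop
    rw [h]
    trivial
  show (match P.node (skip P σ _) with
            | Sum.inl b => Sum.inl (xor fl b)
            | Sum.inr q => match σ q.1 with
              | Sum.inl _ => Sum.inl false
              | Sum.inr i => Sum.inr (i, q.2)) = _
  rw [skip_eq h1, h]
  rfl

/-- The computation stays at an output. -/
theorem run_stay {ι : Type} (P : BP ι) (x : ι → Bool) {t : ℕ} {b : Bool} (h : Out P x t b) :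
    ∀ d, P.run x (t + d) = P.run x t := by
  intro d
  induction d with
  | zero => rfl
  | succ d ih =>
    show P.next x (P.run x (t + d)) = _
    rw [ih]
    unfold BP.next
    unfold Out at h
    rw [h]

theorem out_mono {ι : Type} (P : BP ι) (x : ι → Bool) {t t' : ℕ} {b : Bool} (h : Out P x t b) (ht : t ≤ t') :
    Out P x t' b := by
  obtain ⟨d, rfl⟩ := Nat.exists_eq_add_of_le ht
  unfold Out
  rw [run_stay P x h d]
  exact h

theorem out_unique {ι : Type} (P : BP ι) (x : ι → Bool) {t t' : ℕ} {b b' : Bool} (h : Out P x t b)
    (h' : Out P x t' b') : b = b' := by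
  rcases le_total t t' with ht | ht
  · have h1 := out_mono P x h ht
    unfold Out at h1 h'
    rw [h1] at h'
    exact Sum.inl.inj h'
  · have h1 := out_mono P x h' ht
    unfold Out at h1 h
    rw [h1] at h
    exact (Sum.inl.inj h).symm

end RBP
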