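import Pool.Agent.Lib.MP_9dcf40_lc.RD.TopH

/-!
# Two-sided error (MP_9dcf40_lc): polynomially small advantage, independent of `k`

With exponential concentration (instead of the second moment) in the selection, the advantage `1 / h` costs only the
factor `log h` in the number of segments: `e = 1 / (k^(A k) log h)` for all `h ≤ n^(1/20)`.
-/

namespace RBP

open Finset SRBP

/-- MCD (bounded differences). `f` changes by at most `c i` if only the coordinate `i` changes; uniform distribution on the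
product. PROOF. Induction on `r`: `g x = E_{x₀} f (x₀, x)`; for fixed `x` the variable `X = f (x₀, x) - g x` has mean `0` and
`|λ X| ≤ λ c₀ ≤ 1`, so `E exp (λ X) ≤ 1 + λ² c₀² ≤ exp (λ² c₀²)` (`exp u ≤ 1 + u + u²` for `|u| ≤ 1`:
`Real.abs_exp_sub_one_sub_id_le`); `g` has the differences `c (i+1)`. -/
def S_Mcd : Prop := ∀ (r : ℕ) (α : Fin r → Type) [∀ i, Fintype (α i)] [∀ i, Nonempty (α i)]
  (f : (∀ i, α i) → ℝ) (c : Fin r → ℝ) (lam : ℝ), 0 ≤ lam → (∀ i, 0 ≤ c i) → (∀ i, lam * c i ≤ 1) →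
  (∀ i x x', (∀ j, j ≠ i → x j = x' j) → |f x - f x'| ≤ c i) →
  ∑ x, Real.exp (lam * (f x - (∑ y, f y) / Fintype.card (∀ i, α i))) ≤
    Fintype.card (∀ i, α i) * Real.exp (lam ^ 2 * ∑ i, c i ^ 2)

/-- SELL (selection, exponential loss). `T` = the segments `j` with `χ j = 0`, `χ : Fin r → Fin q` uniform; `J` = the
other segments (as in `S_SelR`, `DTR/Sel.lean`: check which side is which in `Gd`); `G` = one uniform element of each of `g`
disjoint blocks of `B` variables. For `x ∈ S`: (1) `N₁ = |(univ \ DJ J x) \ G|` has `E N₁ ≥ (n/2) q^(-m) (3/4) ≥ 3 s` (at least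
`n/2` variables are read in at most `m` segments, because `(m+1) ≥ 2 k`; `B ≥ 4`), (2) `N₂ = |DJ Jᶜ x ∩ G|` has
`E N₂ ≤ (1/B) k n / q ≤ d/2`. Both change by at most `ℓ` if one `χ j` changes and by at most `1` if one element of `G` changes.
`S_Mcd` with `C = r ℓ² + g`: `λ = s/C` for `-N₁`: `P(N₁ < s) ≤ exp (- s²/C)`; `λ = d/(4C)` for `N₂`:
`P(N₂ > d) ≤ exp (- d²/(16 C))`. Average over `x ∈ S`. -/
def S_SelL : Prop := ∀ (n r q m k ℓ g B s d : ℕ) (β : Type) (S : Finset (Fin n → Bool))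
    (sg : Fin r → (Fin n → Bool) → β) (dm : β → Finset (Fin n)),
  (∀ x ∈ S, ∀ j, (dm (sg j x)).card ≤ ℓ) → (∀ x ∈ S, ∑ j, (dm (sg j x)).card ≤ k * n) →
  1 ≤ q → 1 ≤ n → 1 ≤ ℓ → 2 * k ≤ m + 1 → 4 ≤ B → g * B ≤ n → 8 * q ^ m * s ≤ n → 2 * k * n ≤ B * q * d →
  s ≤ r * ℓ → d ≤ r * ℓ →
  ∃ (J : Finset (Fin r)) (G : Finset (Fin n)), G.card = g ∧
    ((S.card : ℝ) - (Gd S sg dm J G s d).card) ≤
      (Real.exp (-((s : ℝ) ^ 2 / (r * ℓ ^ 2 + g))) + Real.exp (-((d : ℝ) ^ 2 / (16 * (r * ℓ ^ 2 + g))))) * S.card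

/-- TOPL. Numbers: `q = k^40`, `m = 2 k`, `s = n / (8 q^m)`, `B` about `n/g`, `g = s k^14`, `d = g / k^34`,
`r = k^(160 k + 60) (log₂ h)`: `d² / (16 C) ≥ 50 log₂ h`, loss `≤ 1/(4 h)`; `3 n^(-1/16) ≤ 1/(4 h)` from `h^20 ≤ n`, `n`
large. -/
def S_TopL : Prop := ∃ A N : ℕ, 1 ≤ A ∧ ∀ n ≥ N, ∀ c : Coef n → Bool, Good n c → ∀ k h : ℕ, 2 ≤ k → 2 ≤ h →
  (k : ℝ) ^ (A * k) ≤ n → (h : ℝ) ^ 20 ≤ n → ∀ P : BP (Fin n),
  (Fintype.card P.V : ℝ) < Real.exp (n / ((k : ℝ) ^ (A * k) * Nat.log 2 h)) → ∀ b : Bool,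
  |∑ y ∈ ShB P (k * n) b, sgq c y| ≤
    (ShB P (k * n) b).card / h + 2 ^ n * Real.exp (-(n / ((k : ℝ) ^ (A * k) * Nat.log 2 h)))

end RBP
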